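import Pool.Agent.U851.CM.Split11

set_option autoImplicit false

/-!
# The split case for the discriminant `-8`
-/

namespace Pool.Agent.U851.CM

open Polynomial WeierstrassCurve WeierstrassCurve.Affine WithZero Pool.Agent.Q267.MW

noncomputable section

theorem grp3 {G : Type*} [AddCommGroup G] (P A B : G) (r s : ℤ) (hB : -A = B) :
    r • P + s • A - (r + s) • P = (-s) • (P + B) := by
  rw [← hB, add_smul, neg_smul, smul_add, smul_neg]
  abel

variable {p : ℕ} [hp : Fact p.Prime]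

open Classical in
theorem split8 (hp5 : 5 ≤ p) (r s : ℤ) (hrs : (p : ℤ) = r ^ 2 + 2 * s ^ 2) :
    ‖((Sm p 8 - (((2 * r) ^ 2 - 2 * (p : ℤ) : ℤ) : ℚ) : ℚ) : ℚ_[p])‖ ≤ ep p ^ 2 := by
  have hpp : Prime (p : ℤ) := Nat.prime_iff_prime_int.mp hp.out
  obtain ⟨z, hz, hπ⟩ := root_val (p := p) 0 2 r s (by rw [hrs]; ring) (by
    intro h
    have h' : (p : ℤ) ∣ 2 ^ 3 := by norm_num at h ⊢; exact h
    have h'' : (p : ℤ) ∣ ((2 : ℕ) : ℤ) := hpp.dvd_of_dvd_pow h'
    have := (Nat.prime_dvd_prime_iff_eq hp.out Nat.prime_two).mp (Int.natCast_dvd_natCast.mp h'')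
    omega)
  have h2 : (2 : ℚ_[p]) ≠ 0 := two_ne_zero
  have h3 : (3 : ℚ_[p]) ≠ 0 := three_ne_zero
  set al : ℚ_[p] := (z : ℚ_[p]) with hald
  have hz' : z ^ 2 = -2 := by
    have := hz
    push_cast at this
    linear_combination this
  have hal : al ^ 2 = -2 := by
    have := congrArg (algebraMap ℤ_[p] ℚ_[p]) hz'
    simp only [map_pow, map_neg, map_ofNat] at this
    exact this
  -- the parameter
  obtain ⟨u, hu⟩ := unit_nat hp5 2 3
  obtain ⟨w, hw⟩ := unit_nat hp5 1 3
  norm_num at hu hw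
  set t : ℤ_[p] := (2 + 5 * z) * u with ht
  have ht1 : ‖t‖ = 1 := by
    apply norm_unit (y := (2 - 5 * z) * 108 * w)
    rw [ht]
    linear_combination ((2 + 5 * z) * (2 - 5 * z) * w) * hu - 25 * w * hz' + hw
  have htq : (t : ℚ_[p]) = (2 + 5 * al) / 108 := by
    have h108 : (108 : ℚ_[p]) ≠ 0 := by norm_num
    rw [eq_div_iff h108]
    have h := congrArg (algebraMap ℤ_[p] ℚ_[p]) hu
    simp only [map_mul, map_ofNat, map_one] at h
    have h' := congrArg (algebraMap ℤ_[p] ℚ_[p]) ht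
    simp only [map_mul, map_add, map_ofNat] at h'
    have h'' : (t : ℚ_[p]) = (2 + 5 * al) * (algebraMap ℤ_[p] ℚ_[p] u) := h'
    rw [h'']
    linear_combination (2 + 5 * al) * h
  have hm : ((8 : ℕ) : ℤ_[p]) * (t * (1 - 27 * t)) = 1 := by
    rw [ht]
    push_cast
    linear_combination (1 - 2 * (2 + 5 * z) ^ 2 * u) * hu + (-50 * u) * hz'
  have hΔ := hΔ8 (F := ℚ_[p]) h2 h3
  have heqA := eqA8 (F := ℚ_[p]) hal h2
  set P := pt h2 hΔ (P0_eq (-30 : ℚ_[p]) 56) with hP
  set A := pt h2 hΔ heqA with hA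
  set S := r • P + s • A with hS
  have hgS : Good ((r : ℚ_[p]) * 1 + s * al) S :=
    good_add h2 (good_zsmul h2 (good_P0 h2 hΔ) r) (good_zsmul h2 (goodA8 hal h2 h3) s)
  rw [mul_one] at hgS
  have hhS : hgt S = p := by
    have hpar : ∀ P Q : (TW (-30 : ℚ_[p]) 56).Point,
        ((hgt (P + Q) : ℕ) : ℤ) + ((hgt (P - Q) : ℕ) : ℤ) =
        2 * (((hgt P : ℕ) : ℤ) + ((hgt Q : ℕ) : ℤ)) := by
      intro P Q
      have := par h2 hΔ P Q
      exact_mod_cast this
    have hq := qf (fun R => (hgt R : ℤ)) hpar P A r s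
    have q1 : hgt P = 1 := hgt_P0 h2 hΔ
    have q2 : hgt A = 2 := hgtA8 hal h2 h3
    have q3 : hgt (P + A) = 3 := hgtS8 hal h2 h3
    rw [q1, q2, q3] at hq
    have : ((hgt S : ℕ) : ℤ) = p := by
      rw [hrs, hS, hq]
      push_cast
      ring
    exact_mod_cast this
  -- the point of order three
  have hfe' : (2 + al) ^ 3 + (-30) * (2 + al) + 56 = -8 - 20 * al := by
    linear_combination (6 + al) * hal
  have hfe : (2 + al) ^ 3 + (-30) * (2 + al) + 56 ≠ 0 := by
    rw [hfe']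
    intro h
    have : (216 : ℚ_[p]) = 0 := by
      linear_combination (-(2 - 5 * al)) * h + 100 * hal
    norm_num at this
  have hK3 : Ker (vx (2 + al)) ((3 : ℤ) • P) := by
    apply three_ker h2 h3 hΔ hfe
    linear_combination (-3 * al ^ 2 - 24 * al + 114) * hal
  have hKA : Ker (vx (2 + al)) (P + pt h2 hΔ (neg_eqn heqA)) := by
    obtain ⟨h9, -⟩ := pow3_ne (K := ℚ_[p]) h3
    have hTx := Tx8 (F := ℚ_[p]) h2 h3
    have hne : io (X : ℚ_[p][X]) ≠ x8 (io X) := fun h => hTx (sub_eq_zero.mpr h)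
    have hf := fk_ne (-30 : ℚ_[p]) 56
    have hxx : io (fp (-30 : ℚ_[p]) 56) * io X ≠ io (fp (-30 : ℚ_[p]) 56) * x8 (io X) :=
      fun h => hne (mul_left_cancel₀ hf h)
    have hval : io (fp (-30 : ℚ_[p]) 56) * ((1 - -(y8 (io (C al)) (io X))) /
        (io X - x8 (io X))) ^ 2 - io X - x8 (io X) =
        io (n8b al) / io (d8b al) := by
      rw [nd8b, fk8, d8_lam (io X) (io (C al)) (halk8 hal) (two_ne_K h2) (three_ne_K h3) Te8 Te8'
        hTx, d8_diff (io X) (io (C al)) (halk8 hal) (two_ne_K h2) (three_ne_K h3) Te8 Te8']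
    rw [hP]
    unfold pt
    rw [Point.add_of_X_ne hxx, ker_some, addX_eq hne, hval, map_div₀]
    have hn : (n8b al).eval (2 + al) ≠ 0 := by
      unfold n8b
      simp only [eval_mul, eval_add, eval_sub, eval_X, eval_C, sub_self, mul_zero, zero_add]
      exact mul_ne_zero (al8_one hal h3) (al8_u hal h2 h3)
    have hd : (d8b al).eval (2 + al) = 0 := by
      unfold d8b
      simp
    rw [vx_eq _ hn, one_div]
    have hlt := (vx_lt _ _).mpr hd
    have hne' : vx (2 + al) (io (d8b al)) ≠ 0 :=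
      (Valuation.ne_zero_iff _).mpr (io_ne (d8b_ne h9))
    exact (one_lt_inv₀ (zero_lt_iff.mpr hne')).mpr hlt
  have hnear : Near (2 + al) S := by
    apply near_of h2 hΔ hK3 S (r + s)
    · intro h3r
      have : (3 : ℤ) ∣ p := by
        rw [hrs]
        obtain ⟨k, hk⟩ := h3r
        refine ⟨k * (r + s) - 2 * s * k + s ^ 2, ?_⟩
        linear_combination (r - s) * hk
      have h3p : 3 ∣ p := by exact_mod_cast this
      have := (Nat.prime_dvd_prime_iff_eq Nat.prime_three hp.out).mp h3p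
      omega
    · have hB : -A = pt h2 hΔ (neg_eqn heqA) := by rw [hA, pt_neg]
      have : S - (r + s) • P = (-s) • (P + pt h2 hΔ (neg_eqn heqA)) := grp3 P A _ r s hB
      rw [this]
      exact ker_zsmul _ (fun c => vx_C_le _ c) (fun c hc => vx_C _ hc) h2 hKA (-s)
  have hmain := split_main (c := (2 - 4 * al) / 3) hp5 t ht1 (by
      intro h
      have h' : 2 - 4 * al = 0 := by
        have := (div_eq_zero_iff.mp h).resolve_right h3
        exact this
      have : (36 : ℚ_[p]) = 0 := by linear_combination (2 + 4 * al) * h' + 16 * hal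
      norm_num at this) hfe
    (by linear_combination (-2 - 2 * al) * hal)
    (by linear_combination (-2 / 3 + 13 / 3 * al) * hal)
    (by rw [htq]; linear_combination (8 / 27 - 32 / 27 * al + 5 / 27 * al ^ 2) * hal) S hgS hhS
    hnear hπ
  exact split_fin hp5 t hm ((r : ℚ_[p]) + s * al) (r - s * al) hπ (by
      have : (p : ℚ_[p]) = r ^ 2 + 2 * s ^ 2 := by
        exact_mod_cast congrArg (Int.cast (R := ℚ_[p])) hrs
      rw [this]
      linear_combination (-(s : ℚ_[p]) ^ 2) * hal) (2 * r) (by push_cast; ring) hmain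

end

end Pool.Agent.U851.CM
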