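import Pool.Agent.U851.CM.Inert
import Pool.Agent.U851.CM.Split8

set_option autoImplicit false

/-!
# The inert case for the discriminants `-11` and `-8`
-/

namespace Pool.Agent.U851.CM

open Polynomial WeierstrassCurve WeierstrassCurve.Affine WithZero Pool.Agent.Q267.MW

noncomputable section

section gen

variable {F : Type*} [Field F]

theorem ode_of {a b π : F} {N D : F[X]} (hD : D ≠ 0) {X' Y : RatFunc F} (hX : X' = io N / io D)
    (he : io (fp a b) * Y ^ 2 = X' ^ 3 + io (C a) * X' + io (C b)) (hr : rd X' = io (C π) * Y) :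
    fp a b * (derivative N * D - N * derivative D) ^ 2 =
      C π ^ 2 * (D * (N ^ 3 + C a * N * D ^ 2 + C b * D ^ 3)) := by
  rw [hX] at he hr
  rw [rd_div _ _ hD] at hr
  have hdk := io_ne hD
  apply io_inj
  simp only [map_mul, map_pow, map_sub, map_add]
  have h1 : io (derivative N) * io D - io N * io (derivative D) = io (C π) * Y * io D ^ 2 := by
    rw [← hr]
    field_simp
  rw [h1]
  have h2 : io (fp a b) * (io (C π) * Y * io D ^ 2) ^ 2 =
      io (C π) ^ 2 * io D ^ 4 * (io (fp a b) * Y ^ 2) := by ring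
  rw [h2, he]
  field_simp

/-- vanishing of the truncated sum in characteristic `p` -/
theorem inert_At (p : ℕ) [hp : Fact p.Prime] [CharP F p] (hp2 : p ≠ 2) {a b e c t π : F}
    (hc : c ≠ 0) (hfe : e ^ 3 + a * e + b ≠ 0)
    (h1 : (3 * e ^ 2 + a) * c = -2 * (e ^ 3 + a * e + b))
    (h2 : 3 * e * c ^ 2 = e ^ 3 + a * e + b) (h3 : c ^ 3 = -4 * t * (e ^ 3 + a * e + b))
    (N D : F[X]) (ho : fp a b * (derivative N * D - N * derivative D) ^ 2 =
      C π ^ 2 * (D * (N ^ 3 + C a * N * D ^ 2 + C b * D ^ 3)))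
    (hev : N.eval e = e * D.eval e) (hDe : D.eval e ≠ 0) (hπ0 : π ≠ 0) (hπ : π ^ p ≠ π) :
    At p t = 0 := by
  have hL0 : (Lc e c).eval 0 = e := by
    unfold Lc
    simp
  have hb := inert_bb p hp2 t π (C c⁻¹ * ((N - C e * D).comp (Lc e c))) (D.comp (Lc e c))
    (by
      rw [coeff_zero_eq_eval_zero, eval_mul, eval_comp, hL0, eval_sub, eval_mul, eval_C, eval_C,
        hev]
      ring)
    (by
      rw [coeff_zero_eq_eval_zero, eval_comp, hL0]
      exact hDe) hπ0 hπ (ode_comp hc hfe h1 h2 h3 N D ho _ _ rfl rfl)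
  obtain ⟨w, hw⟩ := At_diff1 p t
  rw [hw, hb, CharP.cast_eq_zero]
  ring

end gen

variable {p : ℕ} [hp : Fact p.Prime]

theorem nz (K : Type*) [Field K] [CharP K p] (q : ℕ) (hq : q.Prime) (hne : p ≠ q) :
    ((q : ℕ) : K) ≠ 0 := by
  rw [Ne, CharP.cast_eq_zero_iff K p]
  exact fun h => hne ((Nat.prime_dvd_prime_iff_eq hp.out hq).mp h)

theorem pow_two_K (K : Type*) [Field K] [CharP K p] : (2 : K) ^ p = 2 := by
  have h1 := ZMod.pow_card (2 : ZMod p)
  have h2 := congrArg (ZMod.castHom (dvd_refl p) K) h1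
  rw [map_pow, map_ofNat] at h2
  exact h2

theorem sq_pow (hp2 : p ≠ 2) {K : Type*} [Field K] [CharP K p] (s d : K) (hs : s ^ 2 = d)
    (hE : d ^ (p / 2) = -1) : s ^ p = -s := by
  obtain ⟨k, hk⟩ := hp.out.odd_of_ne_two hp2
  have e1 : p / 2 = k := by omega
  rw [e1] at hE
  calc s ^ p = s ^ (2 * k + 1) := by congr 1
    _ = (s ^ 2) ^ k * s := by rw [pow_succ, pow_mul]
    _ = -s := by rw [hs, hE]; ring

theorem inert11_K (hp5 : 5 ≤ p) (hp11 : p ≠ 11) (K : Type*) [Field K] [CharP K p] (s : K)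
    (hs : s ^ 2 = -11) (hE : (-11 : K) ^ (p / 2) = -1) :
    ‖((Sm p 64 : ℚ) : ℚ_[p])‖ ≤ ep p ^ 2 := by
  have h2 : (2 : K) ≠ 0 := by exact_mod_cast nz K 2 Nat.prime_two (by omega)
  have h3 : (3 : K) ≠ 0 := by exact_mod_cast nz K 3 Nat.prime_three (by omega)
  have h11 : (11 : K) ≠ 0 := by exact_mod_cast nz K 11 (by norm_num) hp11
  have hsp : s ^ p = -s := sq_pow (by omega) s (-11) hs hE
  obtain ⟨al, h2al⟩ : ∃ al : K, 2 * al = 1 + s := ⟨(1 + s) / 2, by field_simp⟩
  have hal : al ^ 2 = al - 3 := by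
    have h4 : (4 : K) ≠ 0 := by
      have : (4 : K) = 2 ^ 2 := by norm_num
      rw [this]; exact pow_ne_zero _ h2
    apply mul_left_cancel₀ h4
    linear_combination (2 * al + 1 + s - 2) * h2al + hs
  have h2p : (2 : K) ^ p = 2 := pow_two_K K
  have halp : al ^ p = 1 - al := by
    have e1 : (2 * al) ^ p = (1 + s) ^ p := by rw [h2al]
    rw [mul_pow, h2p, add_pow_char, one_pow, hsp] at e1
    apply mul_left_cancel₀ h2
    linear_combination e1 + h2al
  have hne : (1 : K) - al ≠ al := by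
    intro h
    have hs0 : s = 0 := by linear_combination -h - h2al
    rw [hs0] at hs
    apply h11
    linear_combination hs
  have hal' : (1 - al) ^ 2 = (1 - al) - 3 := by linear_combination hal
  have h9 := (pow3_ne h3).1
  have h216 : (216 : K) ≠ 0 := by
    have : (216 : K) = 2 ^ 3 * 3 ^ 3 := by norm_num
    rw [this]; exact mul_ne_zero (pow_ne_zero _ h2) (pow_ne_zero _ h3)
  have hΔ := hΔ11 (F := K) h2 h3 h11
  have hg := goodA11 hal' h2 h3 h11
  unfold pt at hg
  rw [good_some, pt_X, pt_Y] at hg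
  obtain ⟨-, hr⟩ := hg
  have ho := ode_of (d11_ne (al := 1 - al) h9) (nd11 (1 - al)).symm (eqA11 hal' h3) hr
  have hfe' : (12 - 2 * al) ^ 3 + (-264) * (12 - 2 * al) + 1694 = -154 - 176 * al := by
    linear_combination (-8 * al + 136) * hal
  have hfe : (12 - 2 * al) ^ 3 + (-264) * (12 - 2 * al) + 1694 ≠ 0 := by
    rw [hfe']
    intro h
    have h6534 : (6534 : K) = 0 := by
      linear_combination (-(15 - 8 * al)) * h + 1408 * hal
    have : (6534 : K) = 2 * 3 ^ 3 * 11 ^ 2 := by norm_num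
    rw [this] at h6534
    exact mul_ne_zero (mul_ne_zero h2 (pow_ne_zero _ h3)) (pow_ne_zero _ h11) h6534
  have hAt : At p ((5 - 2 * al) / 216) = 0 := by
    apply inert_At p (by omega) (a := -264) (b := 1694) (e := 12 - 2 * al) (c := (5 * al - 8) / 3)
      (π := 1 - al) _ hfe _ _ _ (n11 (1 - al)) (d11 (1 - al)) ho
    · unfold n11 d11
      simp only [eval_mul, eval_add, eval_sub, eval_X, eval_C, eval_pow]
      linear_combination (1128 - 480 * al - 32 * al ^ 2) * hal
    · unfold d11
      simp only [eval_mul, eval_sub, eval_X, eval_C, eval_pow]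
      intro h
      have h396 : (396 : K) = 0 := by linear_combination -h + 144 * hal
      have : (396 : K) = 2 ^ 2 * 3 ^ 2 * 11 := by norm_num
      rw [this] at h396
      exact mul_ne_zero (mul_ne_zero (pow_ne_zero _ h2) (pow_ne_zero _ h3)) h11 h396
    · intro h
      apply h3
      linear_combination al * h + hal
    · rw [sub_pow_char, one_pow, halp]
      intro h
      apply hne
      linear_combination -h
    · intro h
      have h' : 5 * al - 8 = 0 := (div_eq_zero_iff.mp h).resolve_right h3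
      have h99 : (99 : K) = 0 := by linear_combination (-(5 * al + 3)) * h' + 25 * hal
      have : (99 : K) = 3 ^ 2 * 11 := by norm_num
      rw [this] at h99
      exact mul_ne_zero (pow_ne_zero _ h3) h11 h99
    · field_simp
      linear_combination 3 * (20 + 4 * al) * hal
    · field_simp
      linear_combination (2 - 26 * al) * hal
    · field_simp
      linear_combination 216 * (41 - 31 * al + 8 * al ^ 2) * hal
  obtain ⟨u, hu⟩ := unit_nat hp5 3 3
  obtain ⟨x, hx⟩ := unit_nat hp5 6 0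
  have hu' : ((216 : ℕ) : ℤ_[p]) * u = 1 := by norm_num at hu ⊢; exact hu
  have hx' : ((64 : ℕ) : ℤ_[p]) * x = 1 := by norm_num at hx ⊢; exact hx
  refine inert_fin hp5 (-3) 1 al (by push_cast; linear_combination hal)
    (by rw [halp]; exact hne) 5 (-2) 216 (216 : K)⁻¹
    (by push_cast; exact mul_inv_cancel₀ h216) (by
      push_cast
      rw [← hAt]
      congr 1
      ring) u hu' 64 x hx' ?_
  intro R _ ι w hw2
  have huR : (216 : R) * ι u = 1 := by
    have := congrArg ι hu'
    rw [map_mul, map_one, map_natCast] at this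
    exact_mod_cast this
  have hxR : (64 : R) * ι x = 1 := by
    have := congrArg ι hx'
    rw [map_mul, map_one, map_natCast] at this
    exact_mod_cast this
  push_cast at hw2 ⊢
  linear_combination (ι x * (216 * ι u + 1) - (5 - 2 * w) * ι u) * huR - 729 * ι u ^ 2 * hxR
    - 108 * ι u ^ 2 * hw2

theorem inert8_K (hp5 : 5 ≤ p) (K : Type*) [Field K] [CharP K p] (al : K)
    (hal : al ^ 2 = -2) (hE : (-2 : K) ^ (p / 2) = -1) :
    ‖((Sm p 8 : ℚ) : ℚ_[p])‖ ≤ ep p ^ 2 := by
  have h2 : (2 : K) ≠ 0 := by exact_mod_cast nz K 2 Nat.prime_two (by omega)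
  have h3 : (3 : K) ≠ 0 := by exact_mod_cast nz K 3 Nat.prime_three (by omega)
  have halp : al ^ p = -al := sq_pow (by omega) al (-2) hal hE
  have hal0 : al ≠ 0 := by
    intro h
    rw [h] at hal
    apply h2
    linear_combination hal
  have hne : -al ≠ al := by
    intro h
    have : 2 * al = 0 := by linear_combination -h
    exact mul_ne_zero h2 hal0 this
  have h108 : (108 : K) ≠ 0 := by
    have : (108 : K) = 2 ^ 2 * 3 ^ 3 := by norm_num
    rw [this]; exact mul_ne_zero (pow_ne_zero _ h2) (pow_ne_zero _ h3)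
  have hΔ := hΔ8 (F := K) h2 h3
  have hg := goodA8 hal h2 h3
  unfold pt at hg
  rw [good_some, pt_X, pt_Y] at hg
  obtain ⟨-, hr⟩ := hg
  have ho := ode_of (d8_ne h2) nd8.symm (eqA8 hal h2) hr
  have hfe' : (2 + al) ^ 3 + (-30) * (2 + al) + 56 = -8 - 20 * al := by
    linear_combination (6 + al) * hal
  have hfe : (2 + al) ^ 3 + (-30) * (2 + al) + 56 ≠ 0 := by
    rw [hfe']
    intro h
    have h216 : (216 : K) = 0 := by
      linear_combination (-(2 - 5 * al)) * h + 100 * hal
    have : (216 : K) = 2 ^ 3 * 3 ^ 3 := by norm_num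
    rw [this] at h216
    exact mul_ne_zero (pow_ne_zero _ h2) (pow_ne_zero _ h3) h216
  have hAt : At p ((2 + 5 * al) / 108) = 0 := by
    apply inert_At p (by omega) (a := -30) (b := 56) (e := 2 + al) (c := (2 - 4 * al) / 3)
      (π := al) _ hfe _ _ _ n8 d8 ho
    · unfold n8 d8
      simp only [eval_mul, eval_add, eval_sub, eval_X, eval_C]
      linear_combination (-3 : K) * hal
    · unfold d8
      simp only [eval_mul, eval_sub, eval_X, eval_C]
      intro h
      have h12 : (12 : K) = 0 := by linear_combination -(al + 2) * h + 2 * hal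
      have : (12 : K) = 2 ^ 2 * 3 := by norm_num
      rw [this] at h12
      exact mul_ne_zero (pow_ne_zero _ h2) h3 h12
    · exact hal0
    · rw [halp]; exact hne
    · intro h
      have h' : 2 - 4 * al = 0 := (div_eq_zero_iff.mp h).resolve_right h3
      have h36 : (36 : K) = 0 := by linear_combination (2 + 4 * al) * h' + 16 * hal
      have : (36 : K) = 2 ^ 2 * 3 ^ 2 := by norm_num
      rw [this] at h36
      exact mul_ne_zero (pow_ne_zero _ h2) (pow_ne_zero _ h3) h36
    · field_simp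
      linear_combination 3 * (-2 - 2 * al) * hal
    · field_simp
      linear_combination (-2 + 13 * al) * hal
    · field_simp
      linear_combination 108 * (8 - 32 * al + 5 * al ^ 2) * hal
  obtain ⟨u, hu⟩ := unit_nat hp5 2 3
  obtain ⟨x, hx⟩ := unit_nat hp5 3 0
  have hu' : ((108 : ℕ) : ℤ_[p]) * u = 1 := by norm_num at hu ⊢; exact hu
  have hx' : ((8 : ℕ) : ℤ_[p]) * x = 1 := by norm_num at hx ⊢; exact hx
  refine inert_fin hp5 (-2) 0 al (by push_cast; linear_combination hal)
    (by rw [halp]; exact hne) 2 5 108 (108 : K)⁻¹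
    (by push_cast; exact mul_inv_cancel₀ h108) (by
      push_cast
      rw [← hAt]
      congr 1
      ring) u hu' 8 x hx' ?_
  intro R _ ι w hw2
  have huR : (108 : R) * ι u = 1 := by
    have := congrArg ι hu'
    rw [map_mul, map_one, map_natCast] at this
    exact_mod_cast this
  have hxR : (8 : R) * ι x = 1 := by
    have := congrArg ι hx'
    rw [map_mul, map_one, map_natCast] at this
    exact_mod_cast this
  push_cast at hw2 ⊢
  linear_combination (ι x * (108 * ι u + 1) - (2 + 5 * w) * ι u) * huR - 1458 * ι u ^ 2 * hxR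
    - 675 * ι u ^ 2 * hw2

theorem inert11 (hp5 : 5 ≤ p) (hp11 : p ≠ 11) (hE : (-11 : ZMod p) ^ (p / 2) = -1) :
    ‖((Sm p 64 : ℚ) : ℚ_[p])‖ ≤ ep p ^ 2 := by
  obtain ⟨s, hs⟩ := IsAlgClosed.exists_pow_nat_eq (-11 : AlgebraicClosure (ZMod p)) (n := 2)
    (by norm_num)
  refine inert11_K hp5 hp11 (AlgebraicClosure (ZMod p)) s hs ?_
  have := congrArg (algebraMap (ZMod p) (AlgebraicClosure (ZMod p))) hE
  rw [map_pow, map_neg, map_neg, map_one, map_ofNat] at this
  exact this

theorem inert8 (hp5 : 5 ≤ p) (hE : (-2 : ZMod p) ^ (p / 2) = -1) :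
    ‖((Sm p 8 : ℚ) : ℚ_[p])‖ ≤ ep p ^ 2 := by
  obtain ⟨s, hs⟩ := IsAlgClosed.exists_pow_nat_eq (-2 : AlgebraicClosure (ZMod p)) (n := 2)
    (by norm_num)
  refine inert8_K hp5 (AlgebraicClosure (ZMod p)) s hs ?_
  have := congrArg (algebraMap (ZMod p) (AlgebraicClosure (ZMod p))) hE
  rw [map_pow, map_neg, map_neg, map_one, map_ofNat] at this
  exact this

end

end Pool.Agent.U851.CM
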