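import Pool.Agent.U851.CM.Diff
import Pool.Agent.Q267.Seven.Legendre

set_option autoImplicit false

/-!
# Clausen's identity for the truncated sums, modulo `p^2`
-/

namespace Pool.Agent.U851.CM

open Finset Polynomial Pool.Agent.Q267.Seven

theorem cc_fact (k : ℕ) : cc k * k.factorial ^ 3 = (3 * k).factorial := by
  have h2 : (2 * k).choose k * k.factorial * k.factorial = (2 * k).factorial := by
    have := Nat.choose_mul_factorial_mul_factorial (show k ≤ 2 * k by omega)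
    rwa [show 2 * k - k = k by omega] at this
  have h3 : (3 * k).choose k * k.factorial * (2 * k).factorial = (3 * k).factorial := by
    have := Nat.choose_mul_factorial_mul_factorial (show k ≤ 3 * k by omega)
    rwa [show 3 * k - k = 2 * k by omega] at this
  unfold cc
  rw [← h3, ← h2]
  ring

theorem cc_succ (k : ℕ) : (cc (k + 1) : ℤ) * ((k : ℤ) + 1) ^ 2 =
    3 * (3 * k + 1) * (3 * k + 2) * cc k := by
  have h1 := cc_fact k
  have h2 := cc_fact (k + 1)
  rw [show 3 * (k + 1) = 3 * k + 2 + 1 by ring, Nat.factorial_succ, Nat.factorial_succ,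
    Nat.factorial_succ, Nat.factorial_succ, ← h1] at h2
  have hf : ((k.factorial : ℕ) : ℤ) ≠ 0 := by exact_mod_cast k.factorial_ne_zero
  have hk : ((k : ℤ) + 1) ≠ 0 := by positivity
  apply mul_left_cancel₀ (mul_ne_zero hk (pow_ne_zero 3 hf))
  have h3 := congrArg (Nat.cast (R := ℤ)) h2
  push_cast at h3
  linear_combination h3

variable (p : ℕ) [hp : Fact p.Prime]

include hp in
theorem cop_pow (j : ℕ) (hj : j < p) (hj0 : 0 < j) (n : ℕ) (a : ℤ)
    (h : (p : ℤ) ^ n ∣ a * (j : ℤ) ^ 2) : (p : ℤ) ^ n ∣ a := by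
  refine IsCoprime.dvd_of_dvd_mul_right ?_ h
  refine IsCoprime.pow ?_
  rw [Nat.isCoprime_iff_coprime]
  exact (Nat.Prime.coprime_iff_not_dvd hp.out).mpr fun h' =>
    absurd (Nat.le_of_dvd hj0 h') (by omega)

include hp in
theorem dl_cc (m : ℕ) (hm : 3 * m + 1 = p ^ 2) (k : ℕ) (hk : k < p) :
    (p : ℤ) ^ 2 ∣ 27 ^ k * dl m k - cc k := by
  induction k with
  | zero =>
    unfold dl cc
    simp
  | succ k ih =>
    obtain ⟨u, hu⟩ := ih (by omega)
    apply cop_pow p (k + 1) hk (by omega)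
    have h1 := dl_succ m k
    have h2 := cc_succ k
    have h3 : (3 * (m : ℤ) + 1) = (p : ℤ) ^ 2 := by exact_mod_cast hm
    refine ⟨27 * ((k : ℤ) ^ 2 + k - m * (m + 1)) * u - 3 * ((p : ℤ) ^ 2 + 1) * cc k, ?_⟩
    push_cast
    rw [pow_succ]
    linear_combination (27 * 27 ^ k) * h1 - h2 + 27 * ((k : ℤ) ^ 2 + k - m * (m + 1)) * hu -
      3 * (cc k : ℤ) * (3 * m + 2 + (p : ℤ) ^ 2) * h3

include hp in
theorem cc_dvd1 (k : ℕ) (hk : k < p) (h : p ≤ 3 * k) : (p : ℤ) ∣ cc k := by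
  have h1 : p ∣ cc k * k.factorial ^ 3 := by
    rw [cc_fact]; exact (Nat.Prime.dvd_factorial hp.out).mpr h
  have h2 : ¬ p ∣ k.factorial ^ 3 := fun h' =>
    absurd ((Nat.Prime.dvd_factorial hp.out).mp (hp.out.dvd_of_dvd_pow h')) (by omega)
  exact_mod_cast ((Nat.Prime.dvd_mul hp.out).mp h1).resolve_right h2

include hp in
theorem cc_dvd2 (k : ℕ) (hk : k < p) (h : 2 * p ≤ 3 * k) : (p : ℤ) ^ 2 ∣ cc k := by
  have hp1 := hp.out.one_lt
  have h0 : p ^ 2 ∣ (2 * p).factorial := by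
    obtain ⟨q, hq⟩ : ∃ q, 2 * p = q + 1 := ⟨2 * p - 1, by omega⟩
    rw [hq, Nat.factorial_succ, ← hq, pow_two]
    refine mul_dvd_mul (dvd_mul_left p 2) ?_
    exact (Nat.Prime.dvd_factorial hp.out).mpr (by omega)
  have h1 : p ^ 2 ∣ cc k * k.factorial ^ 3 := by
    rw [cc_fact]
    exact h0.trans (Nat.factorial_dvd_factorial h)
  have h2 : Nat.Coprime (p ^ 2) (k.factorial ^ 3) := by
    apply Nat.Coprime.pow
    exact (Nat.Prime.coprime_iff_not_dvd hp.out).mpr fun h' =>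
      absurd ((Nat.Prime.dvd_factorial hp.out).mp h') (by omega)
  exact_mod_cast h2.dvd_of_dvd_mul_right h1

include hp in
theorem cb_dvd (k : ℕ) (hk : k < p) (h : p ≤ 2 * k) : (p : ℤ) ∣ k.centralBinom := by
  have h0 := Nat.centralBinom_eq_two_mul_choose k
  have h2 : (2 * k).choose k * k.factorial * k.factorial = (2 * k).factorial := by
    have := Nat.choose_mul_factorial_mul_factorial (show k ≤ 2 * k by omega)
    rwa [show 2 * k - k = k by omega] at this
  have h1 : p ∣ (2 * k).choose k * k.factorial * k.factorial := by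
    rw [h2]; exact (Nat.Prime.dvd_factorial hp.out).mpr h
  have h3 : ¬ p ∣ k.factorial := fun h' =>
    absurd ((Nat.Prime.dvd_factorial hp.out).mp h') (by omega)
  have h4 := ((Nat.Prime.dvd_mul hp.out).mp (((Nat.Prime.dvd_mul hp.out).mp h1).resolve_right
    h3)).resolve_right h3
  rw [h0]
  exact_mod_cast h4

/-- the truncated sum as a polynomial -/
noncomputable def Ap : ℤ[X] := ∑ k ∈ range p, (cc k : ℤ[X]) * X ^ k

/-- the sum on the other side -/
noncomputable def Sp : ℤ[X] :=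
  ∑ k ∈ range p, (cc k : ℤ[X]) * (k.centralBinom : ℤ[X]) * (X * (1 - 27 * X)) ^ k

theorem Ap_coeff (n : ℕ) : (Ap p).coeff n = if n < p then (cc n : ℤ) else 0 := by
  unfold Ap
  rw [finsetSum_coeff]
  have : ∀ k, ((cc k : ℤ[X]) * X ^ k).coeff n = if n = k then (cc k : ℤ) else 0 := by
    intro k
    have e : (cc k : ℤ[X]) = C (cc k : ℤ) := by simp
    rw [e, coeff_C_mul_X_pow]
  simp only [this]
  rw [sum_ite_eq]
  simp [mem_range]

include hp in
theorem Ap_sq_high (n : ℕ) (hn : p ≤ n) : (p : ℤ) ^ 2 ∣ ((Ap p) ^ 2).coeff n := by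
  rw [pow_two (Ap p), coeff_mul]
  apply dvd_sum
  intro x hx
  rw [HasAntidiagonal.mem_antidiagonal] at hx
  rw [Ap_coeff, Ap_coeff]
  split_ifs with h1 h2
  · by_cases c1 : p ≤ 3 * x.1
    · by_cases c2 : p ≤ 3 * x.2
      · rw [pow_two]
        exact mul_dvd_mul (cc_dvd1 p _ h1 c1) (cc_dvd1 p _ h2 c2)
      · exact (cc_dvd2 p _ h1 (by omega)).mul_right _
    · exact (cc_dvd2 p _ h2 (by omega)).mul_left _
  · simp
  · simp
  · simp

include hp in
theorem Sp_high (n : ℕ) (hn : p ≤ n) : (p : ℤ) ^ 2 ∣ (Sp p).coeff n := by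
  unfold Sp
  rw [finsetSum_coeff]
  apply dvd_sum
  intro k hk
  rw [mem_range] at hk
  have e : (cc k : ℤ[X]) * (k.centralBinom : ℤ[X]) = C ((cc k : ℤ) * (k.centralBinom : ℤ)) := by
    simp
  rw [e, coeff_C_mul]
  by_cases h : p ≤ 2 * k
  · refine Dvd.dvd.mul_right ?_ _
    rw [pow_two]
    exact mul_dvd_mul (cc_dvd1 p _ hk (by omega)) (cb_dvd p _ hk h)
  · have : ((X * (1 - 27 * X) : ℤ[X]) ^ k).coeff n = 0 := by
      apply coeff_eq_zero_of_natDegree_lt
      have h1 : (X * (1 - 27 * X) : ℤ[X]).natDegree ≤ 2 := by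
        have : (X * (1 - 27 * X) : ℤ[X]) = C (-27) * X ^ 2 + C 1 * X + C 0 := by
          simp only [map_neg, map_ofNat, map_one, map_zero]
          ring
        rw [this]
        exact natDegree_quadratic_le
      have h2 := natDegree_pow_le (p := (X * (1 - 27 * X) : ℤ[X])) (n := k)
      have : k * (X * (1 - 27 * X) : ℤ[X]).natDegree ≤ k * 2 := Nat.mul_le_mul_left _ h1
      omega
    rw [this, mul_zero]
    exact dvd_zero _

include hp in
theorem low_part (hp5 : 5 ≤ p) : ∃ U V : ℤ[X],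
    (Ap p) ^ 2 - Sp p = (p : ℤ[X]) ^ 2 * U + X ^ p * V := by
  have hp3 : ¬ 3 ∣ p := fun h => by
    have := (Nat.prime_dvd_prime_iff_eq Nat.prime_three hp.out).mp h
    omega
  obtain ⟨m, hm⟩ : ∃ m, 3 * m + 1 = p ^ 2 := by
    have : p ^ 2 % 3 = 1 := by
      have h : p % 3 = 1 ∨ p % 3 = 2 := by omega
      rcases h with h | h <;> rw [Nat.pow_mod, h]
    exact ⟨p ^ 2 / 3, by omega⟩
  have hmp : p ≤ m := by nlinarith
  obtain ⟨q, hq⟩ : ∃ q, m + 1 = p + q := ⟨m + 1 - p, by omega⟩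
  have h := legendre_sq_ring m (27 * X : ℤ[X])
  -- rewrite both sides
  choose! u hu using fun k => dl_cc p m hm k
  have hu' : ∀ k < p, (dl m k : ℤ[X]) * 27 ^ k = cc k + (p : ℤ[X]) ^ 2 * (u k : ℤ[X]) := by
    intro k hk
    have := congrArg (Int.cast (R := ℤ[X])) (hu k hk)
    push_cast at this
    linear_combination this
  have hL : ∃ U V : ℤ[X], ∑ k ∈ range (m + 1), (dl m k : ℤ[X]) * (27 * X) ^ k =
      Ap p + (p : ℤ[X]) ^ 2 * U + X ^ p * V := by
    refine ⟨∑ k ∈ range p, (u k : ℤ[X]) * X ^ k,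
      ∑ k ∈ range q, (dl m (p + k) : ℤ[X]) * 27 ^ (p + k) * X ^ k, ?_⟩
    rw [hq, sum_range_add]
    congr 1
    · unfold Ap
      rw [mul_sum, ← sum_add_distrib]
      refine sum_congr rfl fun k hk => ?_
      have := hu' k (mem_range.mp hk)
      rw [mul_pow]
      linear_combination X ^ k * this
    · rw [mul_sum]
      refine sum_congr rfl fun k _ => ?_
      rw [mul_pow, pow_add X p k]
      ring
  have hR : ∃ U V : ℤ[X], ∑ k ∈ range (m + 1), (dl m k : ℤ[X]) * (k.centralBinom : ℤ[X]) *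
      (27 * X * (1 - 27 * X)) ^ k = Sp p + (p : ℤ[X]) ^ 2 * U + X ^ p * V := by
    refine ⟨∑ k ∈ range p, (u k : ℤ[X]) * (k.centralBinom : ℤ[X]) * (X * (1 - 27 * X)) ^ k,
      ∑ k ∈ range q, (dl m (p + k) : ℤ[X]) * ((p + k).centralBinom : ℤ[X]) * 27 ^ (p + k) *
        X ^ k * (1 - 27 * X) ^ (p + k), ?_⟩
    rw [hq, sum_range_add]
    congr 1
    · unfold Sp
      rw [mul_sum, ← sum_add_distrib]
      refine sum_congr rfl fun k hk => ?_
      have := hu' k (mem_range.mp hk)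
      rw [mul_assoc (27 : ℤ[X]), mul_pow (27 : ℤ[X])]
      linear_combination (k.centralBinom : ℤ[X]) * (X * (1 - 27 * X)) ^ k * this
    · rw [mul_sum]
      refine sum_congr rfl fun k _ => ?_
      rw [mul_pow, mul_pow, pow_add X p k]
      ring
  obtain ⟨U1, V1, e1⟩ := hL
  obtain ⟨U2, V2, e2⟩ := hR
  rw [e1, e2] at h
  refine ⟨U2 - (2 * Ap p * U1 + (p : ℤ[X]) ^ 2 * U1 ^ 2 + 2 * U1 * X ^ p * V1),
    V2 - (2 * Ap p * V1 + X ^ p * V1 ^ 2), ?_⟩
  linear_combination h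

include hp in
theorem clausen_poly (hp5 : 5 ≤ p) : (C ((p : ℤ) ^ 2) : ℤ[X]) ∣ (Ap p) ^ 2 - Sp p := by
  rw [C_dvd_iff_dvd_coeff]
  intro n
  rcases Nat.lt_or_ge n p with h | h
  · obtain ⟨U, V, e⟩ := low_part p hp5
    rw [e, coeff_add]
    have h1 : (X ^ p * V).coeff n = 0 := by
      rw [coeff_X_pow_mul', if_neg (by omega)]
    have h2 : ((p : ℤ[X]) ^ 2) = C ((p : ℤ) ^ 2) := by simp
    rw [h1, add_zero, h2, coeff_C_mul]
    exact dvd_mul_right _ _
  · rw [coeff_sub]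
    exact dvd_sub (Ap_sq_high p n h) (Sp_high p n h)

include hp in
/-- **Clausen's identity modulo `p²`.** -/
theorem clausen (hp5 : 5 ≤ p) {R : Type*} [CommRing R] (x : R) : ∃ w : R,
    (At p x) ^ 2 = ∑ k ∈ range p, (cc k : R) * (k.centralBinom : R) * (x * (1 - 27 * x)) ^ k +
      (p : R) ^ 2 * w := by
  obtain ⟨W, hW⟩ := clausen_poly p hp5
  have h := congrArg (aeval x) hW
  unfold Ap Sp at h
  simp only [map_sub, map_pow, map_sum, map_mul, map_natCast, aeval_X, map_one, map_ofNat] at h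
  refine ⟨aeval x W, ?_⟩
  unfold At
  linear_combination h

end Pool.Agent.U851.CM
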