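import Pool.Agent.U851.CM.Ser

set_option autoImplicit false

/-!
# A second difference
-/

namespace Pool.Agent.U851.CM

open Finset

/-- the coefficient `(3k)!/k!^3` -/
def cc (k : ℕ) : ℕ := (2 * k).choose k * (3 * k).choose k

/-- the polynomial interpolating both -/
noncomputable def Pj (j : ℕ) : Polynomial ℤ :=
  (descPochhammer ℤ (2 * j)).comp (Polynomial.X - Polynomial.C ((j : ℤ) + 1))

theorem Pj_eval (j : ℕ) (x : ℤ) : (Pj j).eval x = (descPochhammer ℤ (2 * j)).eval (x - (j + 1)) := by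
  unfold Pj
  rw [Polynomial.eval_comp, Polynomial.eval_sub, Polynomial.eval_X, Polynomial.eval_C]

theorem Pj_cf (m j : ℕ) (h : j ≤ m) : (Pj j).eval ((m : ℤ) + 1) =
    ((j.factorial : ℕ) : ℤ) ^ 2 * (cf m j : ℕ) := by
  rw [Pj_eval]
  have e : (m : ℤ) + 1 - (j + 1) = ((m - j : ℕ) : ℤ) := by
    rw [Nat.cast_sub h]; ring
  rw [e, descPochhammer_eval_eq_descFactorial, Nat.descFactorial_eq_factorial_mul_choose]
  unfold cf
  have h2 : (2 * j).choose j * j.factorial * j.factorial = (2 * j).factorial := by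
    have := Nat.choose_mul_factorial_mul_factorial (show j ≤ 2 * j by omega)
    rwa [show 2 * j - j = j by omega] at this
  rw [← h2]
  push_cast
  ring

theorem Pj_zero (j : ℕ) : (Pj j).eval 0 = ((j.factorial : ℕ) : ℤ) ^ 2 * (cc j : ℕ) := by
  rw [Pj_eval, descPochhammer_eval_eq_prod_range]
  have e : ∏ i ∈ range (2 * j), ((0 : ℤ) - (j + 1) - i) = ((j + 1).ascFactorial (2 * j) : ℕ) := by
    rw [Nat.ascFactorial_eq_prod_range]
    push_cast
    have : ∏ i ∈ range (2 * j), ((0 : ℤ) - (j + 1) - i) =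
        ∏ i ∈ range (2 * j), ((-1) * ((j : ℤ) + 1 + i)) :=
      prod_congr rfl fun i _ => by ring
    rw [this, prod_mul_distrib, prod_const, card_range, pow_mul]
    norm_num
  rw [e]
  have h1 := Nat.factorial_mul_ascFactorial j (2 * j)
  have h2 : (2 * j).choose j * j.factorial * j.factorial = (2 * j).factorial := by
    have := Nat.choose_mul_factorial_mul_factorial (show j ≤ 2 * j by omega)
    rwa [show 2 * j - j = j by omega] at this
  have h3 : (3 * j).choose j * j.factorial * (2 * j).factorial = (3 * j).factorial := by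
    have := Nat.choose_mul_factorial_mul_factorial (show j ≤ 3 * j by omega)
    rwa [show 3 * j - j = 2 * j by omega] at this
  rw [show j + 2 * j = 3 * j by ring, ← h3, ← h2] at h1
  have hf : ((j.factorial : ℕ) : ℤ) ≠ 0 := by exact_mod_cast j.factorial_ne_zero
  apply mul_left_cancel₀ hf
  unfold cc
  have h4 := congrArg (Nat.cast (R := ℤ)) h1
  push_cast at h4 ⊢
  linear_combination h4

theorem second_diff (P : Polynomial ℤ) (p : ℤ) :
    p ^ 2 ∣ P.eval 0 - 2 * P.eval p + P.eval (2 * p) := by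
  obtain ⟨k1, h1⟩ := P.binomExpansion 0 p
  obtain ⟨k2, h2⟩ := P.binomExpansion 0 (2 * p)
  rw [zero_add] at h1 h2
  exact ⟨4 * k2 - 2 * k1, by rw [h1, h2]; ring⟩

theorem first_diff (P : Polynomial ℤ) (x y : ℤ) : y - x ∣ P.eval y - P.eval x :=
  Polynomial.sub_dvd_eval_sub y x P

section prime

variable (p : ℕ) [hp : Fact p.Prime]

include hp in
theorem cop_fact (j : ℕ) (hj : j < p) (n : ℕ) (a : ℤ)
    (h : (p : ℤ) ^ n ∣ ((j.factorial : ℕ) : ℤ) ^ 2 * a) : (p : ℤ) ^ n ∣ a := by
  refine IsCoprime.dvd_of_dvd_mul_left ?_ h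
  refine IsCoprime.pow ?_
  rw [Nat.isCoprime_iff_coprime]
  exact (Nat.Prime.coprime_iff_not_dvd hp.out).mpr fun h' =>
    absurd ((Nat.Prime.dvd_factorial hp.out).mp h') (by omega)

include hp in
theorem cc_diff (j : ℕ) (hj : j < p) :
    (p : ℤ) ^ 2 ∣ (cc j : ℤ) - 2 * cf (p - 1) j + cf (2 * p - 1) j := by
  have hp1 := hp.out.one_lt
  apply cop_fact p j hj
  have h := second_diff (Pj j) p
  have e1 := Pj_cf (p - 1) j (by omega)
  have e2 := Pj_cf (2 * p - 1) j (by omega)
  rw [Nat.cast_sub hp1.le] at e1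
  rw [Nat.cast_sub (by omega)] at e2
  push_cast at e1 e2
  rw [sub_add_cancel] at e1 e2
  rw [Pj_zero, e1, e2] at h
  have : ((j.factorial : ℕ) : ℤ) ^ 2 * ((cc j : ℤ) - 2 * cf (p - 1) j + cf (2 * p - 1) j) =
      ((j.factorial : ℕ) : ℤ) ^ 2 * (cc j : ℕ) - 2 * (((j.factorial : ℕ) : ℤ) ^ 2 * (cf (p - 1) j : ℕ)) +
      ((j.factorial : ℕ) : ℤ) ^ 2 * (cf (2 * p - 1) j : ℕ) := by ring
  rw [this]
  exact h

include hp in
theorem cc_diff1 (j : ℕ) (hj : j < p) : (p : ℤ) ∣ (cc j : ℤ) - cf (p - 1) j := by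
  have hp1 := hp.out.one_lt
  have h0 := cop_fact p j hj 1 ((cc j : ℤ) - cf (p - 1) j)
  rw [pow_one] at h0
  apply h0
  have h := first_diff (Pj j) p 0
  have e1 := Pj_cf (p - 1) j (by omega)
  rw [Nat.cast_sub hp1.le] at e1
  push_cast at e1
  rw [sub_add_cancel] at e1
  rw [Pj_zero, e1, zero_sub] at h
  have h' := (neg_dvd).mp h
  rw [mul_sub]
  exact h'

include hp in
theorem cc_diff2 (j : ℕ) (hj : j < p) : (p : ℤ) ∣ (cf (p - 1) j : ℤ) - cf (2 * p - 1) j := by
  have hp1 := hp.out.one_lt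
  have h0 := cop_fact p j hj 1 ((cf (p - 1) j : ℤ) - cf (2 * p - 1) j)
  rw [pow_one] at h0
  apply h0
  have h := first_diff (Pj j) (2 * p) p
  have e1 := Pj_cf (p - 1) j (by omega)
  have e2 := Pj_cf (2 * p - 1) j (by omega)
  rw [Nat.cast_sub hp1.le] at e1
  rw [Nat.cast_sub (by omega)] at e2
  push_cast at e1 e2
  rw [sub_add_cancel] at e1 e2
  rw [e1, e2] at h
  have h' : (p : ℤ) - 2 * p = -p := by ring
  rw [h', neg_dvd] at h
  rw [mul_sub]
  exact h

variable {R : Type*} [CommRing R] (t : R)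

/-- the truncated hypergeometric sum -/
def At : R := ∑ k ∈ range p, (cc k : R) * t ^ k

include hp in
theorem bb_p : bb t (p - 1) = ∑ k ∈ range p, (cf (p - 1) k : R) * t ^ k := by
  rw [bb_ext t (p - 1) p (by have := hp.out.one_lt; omega)]

include hp in
theorem bb_2p : bb t (2 * p - 1) = ∑ k ∈ range p, (cf (2 * p - 1) k : R) * t ^ k := by
  have hp1 := hp.out.one_lt
  unfold bb
  symm
  apply sum_subset
  · intro x hx
    rw [mem_range] at hx ⊢
    omega
  · intro x _ hx
    rw [mem_range] at hx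
    have : cf (2 * p - 1) x = 0 := by
      unfold cf
      rw [Nat.choose_eq_zero_of_lt (show 2 * p - 1 - x < 2 * x by omega), mul_zero]
    rw [this]
    simp

include hp in
theorem At_diff : ∃ w : R, At p t = 2 * bb t (p - 1) - bb t (2 * p - 1) + (p : R) ^ 2 * w := by
  choose! f hf using fun j => cc_diff p j
  refine ⟨∑ k ∈ range p, (f k : R) * t ^ k, ?_⟩
  rw [bb_p, bb_2p]
  unfold At
  rw [mul_sum, mul_sum, ← sum_sub_distrib, ← sum_add_distrib]
  refine sum_congr rfl fun k hk => ?_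
  have h := congrArg (Int.cast (R := R)) (hf k (mem_range.mp hk))
  push_cast at h
  linear_combination t ^ k * h

include hp in
theorem At_diff1 : ∃ w : R, At p t = bb t (p - 1) + (p : R) * w := by
  choose! f hf using fun j => cc_diff1 p j
  refine ⟨∑ k ∈ range p, (f k : R) * t ^ k, ?_⟩
  rw [bb_p]
  unfold At
  rw [mul_sum, ← sum_add_distrib]
  refine sum_congr rfl fun k hk => ?_
  have h := congrArg (Int.cast (R := R)) (hf k (mem_range.mp hk))
  push_cast at h
  linear_combination t ^ k * h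

include hp in
theorem bb_diff2 : ∃ w : R, bb t (p - 1) = bb t (2 * p - 1) + (p : R) * w := by
  choose! f hf using fun j => cc_diff2 p j
  refine ⟨∑ k ∈ range p, (f k : R) * t ^ k, ?_⟩
  rw [bb_p, bb_2p]
  rw [mul_sum, ← sum_add_distrib]
  refine sum_congr rfl fun k hk => ?_
  have h := congrArg (Int.cast (R := R)) (hf k (mem_range.mp hk))
  push_cast at h
  linear_combination t ^ k * h

end prime

end Pool.Agent.U851.CM
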