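import Pool.Agent.U851.CM.SplitMain

set_option autoImplicit false

/-!
# The inert case
-/

namespace Pool.Agent.U851.CM

open Finset

noncomputable section

section series

open PowerSeries

variable {K : Type*} [Field K]

theorem series_of (t π : K) (n d : Polynomial K) (n0 : n.coeff 0 = 0) (d0 : d.coeff 0 ≠ 0)
    (ho : Qe (Polynomial.C t) Polynomial.X *
        (Polynomial.derivative n * d - n * Polynomial.derivative d) ^ 2 =
      Polynomial.C π ^ 2 * (d * (d * (d - n) ^ 2 - 4 * Polynomial.C t * n ^ 3))) :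
    ∃ f : PowerSeries K, (constantCoeff f) ^ 2 = π ^ 2 ∧
      Qe (C t) X * (d⁄dX K (X * f)) ^ 2 = C (constantCoeff f) ^ 2 * Qe (C t) (X * f) := by
  set N : PowerSeries K := (n : PowerSeries K) with hN
  set D : PowerSeries K := (d : PowerSeries K) with hD
  have hD0 : constantCoeff D ≠ 0 := by
    rw [← coeff_zero_eq_constantCoeff_apply, hD, Polynomial.coeff_coe]
    exact d0
  have hDne : D ≠ 0 := by
    intro h
    apply hD0
    rw [h, map_zero]
  have hN0 : constantCoeff N = 0 := by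
    rw [← coeff_zero_eq_constantCoeff_apply, hN, Polynomial.coeff_coe, n0]
  obtain ⟨N1, hN1⟩ := X_dvd_iff.mpr hN0
  set f : PowerSeries K := N1 * D⁻¹ with hf
  have hfD : f * D = N1 := by
    rw [hf, mul_assoc, PowerSeries.inv_mul_cancel _ hD0, mul_one]
  have hRD : X * f * D = N := by rw [mul_assoc, hfD, hN1]
  have hoq : Qe (C t) X * (d⁄dX K N * D - N * d⁄dX K D) ^ 2 =
      (C π) ^ 2 * (D * (D * (D - N) ^ 2 - 4 * C t * N ^ 3)) := by
    have h := congrArg (fun q : Polynomial K => (q : PowerSeries K)) ho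
    simp only [Polynomial.coe_mul, Polynomial.coe_pow, Polynomial.coe_sub, Polynomial.coe_C,
      ← derivative_coe, ← hN, ← hD, coe_four] at h
    have e1 : ((Qe (Polynomial.C t) Polynomial.X : Polynomial K) : PowerSeries K) =
        Qe (C t) X := by
      unfold Qe
      simp [coe_four]
    rw [e1] at h
    exact h
  have hoR : Qe (C t) X * (d⁄dX K (X * f)) ^ 2 = (C π) ^ 2 * Qe (C t) (X * f) := by
    have hD4 : D ^ 4 ≠ 0 := pow_ne_zero 4 hDne
    apply mul_left_cancel₀ hD4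
    have hder : d⁄dX K N = X * f * d⁄dX K D + D * d⁄dX K (X * f) := by
      rw [← hRD, Derivation.leibniz]
      simp only [smul_eq_mul]
    rw [hder, ← hRD] at hoq
    unfold Qe at hoq ⊢
    linear_combination hoq
  have hρ2 : (constantCoeff f) ^ 2 = π ^ 2 := by
    have h := congrArg constantCoeff hoR
    rw [map_mul constantCoeff, map_pow constantCoeff, map_mul constantCoeff (C _ ^ 2),
      map_pow constantCoeff] at h
    have e1 : constantCoeff (d⁄dX K (X * f)) = constantCoeff f := by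
      rw [← coeff_zero_eq_constantCoeff_apply, coeff_derivative, coeff_succ_X_mul,
        coeff_zero_eq_constantCoeff_apply]
      simp
    have e2 : constantCoeff (Qe (C t) X) = 1 := by
      unfold Qe
      simp
    have e3 : constantCoeff (Qe (C t) (X * f)) = 1 := by
      unfold Qe
      simp
    rw [e1, e2, e3, one_mul, mul_one] at h
    rw [h]
    simp
  refine ⟨f, hρ2, ?_⟩
  rw [hoR, ← map_pow, ← map_pow, hρ2]

theorem inert_bb (p : ℕ) [hp : Fact p.Prime] [CharP K p] (hp2 : p ≠ 2) (t π : K)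
    (n d : Polynomial K) (n0 : n.coeff 0 = 0) (d0 : d.coeff 0 ≠ 0) (hπ0 : π ≠ 0) (hπ : π ^ p ≠ π)
    (ho : Qe (Polynomial.C t) Polynomial.X *
        (Polynomial.derivative n * d - n * Polynomial.derivative d) ^ 2 =
      Polynomial.C π ^ 2 * (d * (d * (d - n) ^ 2 - 4 * Polynomial.C t * n ^ 3))) :
    bb t (p - 1) = 0 := by
  obtain ⟨f, hf2, hfo⟩ := series_of t π n d n0 d0 ho
  have hρ0 : constantCoeff f ≠ 0 := by
    intro h
    rw [h, zero_pow two_ne_zero] at hf2
    exact pow_ne_zero 2 hπ0 hf2.symm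
  have h := relp p hp2 t (constantCoeff f) f rfl hρ0 hfo
  have hodd : Odd p := hp.out.odd_of_ne_two hp2
  have hne : (constantCoeff f) ^ p - constantCoeff f ≠ 0 := by
    rcases sq_eq_sq_iff_eq_or_eq_neg.mp hf2 with h' | h'
    · rw [h']; exact sub_ne_zero.mpr hπ
    · rw [h', hodd.neg_pow]
      intro h0
      apply hπ
      linear_combination -h0
  have h2 : bb t (p - 1) * ((constantCoeff f) ^ p - constantCoeff f) = 0 := by
    linear_combination h
  exact (mul_eq_zero.mp h2).resolve_right hne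

end series

/-- division by a monic quadratic -/
theorem div_quad (u v : ℤ) (P : Polynomial ℤ) : ∃ (q : Polynomial ℤ) (U V : ℤ),
    P = q * (Polynomial.X ^ 2 - Polynomial.C u * Polynomial.X + Polynomial.C v) +
      Polynomial.C V * Polynomial.X + Polynomial.C U := by
  set m : Polynomial ℤ := Polynomial.X ^ 2 - Polynomial.C u * Polynomial.X + Polynomial.C v with hm
  have e : m = Polynomial.X ^ 2 + (Polynomial.C (-u) * Polynomial.X + Polynomial.C v) := by
    rw [hm, Polynomial.C_neg]; ring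
  have hlt : (Polynomial.C (-u) * Polynomial.X + Polynomial.C v : Polynomial ℤ).degree <
      ((2 : ℕ) : WithBot ℕ) := lt_of_le_of_lt Polynomial.degree_linear_le (by norm_num)
  have hmon : m.Monic := by
    rw [e]
    exact Polynomial.monic_X_pow_add hlt
  have hdeg : m.degree = 2 := by
    rw [e, Polynomial.degree_add_eq_left_of_degree_lt, Polynomial.degree_X_pow]
    · rfl
    · rw [Polynomial.degree_X_pow]; exact hlt
  have h1 := Polynomial.modByMonic_add_div P m
  have h2 := Polynomial.degree_modByMonic_lt P hmon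
  rw [hdeg] at h2
  have h3 : (P %ₘ m).degree ≤ 1 := by
    have : (2 : WithBot ℕ) = ((1 + 1 : ℕ) : WithBot ℕ) := rfl
    rw [this] at h2
    exact Order.lt_succ_iff.mp h2
  have h4 := Polynomial.eq_X_add_C_of_degree_le_one h3
  refine ⟨P /ₘ m, (P %ₘ m).coeff 0, (P %ₘ m).coeff 1, ?_⟩
  rw [add_assoc, ← h4]
  conv_lhs => rw [← h1]
  ring

/-- the homogeneous polynomial -/
def Ph (p : ℕ) (τ0 τ1 : ℤ) (δ : ℕ) : Polynomial ℤ :=
  ∑ k ∈ range p, (cc k : Polynomial ℤ) *
    (Polynomial.C τ0 + Polynomial.C τ1 * Polynomial.X) ^ k * (δ : Polynomial ℤ) ^ (p - 1 - k)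

theorem Ph_eval (p : ℕ) (τ0 τ1 : ℤ) (δ : ℕ) {R : Type*} [CommRing R] (x u : R)
    (hu : (δ : R) * u = 1) :
    Polynomial.aeval x (Ph p τ0 τ1 δ) = (δ : R) ^ (p - 1) * At p ((τ0 + τ1 * x) * u) := by
  unfold Ph At
  rw [map_sum, mul_sum]
  refine sum_congr rfl fun k hk => ?_
  rw [mem_range] at hk
  simp only [map_mul, map_pow, map_add, map_natCast, Polynomial.aeval_X]
  have e0 : (Polynomial.aeval x) (Polynomial.C τ0 : Polynomial ℤ) = (τ0 : R) := by simp
  have e1 : (Polynomial.aeval x) (Polynomial.C τ1 : Polynomial ℤ) = (τ1 : R) := by simp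
  rw [e0, e1, mul_pow]
  have e2 : (δ : R) ^ (p - 1) = (δ : R) ^ (p - 1 - k) * (δ : R) ^ k := by
    rw [← pow_add]; congr 1; omega
  have e3 : (δ : R) ^ k * u ^ k = 1 := by rw [← mul_pow, hu, one_pow]
  rw [e2]
  linear_combination (-(cc k : R) * (τ0 + τ1 * x) ^ k * (δ : R) ^ (p - 1 - k)) * e3

variable {p : ℕ} [hp : Fact p.Prime]

/-- the sum and the value of the Clausen side -/
theorem Sm_eq' {m : ℕ} (x : ℤ_[p]) (hm : (m : ℤ_[p]) * x = 1) :
    ((Sm p m : ℚ) : ℚ_[p]) = ((∑ k ∈ Finset.range p, (cc k : ℤ_[p]) * (k.centralBinom : ℤ_[p]) *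
      x ^ k : ℤ_[p]) : ℚ_[p]) := by
  unfold Sm
  rw [PadicInt.coe_sum, Rat.cast_sum]
  refine Finset.sum_congr rfl fun k _ => ?_
  have hm' : (m : ℚ_[p]) * (x : ℚ_[p]) = 1 := by
    rw [← PadicInt.coe_natCast, ← PadicInt.coe_mul, hm, PadicInt.coe_one]
  have hm0 : (m : ℚ_[p]) ≠ 0 := left_ne_zero_of_mul_eq_one hm'
  have e1 : (x : ℚ_[p]) = (m : ℚ_[p])⁻¹ := eq_inv_of_mul_eq_one_right hm'
  rw [PadicInt.coe_mul, PadicInt.coe_mul, PadicInt.coe_pow, e1, PadicInt.coe_natCast,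
    PadicInt.coe_natCast, Nat.centralBinom_eq_two_mul_choose]
  unfold cc
  push_cast
  rw [inv_pow]
  ring

/-- the value at a root in a ring with the same relation -/
theorem inert_core (hp5 : 5 ≤ p) {R : Type*} [CommRing R] (ι : ℤ_[p] →+* R) (a b : ℤ) (w : R)
    (hw2 : w ^ 2 = (b : R) * w + (a : R)) (τ0 τ1 : ℤ) (δ : ℕ) (q : Polynomial ℤ) (U' V' : ℤ)
    (hP : Ph p τ0 τ1 δ = q * (Polynomial.X ^ 2 - Polynomial.C b * Polynomial.X +
      Polynomial.C (-a)) + Polynomial.C ((p : ℤ) * V') * Polynomial.X + Polynomial.C ((p : ℤ) * U'))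
    (u x : ℤ_[p]) (hu : (δ : ℤ_[p]) * u = 1)
    (hx : (((τ0 : R) + (τ1 : R) * w) * ι u) * (1 - 27 * (((τ0 : R) + (τ1 : R) * w) * ι u)) = ι x) :
    ι ((p : ℤ_[p]) ^ 2) ∣
      ι (∑ k ∈ Finset.range p, (cc k : ℤ_[p]) * (k.centralBinom : ℤ_[p]) * x ^ k) := by
  have huR : (δ : R) * ι u = 1 := by
    have := congrArg ι hu
    rw [map_mul, map_one, map_natCast] at this
    exact this
  have hRe := congrArg (Polynomial.aeval w) hP
  rw [Ph_eval p τ0 τ1 δ w (ι u) huR] at hRe
  simp only [map_mul, map_pow, map_add, map_sub, Polynomial.aeval_X] at hRe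
  have eR : ∀ c : ℤ, (Polynomial.aeval w) (Polynomial.C c : Polynomial ℤ) = (c : R) := by
    intro c; simp
  simp only [eR] at hRe
  push_cast at hRe
  set T : R := ((τ0 : R) + (τ1 : R) * w) * ι u with hT
  have hA : At p T = (p : R) * ((ι u) ^ (p - 1) * ((V' : R) * w + (U' : R))) := by
    have e1 : (ι u) ^ (p - 1) * (δ : R) ^ (p - 1) = 1 := by
      rw [← mul_pow, mul_comm, huR, one_pow]
    linear_combination (ι u) ^ (p - 1) * hRe - (At p T) * e1 +
      (ι u) ^ (p - 1) * (Polynomial.aeval w q) * hw2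
  obtain ⟨c, hc⟩ := clausen p hp5 T
  rw [hx, hA] at hc
  have e1 : ι (∑ k ∈ Finset.range p, (cc k : ℤ_[p]) * (k.centralBinom : ℤ_[p]) * x ^ k) =
      ∑ k ∈ range p, (cc k : R) * (k.centralBinom : R) * (ι x) ^ k := by
    rw [map_sum]
    refine sum_congr rfl fun k _ => ?_
    rw [map_mul, map_mul, map_pow, map_natCast, map_natCast]
  rw [e1, map_pow, map_natCast]
  exact ⟨(((ι u) ^ (p - 1) * ((V' : R) * w + (U' : R)))) ^ 2 - c, by linear_combination -hc⟩

/-- the end of the inert case: `al` is a root of `X^2 - b X - a` in a field of characteristic `p`,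
not in the prime field -/
theorem inert_fin (hp5 : 5 ≤ p) {K : Type*} [Field K] [CharP K p] (a b : ℤ) (al : K)
    (hal : al ^ 2 = (b : K) * al + (a : K)) (hind : al ^ p ≠ al) (τ0 τ1 : ℤ) (δ : ℕ)
    (uK : K) (huK : (δ : K) * uK = 1) (hAt : At p (((τ0 : K) + τ1 * al) * uK) = 0)
    (u : ℤ_[p]) (hu : (δ : ℤ_[p]) * u = 1) (m : ℕ) (x : ℤ_[p]) (hm : (m : ℤ_[p]) * x = 1)
    (hx : ∀ (R : Type) [CommRing R] (ι : ℤ_[p] →+* R) (w : R), w ^ 2 = (b : R) * w + (a : R) →
      (((τ0 : R) + (τ1 : R) * w) * ι u) * (1 - 27 * (((τ0 : R) + (τ1 : R) * w) * ι u)) = ι x) :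
    ‖((Sm p m : ℚ) : ℚ_[p])‖ ≤ ep p ^ 2 := by
  obtain ⟨q, U, V, hP⟩ := div_quad b (-a) (Ph p τ0 τ1 δ)
  -- evaluation in `K`
  have hK := congrArg (Polynomial.aeval al) hP
  rw [Ph_eval p τ0 τ1 δ al uK huK, hAt, mul_zero] at hK
  simp only [map_mul, map_pow, map_add, map_sub, Polynomial.aeval_X] at hK
  have eC : ∀ c : ℤ, (Polynomial.aeval al) (Polynomial.C c : Polynomial ℤ) = (c : K) := by
    intro c; simp
  rw [eC, eC, eC, eC] at hK
  have hK' : (V : K) * al + (U : K) = 0 := by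
    push_cast at hK
    linear_combination -hK - (Polynomial.aeval al q) * hal
  -- the coefficients are divisible by `p`
  have hfr : ∀ c : ℤ, (c : K) ^ p = (c : K) := by
    intro c
    have h1 := ZMod.pow_card (c : ZMod p)
    have h2 := congrArg (ZMod.castHom (dvd_refl p) K) h1
    rw [map_pow, map_intCast] at h2
    exact h2
  have hV : (V : K) = 0 := by
    by_contra hV0
    apply hind
    have e : al = -(U : K) / V := by
      rw [eq_div_iff hV0]
      linear_combination hK'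
    have hodd : Odd p := hp.out.odd_of_ne_two (by omega)
    rw [e, div_pow, hodd.neg_pow, hfr, hfr]
  have hU : (U : K) = 0 := by
    rw [hV, zero_mul, zero_add] at hK'
    exact hK'
  obtain ⟨V', hV'⟩ := (CharP.intCast_eq_zero_iff K p V).mp hV
  obtain ⟨U', hU'⟩ := (CharP.intCast_eq_zero_iff K p U).mp hU
  rw [hV', hU'] at hP
  have hw2 : (QuadraticAlgebra.omega : QuadraticAlgebra ℤ_[p] (a : ℤ_[p]) (b : ℤ_[p])) ^ 2 =
      (b : QuadraticAlgebra ℤ_[p] (a : ℤ_[p]) (b : ℤ_[p])) * QuadraticAlgebra.omega +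
      (a : QuadraticAlgebra ℤ_[p] (a : ℤ_[p]) (b : ℤ_[p])) := by
    rw [pow_two]
    ext <;> simp
  have hdvd := inert_core hp5 (algebraMap ℤ_[p] (QuadraticAlgebra ℤ_[p] (a : ℤ_[p]) (b : ℤ_[p])))
    a b QuadraticAlgebra.omega hw2 τ0 τ1 δ q U' V' hP u x hu (hx _ _ _ hw2)
  have hdvd' := QuadraticAlgebra.algebraMap_dvd_iff_dvd.mp hdvd
  obtain ⟨y, hy⟩ := hdvd'
  rw [Sm_eq' x hm, hy, PadicInt.coe_mul, PadicInt.coe_pow, PadicInt.coe_natCast, norm_mul,
    norm_pow, Padic.norm_p]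
  calc ((p : ℝ)⁻¹) ^ 2 * ‖(y : ℚ_[p])‖ ≤ ((p : ℝ)⁻¹) ^ 2 * 1 :=
        mul_le_mul_of_nonneg_left (PadicInt.norm_le_one y) (by positivity)
    _ = ep p ^ 2 := by rw [mul_one]; rfl

end

end Pool.Agent.U851.CM
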