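import Pool.Agent.U851.CM.SerOde
import Pool.Agent.U851.CM.Diff

set_option autoImplicit false

/-!
# Relations between the coefficients of a pull-back, and norm estimates
-/

namespace Pool.Agent.U851.CM

open Finset PowerSeries

noncomputable section

section field

variable {K : Type*} [Field K]

theorem aeval_gp (t : K) (S : PowerSeries K) (N : ℕ) :
    Polynomial.aeval S (gp t N) = ∑ m ∈ range N, C (bb t m) * S ^ m := by
  unfold gp
  rw [map_sum]
  refine sum_congr rfl fun m _ => ?_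
  rw [Polynomial.aeval_monomial]
  rfl

/-- the relation, in characteristic zero -/
theorem rel0 [CharZero K] (t ρ : K) (f : PowerSeries K)
    (h1 : constantCoeff f = ρ) (hρ : ρ ≠ 0)
    (ho : Qe (C t) X * (d⁄dX K (X * f)) ^ 2 = C ρ ^ 2 * Qe (C t) (X * f)) (i : ℕ) :
    ρ * bb t i = (i + 1) * ∑ m ∈ range (i + 1), bb t m / (m + 1) * coeff (i - m) (f ^ (m + 1)) := by
  have h0 : constantCoeff (X * f) = 0 := by simp
  have h1' : coeff 1 (X * f) = ρ := by
    rw [show (1 : ℕ) = 0 + 1 from rfl, coeff_succ_X_mul, coeff_zero_eq_constantCoeff_apply, h1]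
  have h := lemS two_ne_zero t ρ (X * f) h0 h1' hρ ho (i + 1)
  rw [PowerSeries.X_pow_dvd_iff] at h
  have h' := h i (Nat.lt_succ_self i)
  rw [map_sub, coeff_C_mul, sub_eq_zero, aeval_gp, sum_mul, map_sum] at h'
  have e : coeff i (gs t) = bb t i := by unfold gs; rw [coeff_mk]
  rw [e] at h'
  rw [← h', mul_sum]
  refine sum_congr rfl fun m hm => ?_
  rw [mem_range] at hm
  have hm1 : ((m : K) + 1) ≠ 0 := by exact_mod_cast Nat.succ_ne_zero m
  have hd : C (bb t m) * (X * f) ^ m * d⁄dX K (X * f) =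
      C (bb t m / (m + 1)) * d⁄dX K ((X * f) ^ (m + 1)) := by
    rw [derivative_pow]
    push_cast
    have : C (bb t m) = C (bb t m / (m + 1)) * ((m : PowerSeries K) + 1) := by
      have e2 : ((m : PowerSeries K) + 1) = C ((m : K) + 1) := by simp
      rw [e2, ← map_mul]
      congr 1
      field_simp
    rw [this]
    ring
  rw [hd, coeff_C_mul, coeff_derivative, mul_pow, coeff_X_pow_mul', if_pos (by omega),
    show i + 1 - (m + 1) = i - m by omega]
  ring

/-- the relation in characteristic `p` -/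
theorem relp (p : ℕ) [hp : Fact p.Prime] [CharP K p] (hp2 : p ≠ 2) (t ρ : K) (f : PowerSeries K)
    (h1 : constantCoeff f = ρ) (hρ : ρ ≠ 0)
    (ho : Qe (C t) X * (d⁄dX K (X * f)) ^ 2 = C ρ ^ 2 * Qe (C t) (X * f)) :
    bb t (p - 1) * ρ ^ p = ρ * bb t (p - 1) := by
  have hp1 := hp.out.one_lt
  have h2 : (2 : K) ≠ 0 := by
    have := (CharP.cast_eq_zero_iff K p 2).not.mpr
      (fun h => hp2 ((Nat.prime_dvd_prime_iff_eq hp.out Nat.prime_two).mp h))
    exact_mod_cast this
  have h0 : constantCoeff (X * f) = 0 := by simp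
  have h1' : coeff 1 (X * f) = ρ := by
    rw [show (1 : ℕ) = 0 + 1 from rfl, coeff_succ_X_mul, coeff_zero_eq_constantCoeff_apply, h1]
  have h := lemS h2 t ρ (X * f) h0 h1' hρ ho p
  rw [PowerSeries.X_pow_dvd_iff] at h
  have h' := h (p - 1) (by omega)
  rw [map_sub, coeff_C_mul, sub_eq_zero, aeval_gp, sum_mul, map_sum] at h'
  have e : coeff (p - 1) (gs t) = bb t (p - 1) := by unfold gs; rw [coeff_mk]
  rw [e] at h'
  rw [← h', ← Nat.sub_add_cancel hp1.le, sum_range_succ, Nat.sub_add_cancel hp1.le]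
  have hz : ∑ m ∈ range (p - 1), coeff (p - 1) (C (bb t m) * (X * f) ^ m * d⁄dX K (X * f)) = 0 := by
    apply sum_eq_zero
    intro m hm
    rw [mem_range] at hm
    have hm1 : ((m : K) + 1) ≠ 0 := by
      have : ((m + 1 : ℕ) : K) ≠ 0 := by
        rw [Ne, CharP.cast_eq_zero_iff K p]
        intro h
        exact absurd (Nat.le_of_dvd (Nat.succ_pos m) h) (by omega)
      exact_mod_cast this
    have hd : C (bb t m) * (X * f) ^ m * d⁄dX K (X * f) =
        C (bb t m / (m + 1)) * d⁄dX K ((X * f) ^ (m + 1)) := by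
      rw [derivative_pow]
      push_cast
      have : C (bb t m) = C (bb t m / (m + 1)) * ((m : PowerSeries K) + 1) := by
        have e2 : ((m : PowerSeries K) + 1) = C ((m : K) + 1) := by simp
        rw [e2, ← map_mul]
        congr 1
        field_simp
      rw [this]
      ring
    rw [hd, coeff_C_mul, coeff_derivative]
    have hpz : (((p - 1 : ℕ) : K) + 1) = 0 := by
      have : ((p - 1 + 1 : ℕ) : K) = 0 := by
        rw [Nat.sub_add_cancel hp1.le, CharP.cast_eq_zero]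
      exact_mod_cast this
    rw [hpz, mul_zero, mul_zero]
  rw [hz, zero_add]
  have hl : coeff (p - 1) (C (bb t (p - 1)) * (X * f) ^ (p - 1) * d⁄dX K (X * f)) =
      bb t (p - 1) * (ρ ^ (p - 1) * ρ) := by
    rw [mul_pow, mul_assoc, coeff_C_mul, mul_assoc, coeff_X_pow_mul', if_pos le_rfl, Nat.sub_self,
      coeff_zero_eq_constantCoeff_apply, map_mul, map_pow, h1,
      ← coeff_zero_eq_constantCoeff_apply, coeff_derivative, h1']
    simp
  rw [hl, ← pow_succ, Nat.sub_add_cancel hp1.le]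

end field

section norms

variable {p : ℕ} [hp : Fact p.Prime]

theorem nsum {ι : Type*} (s : Finset ι) (f : ι → ℚ_[p]) (c : ℝ) (hc : 0 ≤ c)
    (h : ∀ i ∈ s, ‖f i‖ ≤ c) : ‖∑ i ∈ s, f i‖ ≤ c :=
  IsUltrametricDist.norm_sum_le_of_forall_le_of_nonneg hc h

theorem nmul (f g : PowerSeries ℚ_[p]) (a b : ℝ) (ha : 0 ≤ a) (hb : 0 ≤ b) (k : ℕ)
    (hf : ∀ i ≤ k, ‖coeff i f‖ ≤ a) (hg : ∀ i ≤ k, ‖coeff i g‖ ≤ b) :
    ∀ i ≤ k, ‖coeff i (f * g)‖ ≤ a * b := by
  intro i hi
  rw [coeff_mul]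
  apply nsum _ _ _ (mul_nonneg ha hb)
  intro x hx
  rw [HasAntidiagonal.mem_antidiagonal] at hx
  rw [norm_mul]
  exact mul_le_mul (hf _ (by omega)) (hg _ (by omega)) (norm_nonneg _) ha

theorem npow (f : PowerSeries ℚ_[p]) (a : ℝ) (ha : 0 ≤ a) (k : ℕ)
    (hf : ∀ i ≤ k, ‖coeff i f‖ ≤ a) (n : ℕ) :
    ∀ i ≤ k, ‖coeff i (f ^ n)‖ ≤ a ^ n := by
  induction n with
  | zero =>
    intro i hi
    rw [pow_zero, pow_zero, coeff_one]
    split_ifs <;> simp
  | succ n ih =>
    rw [pow_succ, pow_succ]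
    exact nmul _ _ _ _ (pow_nonneg ha n) ha k ih hf

end norms

end

end Pool.Agent.U851.CM
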