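import Pool.Agent.U851.CM.KeyA

set_option autoImplicit false

/-!
# Norm estimates for the coefficients
-/

namespace Pool.Agent.U851.CM

open Finset PowerSeries

noncomputable section

variable {p : ℕ} [hp : Fact p.Prime]

/-- `1/p` -/
def ep (p : ℕ) : ℝ := (p : ℝ)⁻¹

theorem ep_pos : 0 < ep p := by
  unfold ep; have := hp.out.pos; positivity

theorem ep_nonneg : 0 ≤ ep p := ep_pos.le

theorem ep_le_one : ep p ≤ 1 := by
  unfold ep
  exact inv_le_one_of_one_le₀ (by exact_mod_cast hp.out.one_lt.le)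

theorem ep_lt_one : ep p < 1 := by
  unfold ep
  exact inv_lt_one_of_one_lt₀ (by exact_mod_cast hp.out.one_lt)

theorem ep_pow {m n : ℕ} (h : m ≤ n) : ep p ^ n ≤ ep p ^ m :=
  pow_le_pow_of_le_one ep_nonneg ep_le_one h

theorem p_ep (n : ℕ) : (p : ℝ) * ep p ^ (n + 1) = ep p ^ n := by
  unfold ep
  have : (p : ℝ) ≠ 0 := by exact_mod_cast hp.out.ne_zero
  rw [pow_succ]
  field_simp

theorem nat_norm {m : ℕ} (h : ¬ p ∣ m) : ‖((m : ℕ) : ℚ_[p])‖ = 1 := by
  rw [Padic.norm_natCast_eq_one_iff]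
  exact (Nat.Prime.coprime_iff_not_dvd hp.out).mpr h

theorem nat_norm' {m : ℕ} (h0 : 0 < m) (h : m < p) : ‖((m : ℕ) : ℚ_[p])‖ = 1 :=
  nat_norm fun h' => absurd (Nat.le_of_dvd h0 h') (by omega)

/-- splitting the relation -/
theorem rel_split (b : ℕ → ℚ_[p]) (b0 : b 0 = 1) (ρ : ℚ_[p]) (f : PowerSeries ℚ_[p]) (i : ℕ)
    (hrel : ρ * b i = (i + 1) *
      ∑ m ∈ range (i + 1), b m / (m + 1) * coeff (i - m) (f ^ (m + 1))) :
    ρ * b i = (i + 1) * (coeff i f +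
      ∑ m ∈ range i, b (m + 1) / (((m + 2 : ℕ) : ℚ_[p])) * coeff (i - (m + 1)) (f ^ (m + 2))) := by
  rw [hrel, sum_range_succ']
  congr 1
  rw [add_comm]
  congr 1
  · rw [b0]
    simp
  · refine sum_congr rfl fun m _ => ?_
    have : (((m + 1 : ℕ) : ℚ_[p]) + 1) = ((m + 2 : ℕ) : ℚ_[p]) := by push_cast; ring
    rw [this]

theorem term_bound (b : ℕ → ℚ_[p]) (hb : ∀ m, ‖b m‖ ≤ 1) (m n : ℕ) (hn : ¬ p ∣ n) (x : ℚ_[p])
    (c : ℝ) (hx : ‖x‖ ≤ c) : ‖b m / ((n : ℕ) : ℚ_[p]) * x‖ ≤ c := by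
  rw [norm_mul, norm_div, nat_norm hn, div_one]
  calc ‖b m‖ * ‖x‖ ≤ 1 * c := mul_le_mul (hb m) hx (norm_nonneg _) zero_le_one
    _ = c := one_mul c

theorem L1 (b : ℕ → ℚ_[p]) (hb : ∀ m, ‖b m‖ ≤ 1) (b0 : b 0 = 1) (ρ : ℚ_[p])
    (hρ : ‖ρ‖ = ep p) (f : PowerSeries ℚ_[p])
    (hrel : ∀ i : ℕ, ρ * b i = (i + 1) *
      ∑ m ∈ range (i + 1), b m / (m + 1) * coeff (i - m) (f ^ (m + 1))) :
    ∀ i : ℕ, i + 1 < p → ‖coeff i f‖ ≤ ep p := by
  intro i
  induction i using Nat.strong_induction_on with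
  | _ i ih =>
    intro hi
    have h := rel_split b b0 ρ f i (hrel i)
    set T := ∑ m ∈ range i, b (m + 1) / (((m + 2 : ℕ) : ℚ_[p])) *
      coeff (i - (m + 1)) (f ^ (m + 2)) with hT
    have hTb : ‖T‖ ≤ ep p := by
      rw [hT]
      apply nsum _ _ _ ep_nonneg
      intro m hm
      rw [mem_range] at hm
      apply term_bound b hb
      · intro h'
        exact absurd (Nat.le_of_dvd (by omega) h') (by omega)
      · have := npow f (ep p) ep_nonneg (i - (m + 1)) (fun j hj => ih j (by omega) (by omega)) (m + 2)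
          (i - (m + 1)) le_rfl
        refine this.trans ?_
        have h1 := ep_pow (p := p) (show 1 ≤ m + 2 by omega)
        rwa [pow_one] at h1
    have hi1 : ‖((i : ℚ_[p]) + 1)‖ = 1 := by
      have := nat_norm' (p := p) (m := i + 1) (by omega) hi
      push_cast at this
      exact this
    have hi0 : ((i : ℚ_[p]) + 1) ≠ 0 := by
      intro h0
      rw [h0, norm_zero] at hi1
      exact zero_ne_one hi1
    have e : coeff i f = ρ * b i / (i + 1) - T := by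
      rw [h]
      field_simp
      ring
    rw [e]
    have h1 : ‖ρ * b i / (i + 1)‖ ≤ ep p := by
      rw [norm_div, hi1, div_one, norm_mul, hρ]
      calc ep p * ‖b i‖ ≤ ep p * 1 := mul_le_mul_of_nonneg_left (hb i) ep_nonneg
        _ = ep p := mul_one _
    rw [sub_eq_add_neg]
    exact (IsUltrametricDist.norm_add_le_max _ _).trans (max_le h1 (by rwa [norm_neg]))

theorem L2 (hp3 : 3 ≤ p) (b : ℕ → ℚ_[p]) (hb : ∀ m, ‖b m‖ ≤ 1) (b0 : b 0 = 1) (ρ : ℚ_[p])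
    (f : PowerSeries ℚ_[p])
    (hrel : ρ * b (p - 1) = ((p - 1 : ℕ) + 1) *
      ∑ m ∈ range (p - 1 + 1), b m / (m + 1) * coeff (p - 1 - m) (f ^ (m + 1)))
    (hf : ∀ i : ℕ, i + 1 < p → ‖coeff i f‖ ≤ ep p) :
    ‖coeff (p - 1) f - ρ / p * b (p - 1)‖ ≤ ep p ^ 2 := by
  have hp1 := hp.out.one_lt
  have h := rel_split b b0 ρ f (p - 1) hrel
  set T := ∑ m ∈ range (p - 1), b (m + 1) / (((m + 2 : ℕ) : ℚ_[p])) *
      coeff (p - 1 - (m + 1)) (f ^ (m + 2)) with hT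
  have hp0 : (p : ℚ_[p]) ≠ 0 := by exact_mod_cast hp.out.ne_zero
  have hc : (((p - 1 : ℕ) : ℚ_[p]) + 1) = p := by
    have : ((p - 1 + 1 : ℕ) : ℚ_[p]) = p := by rw [Nat.sub_add_cancel hp1.le]
    exact_mod_cast this
  rw [hc] at h
  have e : coeff (p - 1) f - ρ / p * b (p - 1) = -T := by
    have : ρ / p * b (p - 1) = ρ * b (p - 1) / p := by ring
    rw [this, h]
    field_simp
    ring
  rw [e, norm_neg, hT]
  apply nsum _ _ _ (by have := ep_nonneg (p := p); positivity)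
  intro m hm
  rw [mem_range] at hm
  have hpw := npow f (ep p) ep_nonneg (p - 1 - (m + 1)) (fun j hj => hf j (by omega)) (m + 2)
          (p - 1 - (m + 1)) le_rfl
  rcases Nat.lt_or_ge (m + 2) p with hlt | hge
  · apply term_bound b hb
    · intro h'
      exact absurd (Nat.le_of_dvd (by omega) h') (by omega)
    · exact hpw.trans (ep_pow (by omega))
  · have hm2 : m + 2 = p := by omega
    rw [norm_mul, norm_div, hm2, Padic.norm_p]
    rw [hm2] at hpw
    have e1 : ‖b (m + 1)‖ / (p : ℝ)⁻¹ = ‖b (m + 1)‖ * p := by field_simp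
    rw [e1]
    have h3 : ep p ^ p = ep p ^ ((p - 1) + 1) := by rw [Nat.sub_add_cancel hp1.le]
    have hpR : (0 : ℝ) ≤ p := by positivity
    calc ‖b (m + 1)‖ * p * ‖coeff (p - 1 - (m + 1)) (f ^ p)‖
        ≤ 1 * p * ep p ^ p :=
          mul_le_mul (mul_le_mul_of_nonneg_right (hb _) hpR) hpw (norm_nonneg _) (by linarith)
      _ = p * ep p ^ ((p - 1) + 1) := by rw [one_mul, h3]
      _ = ep p ^ (p - 1) := p_ep _
      _ ≤ ep p ^ 2 := ep_pow (by omega)

/-- the higher powers -/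
theorem L3a (hp3 : 3 ≤ p) (f : PowerSeries ℚ_[p]) (hf : ∀ i : ℕ, i ≠ p - 1 → ‖coeff i f‖ ≤ ep p)
    (hc : ‖coeff (p - 1) f‖ ≤ 1) (n : ℕ) (hn3 : 3 ≤ n) (hn : n ≤ 2 * p) :
    ‖coeff (2 * p - n) (f ^ n)‖ ≤ ep p ^ (n - 1) := by
  set c := coeff (p - 1) f with hcdef
  set g : PowerSeries ℚ_[p] := f - C c * X ^ (p - 1) with hg
  have hgc : ∀ i, ‖coeff i g‖ ≤ ep p := by
    intro i
    rw [hg, map_sub, coeff_C_mul, coeff_X_pow]
    by_cases hi : i = p - 1
    · rw [if_pos hi, mul_one, hi, ← hcdef, sub_self, norm_zero]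
      exact ep_nonneg
    · rw [if_neg hi, mul_zero, sub_zero]
      exact hf i hi
  have hfe : f = g + C c * X ^ (p - 1) := by rw [hg]; ring
  rw [hfe, add_pow, map_sum]
  apply nsum _ _ _ (by have := ep_nonneg (p := p); positivity)
  intro k hk
  rw [mem_range] at hk
  rcases Nat.lt_or_ge (n - k) 2 with hlt | hge
  · have hkn : n - 1 ≤ k := by omega
    have h1 := npow g (ep p) ep_nonneg (2 * p - n) (fun j _ => hgc j) k
    have h2 : ∀ i ≤ 2 * p - n, ‖coeff i (C c * X ^ (p - 1) : PowerSeries ℚ_[p])‖ ≤ 1 := by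
      intro i _
      rw [coeff_C_mul, coeff_X_pow]
      split_ifs
      · rw [mul_one]; exact hc
      · rw [mul_zero, norm_zero]; exact zero_le_one
    have h3 := npow (C c * X ^ (p - 1) : PowerSeries ℚ_[p]) 1 zero_le_one (2 * p - n) h2 (n - k)
    rw [one_pow] at h3
    have h4 := nmul _ _ _ _ (pow_nonneg ep_nonneg k) zero_le_one (2 * p - n) h1 h3
    have h5 : ∀ i ≤ 2 * p - n, ‖coeff i ((n.choose k : ℕ) : PowerSeries ℚ_[p])‖ ≤ 1 := by
      intro i _
      have : ((n.choose k : ℕ) : PowerSeries ℚ_[p]) = C ((n.choose k : ℕ) : ℚ_[p]) := by simp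
      rw [this, coeff_C]
      split_ifs
      · exact_mod_cast Padic.norm_int_le_one ((n.choose k : ℕ) : ℤ)
      · rw [norm_zero]; exact zero_le_one
    have h6 := nmul _ _ _ _ (mul_nonneg (pow_nonneg ep_nonneg k) zero_le_one) zero_le_one
      (2 * p - n) h4 h5 (2 * p - n) le_rfl
    rw [mul_one, mul_one] at h6
    exact h6.trans (ep_pow hkn)
  · have e : g ^ k * (C c * X ^ (p - 1)) ^ (n - k) * ((n.choose k : ℕ) : PowerSeries ℚ_[p]) =
        X ^ ((p - 1) * (n - k)) * (g ^ k * C c ^ (n - k) * ((n.choose k : ℕ) : PowerSeries ℚ_[p])) := by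
      rw [mul_pow, ← pow_mul]; ring
    have hlt : ¬ ((p - 1) * (n - k) ≤ 2 * p - n) := by
      have : (p - 1) * 2 ≤ (p - 1) * (n - k) := Nat.mul_le_mul_left _ hge
      omega
    rw [e, coeff_X_pow_mul', if_neg hlt, norm_zero]
    exact pow_nonneg ep_nonneg _

theorem L3b (hp3 : 3 ≤ p) (f : PowerSeries ℚ_[p]) (hf : ∀ i : ℕ, i ≠ p - 1 → ‖coeff i f‖ ≤ ep p) :
    ‖coeff (2 * p - 2) (f ^ 2) - (coeff (p - 1) f) ^ 2‖ ≤ ep p ^ 2 := by
  rw [pow_two f, coeff_mul]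
  have hmem : ((p - 1, p - 1) : ℕ × ℕ) ∈ HasAntidiagonal.antidiagonal (2 * p - 2) := by
    rw [HasAntidiagonal.mem_antidiagonal]; dsimp only; omega
  rw [← add_sum_erase _ _ hmem]
  have : coeff (p - 1) f * coeff (p - 1) f +
      ∑ x ∈ (HasAntidiagonal.antidiagonal (2 * p - 2)).erase (p - 1, p - 1),
        coeff x.1 f * coeff x.2 f - coeff (p - 1) f ^ 2 =
      ∑ x ∈ (HasAntidiagonal.antidiagonal (2 * p - 2)).erase (p - 1, p - 1),
        coeff x.1 f * coeff x.2 f := by ring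
  rw [this]
  apply nsum _ _ _ (by have := ep_nonneg (p := p); positivity)
  intro x hx
  rw [mem_erase, HasAntidiagonal.mem_antidiagonal] at hx
  obtain ⟨h1, h2⟩ := hx
  have hx1 : x.1 ≠ p - 1 := by
    intro h
    apply h1
    ext
    · exact h
    · dsimp only; omega
  have hx2 : x.2 ≠ p - 1 := by omega
  rw [norm_mul, pow_two]
  exact mul_le_mul (hf _ hx1) (hf _ hx2) (norm_nonneg _) ep_nonneg

theorem L3 (hp5 : 5 ≤ p) (b : ℕ → ℚ_[p]) (hb : ∀ m, ‖b m‖ ≤ 1) (b0 : b 0 = 1) (b1 : b 1 = 1)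
    (ρ : ℚ_[p]) (f : PowerSeries ℚ_[p])
    (hrel : ρ * b (2 * p - 1) = ((2 * p - 1 : ℕ) + 1) *
      ∑ m ∈ range (2 * p - 1 + 1), b m / (m + 1) * coeff (2 * p - 1 - m) (f ^ (m + 1)))
    (hf : ∀ i : ℕ, i ≠ p - 1 → ‖coeff i f‖ ≤ ep p)
    (hc : ‖coeff (p - 1) f‖ ≤ 1) (hl : ‖coeff (2 * p - 1) f‖ ≤ ep p ^ 2) :
    ‖ρ / p * b (2 * p - 1) - (coeff (p - 1) f) ^ 2‖ ≤ ep p ^ 2 := by
  have hp1 := hp.out.one_lt
  have he : (0 : ℝ) ≤ ep p ^ 2 := pow_nonneg ep_nonneg 2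
  have h := rel_split b b0 ρ f (2 * p - 1) hrel
  obtain ⟨q, hq⟩ : ∃ q, 2 * p - 1 = q + 1 := ⟨2 * p - 2, by omega⟩
  have hp0 : (p : ℚ_[p]) ≠ 0 := by exact_mod_cast hp.out.ne_zero
  have h2n : ‖(2 : ℚ_[p])‖ = 1 := by
    have := nat_norm' (p := p) (m := 2) (by omega) (by omega)
    exact_mod_cast this
  have h20 : (2 : ℚ_[p]) ≠ 0 := two_ne_zero
  have hcc : (((2 * p - 1 : ℕ) : ℚ_[p]) + 1) = 2 * p := by
    have : ((2 * p - 1 + 1 : ℕ) : ℚ_[p]) = ((2 * p : ℕ) : ℚ_[p]) := by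
      rw [Nat.sub_add_cancel (by omega)]
    push_cast at this
    exact this
  rw [hcc] at h
  have hs : ∑ m ∈ range (2 * p - 1), b (m + 1) / (((m + 2 : ℕ) : ℚ_[p])) *
      coeff (2 * p - 1 - (m + 1)) (f ^ (m + 2)) =
      (∑ m ∈ range q, b (m + 2) / (((m + 3 : ℕ) : ℚ_[p])) *
      coeff (2 * p - (m + 3)) (f ^ (m + 3))) + 1 / 2 * coeff (2 * p - 2) (f ^ 2) := by
    rw [hq, sum_range_succ', ← hq]
    congr 1
    · refine sum_congr rfl fun m _ => ?_
      rw [show 2 * p - 1 - (m + 1 + 1) = 2 * p - (m + 3) by omega, show m + 1 + 1 = m + 2 by ring,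
        show m + 1 + 2 = m + 3 by ring]
    · rw [show 2 * p - 1 - (0 + 1) = 2 * p - 2 by omega, zero_add, b1, zero_add]
      norm_num
  rw [hs] at h
  set T := ∑ m ∈ range q, b (m + 2) / (((m + 3 : ℕ) : ℚ_[p])) *
      coeff (2 * p - (m + 3)) (f ^ (m + 3)) with hT
  have hTb : ‖T‖ ≤ ep p ^ 2 := by
    rw [hT]
    apply nsum _ _ _ he
    intro m hm
    rw [mem_range] at hm
    have h3 := L3a (by omega) f hf hc (m + 3) (by omega) (by omega)
    rw [show m + 3 - 1 = m + 2 by omega] at h3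
    by_cases hd : p ∣ m + 3
    · obtain ⟨u, hu⟩ := hd
      have hu0 : 0 < u := by
        rcases Nat.eq_zero_or_pos u with h' | h'
        · rw [h', mul_zero] at hu; omega
        · exact h'
      have hup : u < p := by
        have : p * u ≤ 2 * p := by omega
        have : u ≤ 2 := by
          by_contra hcon
          push Not at hcon
          have : p * 3 ≤ p * u := Nat.mul_le_mul_left _ hcon
          omega
        omega
      have hn : ‖(((m + 3 : ℕ)) : ℚ_[p])‖ = (p : ℝ)⁻¹ := by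
        rw [hu, Nat.cast_mul, norm_mul, Padic.norm_p, nat_norm' hu0 hup, mul_one]
      have hm2 : 2 ≤ m := by
        have : p ≤ p * u := Nat.le_mul_of_pos_right _ hu0
        omega
      rw [norm_mul, norm_div, hn]
      have e1 : ‖b (m + 2)‖ / (p : ℝ)⁻¹ = ‖b (m + 2)‖ * p := by field_simp
      rw [e1]
      have hpR : (0 : ℝ) ≤ p := by positivity
      calc ‖b (m + 2)‖ * p * ‖coeff (2 * p - (m + 3)) (f ^ (m + 3))‖
          ≤ 1 * p * ep p ^ (m + 2) :=
            mul_le_mul (mul_le_mul_of_nonneg_right (hb _) hpR) h3 (norm_nonneg _) (by linarith)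
        _ = p * ep p ^ ((m + 1) + 1) := by rw [one_mul]
        _ = ep p ^ (m + 1) := p_ep _
        _ ≤ ep p ^ 2 := ep_pow (by omega)
    · apply term_bound b hb _ _ hd
      exact h3.trans (ep_pow (by omega))
  have e : ρ / p * b (2 * p - 1) - coeff (p - 1) f ^ 2 =
      (2 * coeff (2 * p - 1) f + 2 * T) + (coeff (2 * p - 2) (f ^ 2) - coeff (p - 1) f ^ 2) := by
    have : ρ / p * b (2 * p - 1) = ρ * b (2 * p - 1) / p := by ring
    rw [this, h]
    field_simp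
    ring
  rw [e]
  refine (IsUltrametricDist.norm_add_le_max _ _).trans (max_le ?_ (L3b (by omega) f hf))
  refine (IsUltrametricDist.norm_add_le_max _ _).trans (max_le ?_ ?_)
  · rw [norm_mul, h2n, one_mul]; exact hl
  · rw [norm_mul, h2n, one_mul]; exact hTb

end

end Pool.Agent.U851.CM
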