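import Pool.Agent.U851.CM.KeyB

set_option autoImplicit false

/-!
# Reduction modulo `p` of an isogeny with inseparable reduction
-/

namespace Pool.Agent.U851.CM

open Finset Polynomial

noncomputable section

variable {p : ℕ} [hp : Fact p.Prime]

theorem phi_zero (z : ℤ_[p]) : PadicInt.toZMod z = 0 ↔ ‖z‖ < 1 := by
  rw [← RingHom.mem_ker, PadicInt.ker_toZMod, IsLocalRing.mem_maximalIdeal, PadicInt.mem_nonunits]

theorem phi_ne (z : ℤ_[p]) (h : ‖z‖ = 1) : PadicInt.toZMod z ≠ 0 := by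
  rw [Ne, phi_zero]
  intro h'
  rw [h] at h'
  exact lt_irrefl _ h'

theorem Q_deg {F : Type*} [Field F] (a : F) (h2 : (2 : F) ≠ 0) (ha : a ≠ 0) :
    (Qe (C a) X : F[X]).natDegree = 3 := by
  have e : (Qe (C a) X : F[X]) = C (-(4 * a)) * X ^ 3 + C 1 * X ^ 2 + C (-2) * X + C 1 := by
    unfold Qe
    simp only [map_neg, map_mul, map_ofNat, map_one]
    ring
  rw [e]
  apply natDegree_cubic
  have : (4 : F) = 2 ^ 2 := by norm_num
  rw [this]
  exact neg_ne_zero.mpr (mul_ne_zero (pow_ne_zero 2 h2) ha)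

theorem Qe_map {R S : Type*} [CommRing R] [CommRing S] (f : R →+* S) (a : R) :
    (Qe (C a) X : R[X]).map f = Qe (C (f a)) X := by
  unfold Qe
  simp

theorem parity {F : Type*} [Field F] (Q W V : F[X]) (hQ : Q.natDegree = 3) (hV : V ≠ 0)
    (h : Q * W ^ 2 = V ^ 2) : False := by
  have hW : W ≠ 0 := by
    rintro rfl
    rw [zero_pow two_ne_zero, mul_zero] at h
    exact hV (pow_eq_zero_iff two_ne_zero |>.mp h.symm)
  have hQ0 : Q ≠ 0 := by
    rintro rfl
    rw [natDegree_zero] at hQ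
    omega
  have := congrArg natDegree h
  rw [natDegree_mul hQ0 (pow_ne_zero 2 hW), natDegree_pow, natDegree_pow, hQ] at this
  omega

theorem red (hp2 : p ≠ 2) (t κ : ℤ_[p]) (ht : ‖t‖ = 1) (hκ : ‖κ‖ = 1) (n d : ℤ_[p][X])
    (hdd : d.natDegree < p) (hnp : n.natDegree ≤ p) (hn : ∀ i < p, ‖n.coeff i‖ < 1)
    (hprim : (∃ i, ‖n.coeff i‖ = 1) ∨ ∃ i, ‖d.coeff i‖ = 1)
    (ho : Qe (C t) X * (derivative n * d - n * derivative d) ^ 2 =
      (C (p : ℤ_[p])) ^ 2 * C κ ^ 2 * (d * (d * (d - n) ^ 2 - 4 * C t * n ^ 3))) :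
    ‖n.coeff p‖ = 1 ∧ ∀ i, 1 ≤ i → ‖d.coeff i‖ < 1 := by
  have h2 : (2 : ZMod p) ≠ 0 := by
    intro h
    have : ((2 : ℕ) : ZMod p) = 0 := by exact_mod_cast h
    rw [ZMod.natCast_eq_zero_iff] at this
    exact hp2 ((Nat.prime_dvd_prime_iff_eq hp.out Nat.prime_two).mp this)
  have ht' := phi_ne t ht
  have hκ' := phi_ne κ hκ
  have hpz : PadicInt.toZMod (p : ℤ_[p]) = 0 := by rw [map_natCast, ZMod.natCast_self]
  have hQ := Q_deg (PadicInt.toZMod t) h2 ht'
  have hQ0 : (Qe (C (PadicInt.toZMod t)) X : (ZMod p)[X]) ≠ 0 := by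
    intro h0
    rw [h0, natDegree_zero] at hQ
    omega
  have hnb : n.map PadicInt.toZMod = C (PadicInt.toZMod (n.coeff p)) * X ^ p := by
    ext i
    rw [coeff_map, coeff_C_mul_X_pow]
    split_ifs with hi
    · rw [hi]
    · rcases Nat.lt_or_ge i p with h | h
      · exact (phi_zero _).mpr (hn i h)
      · rw [coeff_eq_zero_of_natDegree_lt (by omega), map_zero]
  by_cases ha : ‖n.coeff p‖ < 1
  · exfalso
    have hall : ∀ i, ‖n.coeff i‖ < 1 := by
      intro i
      rcases lt_trichotomy i p with h | h | h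
      · exact hn i h
      · rw [h]; exact ha
      · rw [coeff_eq_zero_of_natDegree_lt (by omega), norm_zero]; exact zero_lt_one
    have hdiv : C (p : ℤ_[p]) ∣ n := by
      rw [C_dvd_iff_dvd_coeff]
      intro i
      exact (PadicInt.norm_lt_one_iff_dvd _).mp (hall i)
    obtain ⟨n1, rfl⟩ := hdiv
    have hd1 : ∃ i, ‖d.coeff i‖ = 1 := by
      rcases hprim with ⟨i, hi⟩ | h
      · exact absurd (hall i) (by rw [hi]; exact lt_irrefl _)
      · exact h
    have hp0 : (C (p : ℤ_[p]) : ℤ_[p][X]) ≠ 0 := by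
      rw [Ne, C_eq_zero]
      exact_mod_cast hp.out.ne_zero
    have ho' : Qe (C t) X * (derivative n1 * d - n1 * derivative d) ^ 2 =
        C κ ^ 2 * (d * (d * (d - C (p : ℤ_[p]) * n1) ^ 2 - 4 * C t * (C (p : ℤ_[p]) * n1) ^ 3)) := by
      apply mul_left_cancel₀ (pow_ne_zero 2 hp0)
      rw [derivative_C_mul] at ho
      linear_combination ho
    have ho2 := congrArg (Polynomial.map PadicInt.toZMod) ho'
    simp only [Polynomial.map_mul, Polynomial.map_pow, Polynomial.map_sub, Polynomial.map_C,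
      hpz, C_0, zero_mul, sub_zero, zero_pow (three_ne_zero), mul_zero, Qe_map] at ho2
    apply parity _ _ (C (PadicInt.toZMod κ) * (d.map PadicInt.toZMod) ^ 2) hQ _ (by
      rw [ho2]; ring)
    apply mul_ne_zero
    · rwa [Ne, C_eq_zero]
    · apply pow_ne_zero
      intro h0
      obtain ⟨i, hi⟩ := hd1
      have := congrArg (fun q => q.coeff i) h0
      simp only [coeff_map, coeff_zero] at this
      exact phi_ne _ hi this
  · have ha1 : ‖n.coeff p‖ = 1 := le_antisymm (PadicInt.norm_le_one _) (not_lt.mp ha)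
    refine ⟨ha1, ?_⟩
    have ho2 := congrArg (Polynomial.map PadicInt.toZMod) ho
    simp only [Polynomial.map_mul, Polynomial.map_pow, Polynomial.map_sub, Polynomial.map_C,
      hpz, C_0, zero_mul, Qe_map, zero_pow two_ne_zero] at ho2
    have hW := pow_eq_zero_iff two_ne_zero |>.mp ((mul_eq_zero.mp ho2).resolve_left hQ0)
    rw [← derivative_map, ← derivative_map, hnb, derivative_C_mul, derivative_X_pow,
      CharP.cast_eq_zero, C_0, zero_mul, mul_zero, zero_mul, zero_sub, neg_eq_zero] at hW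
    have hne : (C (PadicInt.toZMod (n.coeff p)) * X ^ p : (ZMod p)[X]) ≠ 0 := by
      apply mul_ne_zero
      · rw [Ne, C_eq_zero]; exact phi_ne _ ha1
      · exact pow_ne_zero _ X_ne_zero
    have hd' := (mul_eq_zero.mp hW).resolve_left hne
    intro i hi
    rw [← phi_zero]
    rcases Nat.lt_or_ge i p with h | h
    · have := congrArg (fun q => q.coeff (i - 1)) hd'
      simp only [coeff_derivative, coeff_map, coeff_zero] at this
      rw [Nat.sub_add_cancel hi] at this
      refine (mul_eq_zero.mp this).resolve_right ?_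
      have e : (((i - 1 : ℕ) : ZMod p) + 1) = ((i : ℕ) : ZMod p) := by
        have : (((i - 1 + 1 : ℕ)) : ZMod p) = ((i : ℕ) : ZMod p) := by rw [Nat.sub_add_cancel hi]
        exact_mod_cast this
      rw [e, ZMod.natCast_eq_zero_iff]
      intro hdv
      exact absurd (Nat.le_of_dvd (by omega) hdv) (by omega)
    · rw [coeff_eq_zero_of_natDegree_lt (by omega), map_zero]

end

end Pool.Agent.U851.CM
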