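import Pool.Agent.U851.CM.KeyC

set_option autoImplicit false

/-!
# The truncated sum modulo `p^2` from an isogeny of degree `p`: integral version
-/

namespace Pool.Agent.U851.CM

open Finset PowerSeries

noncomputable section

variable {p : ℕ} [hp : Fact p.Prime]

theorem lt_ep (z : ℤ_[p]) (h : ‖z‖ < 1) : ‖z‖ ≤ ep p := by
  obtain ⟨w, rfl⟩ := (PadicInt.norm_lt_one_iff_dvd z).mp h
  rw [norm_mul, PadicInt.norm_p]
  unfold ep
  calc (p : ℝ)⁻¹ * ‖w‖ ≤ (p : ℝ)⁻¹ * 1 :=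
        mul_le_mul_of_nonneg_left (PadicInt.norm_le_one w) (by positivity)
    _ = (p : ℝ)⁻¹ := mul_one _

theorem nadd {x y : ℚ_[p]} {c : ℝ} (hx : ‖x‖ ≤ c) (hy : ‖y‖ ≤ c) : ‖x + y‖ ≤ c :=
  (IsUltrametricDist.norm_add_le_max _ _).trans (max_le hx hy)

theorem nsub {x y : ℚ_[p]} {c : ℝ} (hx : ‖x‖ ≤ c) (hy : ‖y‖ ≤ c) : ‖x - y‖ ≤ c := by
  rw [sub_eq_add_neg]
  exact nadd hx (by rwa [norm_neg])

theorem sq_norm_one {x y : ℚ_[p]} (hx : ‖x‖ ≤ 1) (hy : ‖y‖ ≤ 1) (h : ‖x * y‖ = 1) :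
    ‖x‖ = 1 ∧ ‖y‖ = 1 := by
  rw [norm_mul] at h
  have h1 := norm_nonneg x
  have h2 := norm_nonneg y
  constructor
  · by_contra hc
    have : ‖x‖ < 1 := lt_of_le_of_ne hx hc
    nlinarith
  · by_contra hc
    have : ‖y‖ < 1 := lt_of_le_of_ne hy hc
    nlinarith

/-- the final combination -/
theorem fin_comb (κ c B B' A w w' : ℚ_[p]) (hκ : ‖κ‖ = 1) (hc : ‖c‖ = 1)
    (hw : ‖w‖ ≤ 1) (hw' : ‖w'‖ ≤ 1)
    (h1 : ‖c - κ * B‖ ≤ ep p ^ 2) (h2 : ‖κ * B' - c ^ 2‖ ≤ ep p ^ 2) (h3 : B = B' + p * w)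
    (h4 : A = 2 * B - B' + p ^ 2 * w') : ‖κ * A - 1‖ ≤ ep p ^ 2 := by
  have he2 : ep p ^ 2 ≤ ep p := by
    have := ep_pow (p := p) (show 1 ≤ 2 by norm_num)
    rwa [pow_one] at this
  have hpn : ‖(p : ℚ_[p])‖ = ep p := Padic.norm_p
  have hcc : ‖c * (1 - c)‖ ≤ ep p := by
    have e : c * (1 - c) = (c - κ * B) + κ * (p * w) + (κ * B' - c ^ 2) := by rw [h3]; ring
    rw [e]
    refine nadd (nadd (h1.trans he2) ?_) (h2.trans he2)
    rw [norm_mul, hκ, one_mul, norm_mul, hpn]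
    calc ep p * ‖w‖ ≤ ep p * 1 := mul_le_mul_of_nonneg_left hw ep_nonneg
      _ = ep p := mul_one _
  rw [norm_mul, hc, one_mul] at hcc
  have e : κ * A - 1 = -(c - κ * B) + -(c - κ * B) - (κ * B' - c ^ 2) + κ * (p ^ 2 * w') -
      (1 - c) ^ 2 := by rw [h4]; ring
  rw [e]
  refine nsub (nadd (nsub (nadd ?_ ?_) h2) ?_) ?_
  · rwa [norm_neg]
  · rwa [norm_neg]
  · rw [norm_mul, hκ, one_mul, norm_mul, norm_pow, hpn]
    calc ep p ^ 2 * ‖w'‖ ≤ ep p ^ 2 * 1 :=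
          mul_le_mul_of_nonneg_left hw' (pow_nonneg ep_nonneg 2)
      _ = ep p ^ 2 := mul_one _
  · rw [norm_pow]
    exact pow_le_pow_left₀ (norm_nonneg _) hcc 2

/-- cast of the coefficient -/
theorem bb_cast (t : ℤ_[p]) (m : ℕ) : ((bb t m : ℤ_[p]) : ℚ_[p]) = bb (t : ℚ_[p]) m :=
  bb_map (algebraMap ℤ_[p] ℚ_[p]) t m

theorem bb_norm (t : ℤ_[p]) (m : ℕ) : ‖bb (t : ℚ_[p]) m‖ ≤ 1 := by
  rw [← bb_cast]
  exact PadicInt.norm_le_one _

/-- the coefficients of the quotient are integral and mostly divisible by `p` -/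
theorem quot_bound (f D N : PowerSeries ℚ_[p]) (hfd : f * D = N)
    (hd0 : ‖coeff 0 D‖ = 1) (hd : ∀ i, 1 ≤ i → ‖coeff i D‖ ≤ ep p)
    (hN1 : ‖coeff (p - 1) N‖ ≤ 1) (hN : ∀ i, i ≠ p - 1 → ‖coeff i N‖ ≤ ep p) (i : ℕ) :
    ‖coeff i f‖ ≤ 1 ∧ (i ≠ p - 1 → ‖coeff i f‖ ≤ ep p) := by
  induction i using Nat.strong_induction_on with
  | _ i ih =>
    have h := congrArg (coeff i) hfd
    rw [coeff_mul] at h
    have hmem : ((i, 0) : ℕ × ℕ) ∈ HasAntidiagonal.antidiagonal i := by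
      rw [HasAntidiagonal.mem_antidiagonal]
      rfl
    rw [← add_sum_erase _ _ hmem] at h
    set T := ∑ x ∈ (HasAntidiagonal.antidiagonal i).erase (i, 0), coeff x.1 f * coeff x.2 D with hT
    have hTb : ‖T‖ ≤ ep p := by
      rw [hT]
      apply nsum _ _ _ ep_nonneg
      intro x hx
      rw [mem_erase, HasAntidiagonal.mem_antidiagonal] at hx
      obtain ⟨h1, h2⟩ := hx
      have hx2 : 1 ≤ x.2 := by
        rcases Nat.eq_zero_or_pos x.2 with h0 | h0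
        · exfalso
          apply h1
          ext
          · dsimp only; omega
          · exact h0
        · exact h0
      rw [norm_mul]
      calc ‖coeff x.1 f‖ * ‖coeff x.2 D‖ ≤ 1 * ep p :=
            mul_le_mul (ih x.1 (by omega)).1 (hd _ hx2) (norm_nonneg _) zero_le_one
        _ = ep p := one_mul _
    have e : coeff i f * coeff 0 D = coeff i N - T := by
      rw [← h]
      ring
    have e2 : ‖coeff i f‖ = ‖coeff i N - T‖ := by
      rw [← e, norm_mul, hd0, mul_one]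
    rw [e2]
    by_cases hi : i = p - 1
    · refine ⟨nsub (by rw [hi]; exact hN1) (hTb.trans ep_le_one), fun h' => absurd hi h'⟩
    · have h3 := nsub (hN i hi) hTb
      exact ⟨h3.trans ep_le_one, fun _ => h3⟩

theorem last_bound (hp3 : 3 ≤ p) (f D N : PowerSeries ℚ_[p]) (hfd : f * D = N)
    (hd0 : ‖coeff 0 D‖ = 1) (hd : ∀ i, 1 ≤ i → ‖coeff i D‖ ≤ ep p) (hdp : coeff p D = 0)
    (hf : ∀ i, i ≠ p - 1 → ‖coeff i f‖ ≤ ep p) (hN : coeff (2 * p - 1) N = 0) :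
    ‖coeff (2 * p - 1) f‖ ≤ ep p ^ 2 := by
  have h := congrArg (coeff (2 * p - 1)) hfd
  rw [coeff_mul, hN] at h
  have hmem : ((2 * p - 1, 0) : ℕ × ℕ) ∈ HasAntidiagonal.antidiagonal (2 * p - 1) := by
    rw [HasAntidiagonal.mem_antidiagonal]
    rfl
  rw [← add_sum_erase _ _ hmem] at h
  set T := ∑ x ∈ (HasAntidiagonal.antidiagonal (2 * p - 1)).erase (2 * p - 1, 0),
    coeff x.1 f * coeff x.2 D with hT
  have hTb : ‖T‖ ≤ ep p ^ 2 := by
    rw [hT]
    apply nsum _ _ _ (pow_nonneg ep_nonneg 2)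
    intro x hx
    rw [mem_erase, HasAntidiagonal.mem_antidiagonal] at hx
    obtain ⟨h1, h2⟩ := hx
    have hx2 : 1 ≤ x.2 := by
      rcases Nat.eq_zero_or_pos x.2 with h0 | h0
      · exfalso
        apply h1
        ext
        · dsimp only; omega
        · exact h0
      · exact h0
    by_cases hx1 : x.1 = p - 1
    · have : x.2 = p := by omega
      rw [this, hdp, mul_zero, norm_zero]
      exact pow_nonneg ep_nonneg 2
    · rw [norm_mul, pow_two]
      exact mul_le_mul (hf _ hx1) (hd _ hx2) (norm_nonneg _) ep_nonneg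
  have e : coeff (2 * p - 1) f * coeff 0 D = - T := by
    linear_combination h
  have e2 : ‖coeff (2 * p - 1) f‖ = ‖T‖ := by
    rw [← norm_neg T, ← e, norm_mul, hd0, mul_one]
  rw [e2]
  exact hTb

theorem keyInt (hp5 : 5 ≤ p) (t κ : ℤ_[p]) (ht : ‖t‖ = 1) (hκ : ‖κ‖ = 1)
    (n d : Polynomial ℤ_[p])
    (hnp : n.natDegree ≤ p) (hdd : d.natDegree < p) (n0 : n.coeff 0 = 0) (d0 : d.coeff 0 ≠ 0)
    (hprim : (∃ i, ‖n.coeff i‖ = 1) ∨ ∃ i, ‖d.coeff i‖ = 1)
    (ho : Qe (Polynomial.C t) Polynomial.X *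
        (Polynomial.derivative n * d - n * Polynomial.derivative d) ^ 2 =
      (Polynomial.C (p : ℤ_[p])) ^ 2 * Polynomial.C κ ^ 2 *
        (d * (d * (d - n) ^ 2 - 4 * Polynomial.C t * n ^ 3))) :
    ‖((κ : ℚ_[p]) * At p (t : ℚ_[p])) ^ 2 - 1‖ ≤ ep p ^ 2 := by
  have hp1 := hp.out.one_lt
  have hp0 : (p : ℚ_[p]) ≠ 0 := by exact_mod_cast hp.out.ne_zero
  -- the power series
  set ι := algebraMap ℤ_[p] ℚ_[p] with hι
  set N : PowerSeries ℚ_[p] := ((n.map ι : Polynomial ℚ_[p]) : PowerSeries ℚ_[p]) with hN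
  set D : PowerSeries ℚ_[p] := ((d.map ι : Polynomial ℚ_[p]) : PowerSeries ℚ_[p]) with hD
  have cN : ∀ i, coeff i N = (n.coeff i : ℚ_[p]) := by
    intro i; rw [hN, Polynomial.coeff_coe, Polynomial.coeff_map]; rfl
  have cD : ∀ i, coeff i D = (d.coeff i : ℚ_[p]) := by
    intro i; rw [hD, Polynomial.coeff_coe, Polynomial.coeff_map]; rfl
  have hD0 : constantCoeff D ≠ 0 := by
    rw [← coeff_zero_eq_constantCoeff_apply, cD]
    exact PadicInt.coe_ne_zero.mpr d0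
  have hDne : D ≠ 0 := by
    intro h
    apply hD0
    rw [h, map_zero]
  have hN0 : constantCoeff N = 0 := by
    rw [← coeff_zero_eq_constantCoeff_apply, cN, n0]
    rfl
  obtain ⟨N1, hN1⟩ := X_dvd_iff.mpr hN0
  set f : PowerSeries ℚ_[p] := N1 * D⁻¹ with hf
  have hfD : f * D = N1 := by
    rw [hf, mul_assoc, PowerSeries.inv_mul_cancel _ hD0, mul_one]
  have hRD : X * f * D = N := by rw [mul_assoc, hfD, hN1]
  -- the differential equation
  have hoq : Qe (C (t : ℚ_[p])) X * (d⁄dX ℚ_[p] N * D - N * d⁄dX ℚ_[p] D) ^ 2 =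
      (C ((p : ℚ_[p]) * κ)) ^ 2 * (D * (D * (D - N) ^ 2 - 4 * C (t : ℚ_[p]) * N ^ 3)) := by
    have h := congrArg (fun q : Polynomial ℤ_[p] =>
      ((q.map ι : Polynomial ℚ_[p]) : PowerSeries ℚ_[p])) ho
    simp only [Polynomial.map_mul, Polynomial.map_pow, Polynomial.map_sub, Polynomial.map_C,
      Polynomial.coe_mul, Polynomial.coe_pow, Polynomial.coe_sub, Polynomial.coe_C, Qe_map,
      ← Polynomial.derivative_map, ← derivative_coe, ← hN, ← hD] at h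
    have e1 : ((Qe (Polynomial.C (ι t)) Polynomial.X : Polynomial ℚ_[p]) : PowerSeries ℚ_[p]) =
        Qe (C (t : ℚ_[p])) X := by
      unfold Qe
      simp [coe_four, hι]
    have e2 : (((Polynomial.map ι (4 : Polynomial ℤ_[p])) : Polynomial ℚ_[p]) :
        PowerSeries ℚ_[p]) = 4 := by
      rw [Polynomial.map_ofNat, coe_four]
    have e3 : (C (ι (p : ℤ_[p])) : PowerSeries ℚ_[p]) ^ 2 * C (ι κ) ^ 2 =
        (C ((p : ℚ_[p]) * κ)) ^ 2 := by
      have e4 : ι (p : ℤ_[p]) = (p : ℚ_[p]) := by rw [hι, map_natCast]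
      have e5 : ι κ = (κ : ℚ_[p]) := rfl
      rw [map_mul, mul_pow, e4, e5]
    rw [e1, e2, e3] at h
    exact h
  have hoR : Qe (C (t : ℚ_[p])) X * (d⁄dX ℚ_[p] (X * f)) ^ 2 =
      (C ((p : ℚ_[p]) * κ)) ^ 2 * Qe (C (t : ℚ_[p])) (X * f) := by
    have hD4 : D ^ 4 ≠ 0 := pow_ne_zero 4 hDne
    apply mul_left_cancel₀ hD4
    have hder : d⁄dX ℚ_[p] N = X * f * d⁄dX ℚ_[p] D + D * d⁄dX ℚ_[p] (X * f) := by
      rw [← hRD, Derivation.leibniz]
      simp only [smul_eq_mul]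
    rw [hder, ← hRD] at hoq
    unfold Qe at hoq ⊢
    linear_combination hoq
  set ρ := constantCoeff f with hρd
  have hρ2 : ρ ^ 2 = ((p : ℚ_[p]) * κ) ^ 2 := by
    have h := congrArg constantCoeff hoR
    rw [map_mul constantCoeff, map_pow constantCoeff, map_mul constantCoeff (C _ ^ 2),
      map_pow constantCoeff] at h
    have e1 : constantCoeff (d⁄dX ℚ_[p] (X * f)) = ρ := by
      rw [← coeff_zero_eq_constantCoeff_apply, coeff_derivative, coeff_succ_X_mul,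
        coeff_zero_eq_constantCoeff_apply]
      simp [hρd]
    have e2 : constantCoeff (Qe (C (t : ℚ_[p])) X) = 1 := by
      unfold Qe
      simp
    have e3 : constantCoeff (Qe (C (t : ℚ_[p])) (X * f)) = 1 := by
      unfold Qe
      simp
    rw [e1, e2, e3, one_mul, mul_one] at h
    rw [h]
    simp
  have hoρ : Qe (C (t : ℚ_[p])) X * (d⁄dX ℚ_[p] (X * f)) ^ 2 =
      (C ρ) ^ 2 * Qe (C (t : ℚ_[p])) (X * f) := by
    rw [hoR, ← map_pow, ← map_pow, hρ2]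
  have hκq : ‖(κ : ℚ_[p])‖ = 1 := hκ
  have hpn : ‖(p : ℚ_[p])‖ = ep p := Padic.norm_p
  have hρn : ‖ρ‖ = ep p := by
    have h := congrArg (fun x => ‖x‖) hρ2
    simp only [norm_pow, norm_mul, hκq, hpn, mul_one] at h
    exact (pow_left_inj₀ (norm_nonneg _) ep_nonneg two_ne_zero).mp h
  have hρ0 : ρ ≠ 0 := by
    intro h
    rw [h, norm_zero] at hρn
    exact absurd hρn.symm ep_pos.ne'
  have hrel := fun i => rel0 (t : ℚ_[p]) ρ f rfl hρ0 hoρ i
  set b : ℕ → ℚ_[p] := fun m => bb (t : ℚ_[p]) m with hb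
  have hbn : ∀ m, ‖b m‖ ≤ 1 := fun m => bb_norm t m
  have hb0 : b 0 = 1 := bb_zero _
  have hb1 : b 1 = 1 := bb_one _
  have hL1 := L1 b hbn hb0 ρ hρn f hrel
  have hL2 := L2 (by omega) b hbn hb0 ρ f (hrel (p - 1)) hL1
  -- coefficients of N and D
  have nN : ∀ i, ‖coeff i N‖ ≤ 1 := by
    intro i; rw [cN]; exact PadicInt.norm_le_one _
  have nD : ∀ i, ‖coeff i D‖ ≤ 1 := by
    intro i; rw [cD]; exact PadicInt.norm_le_one _
  have cN1 : ∀ i, coeff (i + 1) N = coeff i N1 := by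
    intro i; rw [hN1, coeff_succ_X_mul]
  have hNs : ∀ i < p, ‖coeff i N‖ ≤ ep p := by
    intro i hi
    rcases i with _ | j
    · rw [coeff_zero_eq_constantCoeff_apply, hN0, norm_zero]; exact ep_nonneg
    · rw [cN1, ← hfD]
      have := nmul f D (ep p) 1 ep_nonneg zero_le_one j (fun k hk => hL1 k (by omega))
        (fun k _ => nD k) j le_rfl
      rwa [mul_one] at this
  have hns : ∀ i < p, ‖n.coeff i‖ < 1 := by
    intro i hi
    have h := hNs i hi
    rw [cN] at h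
    exact lt_of_le_of_lt h ep_lt_one
  obtain ⟨hnpn, hdn⟩ := red (by omega) t κ ht hκ n d hdd hnp hns hprim ho
  have hDs : ∀ i, 1 ≤ i → ‖coeff i D‖ ≤ ep p := by
    intro i hi
    rw [cD]
    exact lt_ep _ (hdn i hi)
  -- the leading coefficients
  set c := coeff (p - 1) f with hc
  set κ' := ρ / p with hκ'
  have hκ'n : ‖κ'‖ = 1 := by
    rw [hκ', norm_div, hρn, hpn, div_self ep_pos.ne']
  have hcn : ‖c‖ ≤ 1 := by
    have e : c = (c - ρ / p * b (p - 1)) + κ' * b (p - 1) := by rw [hκ']; ring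
    rw [e]
    refine nadd (hL2.trans (pow_le_one₀ ep_nonneg ep_le_one)) ?_
    rw [norm_mul, hκ'n, one_mul]
    exact hbn _
  have hprod : ‖c * coeff 0 D‖ = 1 := by
    have h := congrArg (coeff (p - 1)) hfD
    rw [← cN1, Nat.sub_add_cancel hp1.le, coeff_mul] at h
    have hmem : ((p - 1, 0) : ℕ × ℕ) ∈ HasAntidiagonal.antidiagonal (p - 1) := by
      rw [HasAntidiagonal.mem_antidiagonal]; rfl
    rw [← add_sum_erase _ _ hmem] at h
    set T := ∑ x ∈ (HasAntidiagonal.antidiagonal (p - 1)).erase (p - 1, 0),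
      coeff x.1 f * coeff x.2 D with hT
    have hTb : ‖T‖ ≤ ep p := by
      rw [hT]
      apply nsum _ _ _ ep_nonneg
      intro x hx
      rw [mem_erase, HasAntidiagonal.mem_antidiagonal] at hx
      obtain ⟨h1, h2⟩ := hx
      have hx2 : 1 ≤ x.2 := by
        rcases Nat.eq_zero_or_pos x.2 with h0 | h0
        · exfalso
          apply h1
          ext
          · dsimp only; omega
          · exact h0
        · exact h0
      rw [norm_mul]
      calc ‖coeff x.1 f‖ * ‖coeff x.2 D‖ ≤ ep p * 1 :=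
            mul_le_mul (hL1 x.1 (by omega)) (nD _) (norm_nonneg _) ep_nonneg
        _ = ep p := mul_one _
    have e : coeff p N = c * coeff 0 D + T := by
      rw [← h]
    have hnp1 : ‖coeff p N‖ = 1 := by rw [cN]; exact hnpn
    have hlt : ‖-T‖ < ‖coeff p N‖ := by
      rw [norm_neg, hnp1]
      exact lt_of_le_of_lt hTb ep_lt_one
    have e3 : c * coeff 0 D = coeff p N + -T := by rw [e]; ring
    rw [e3, IsUltrametricDist.norm_add_eq_max_of_norm_ne_norm hlt.ne', max_eq_left hlt.le, hnp1]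
  obtain ⟨hc1, hd01⟩ := sq_norm_one hcn (nD 0) hprod
  have hN1a : ‖coeff (p - 1) N1‖ ≤ 1 := by rw [← cN1]; exact nN _
  have hN1b : ∀ i, i ≠ p - 1 → ‖coeff i N1‖ ≤ ep p := by
    intro i hi
    rw [← cN1]
    rcases Nat.lt_or_ge (i + 1) p with h | h
    · exact hNs _ h
    · have : n.coeff (i + 1) = 0 := Polynomial.coeff_eq_zero_of_natDegree_lt (by omega)
      rw [cN, this]
      simpa using ep_nonneg
  have hqb := quot_bound f D N1 hfD hd01 hDs hN1a hN1b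
  have hfs : ∀ i, i ≠ p - 1 → ‖coeff i f‖ ≤ ep p := fun i => (hqb i).2
  have hlast : ‖coeff (2 * p - 1) f‖ ≤ ep p ^ 2 := by
    apply last_bound (by omega) f D N1 hfD hd01 hDs _ hfs
    · rw [← cN1, cN, Polynomial.coeff_eq_zero_of_natDegree_lt (by omega)]
      rfl
    · rw [cD, Polynomial.coeff_eq_zero_of_natDegree_lt (by omega)]
      rfl
  have hL3 := L3 hp5 b hbn hb0 hb1 ρ f (hrel (2 * p - 1)) hfs hcn hlast
  obtain ⟨w, hw⟩ := bb_diff2 p t
  obtain ⟨w', hw'⟩ := At_diff p t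
  have hwq : b (p - 1) = b (2 * p - 1) + p * (w : ℚ_[p]) := by
    have := congrArg (fun x : ℤ_[p] => (x : ℚ_[p])) hw
    simp only [PadicInt.coe_add, PadicInt.coe_mul, bb_cast, PadicInt.coe_natCast] at this
    exact this
  have hAq : At p (t : ℚ_[p]) = 2 * b (p - 1) - b (2 * p - 1) + p ^ 2 * (w' : ℚ_[p]) := by
    have := congrArg (fun x : ℤ_[p] => (x : ℚ_[p])) hw'
    simp only [PadicInt.coe_add, PadicInt.coe_mul, PadicInt.coe_sub, PadicInt.coe_pow, bb_cast,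
      PadicInt.coe_natCast] at this
    have e : ((At p t : ℤ_[p]) : ℚ_[p]) = At p (t : ℚ_[p]) := by
      unfold At
      rw [PadicInt.coe_sum]
      refine sum_congr rfl fun k _ => ?_
      rw [PadicInt.coe_mul, PadicInt.coe_pow, PadicInt.coe_natCast]
    rw [← e, this]
    rfl
  have hfin := fin_comb κ' c (b (p - 1)) (b (2 * p - 1)) (At p (t : ℚ_[p])) w w' hκ'n hc1
    (PadicInt.norm_le_one w) (PadicInt.norm_le_one w') hL2 hL3 hwq hAq
  have hκκ : κ' ^ 2 = (κ : ℚ_[p]) ^ 2 := by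
    rw [hκ', div_pow, hρ2, mul_pow]
    field_simp
  have e : ((κ : ℚ_[p]) * At p (t : ℚ_[p])) ^ 2 - 1 =
      (κ' * At p (t : ℚ_[p]) - 1) * (κ' * At p (t : ℚ_[p]) + 1) := by
    rw [mul_pow, ← hκκ]; ring
  rw [e, norm_mul]
  have hAn : ‖At p (t : ℚ_[p])‖ ≤ 1 := by
    have e : ((At p t : ℤ_[p]) : ℚ_[p]) = At p (t : ℚ_[p]) := by
      unfold At
      rw [PadicInt.coe_sum]
      refine sum_congr rfl fun k _ => ?_
      rw [PadicInt.coe_mul, PadicInt.coe_pow, PadicInt.coe_natCast]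
    rw [← e]
    exact PadicInt.norm_le_one _
  have h1 : ‖κ' * At p (t : ℚ_[p]) + 1‖ ≤ 1 := by
    refine nadd ?_ (by rw [norm_one])
    rw [norm_mul, hκ'n, one_mul]
    exact hAn
  calc ‖κ' * At p (t : ℚ_[p]) - 1‖ * ‖κ' * At p (t : ℚ_[p]) + 1‖ ≤ ep p ^ 2 * 1 :=
        mul_le_mul hfin h1 (norm_nonneg _) (pow_nonneg ep_nonneg 2)
    _ = ep p ^ 2 := mul_one _

end

end Pool.Agent.U851.CM
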