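import Pool.Agent.U851.CM.KeyD

set_option autoImplicit false

/-!
# The truncated sum modulo `p^2` from an isogeny of degree `p`
-/

namespace Pool.Agent.U851.CM

open Finset Polynomial

noncomputable section

variable {p : ℕ} [hp : Fact p.Prime]

theorem lift_poly (q : ℚ_[p][X]) (h : ∀ i, ‖q.coeff i‖ ≤ 1) :
    ∃ q0 : ℤ_[p][X], q0.map (algebraMap ℤ_[p] ℚ_[p]) = q := by
  have : q ∈ lifts (algebraMap ℤ_[p] ℚ_[p]) := by
    rw [lifts_iff_coeff_lifts]
    intro i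
    exact ⟨⟨q.coeff i, h i⟩, rfl⟩
  exact (mem_lifts q).mp this

theorem iota_inj : Function.Injective (algebraMap ℤ_[p] ℚ_[p]) :=
  fun _ _ h => PadicInt.ext h

/-- **The key theorem.** -/
theorem key (hp5 : 5 ≤ p) (t : ℤ_[p]) (ht : ‖t‖ = 1) (π : ℚ_[p]) (hπ : ‖π‖ = ep p)
    (n d : ℚ_[p][X]) (hnp : n.natDegree ≤ p) (hdd : d.natDegree < p)
    (n0 : n.coeff 0 = 0) (d0 : d.coeff 0 ≠ 0)
    (ho : Qe (C (t : ℚ_[p])) X * (derivative n * d - n * derivative d) ^ 2 =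
      C π ^ 2 * (d * (d * (d - n) ^ 2 - 4 * C (t : ℚ_[p]) * n ^ 3))) :
    ‖(π / p * At p (t : ℚ_[p])) ^ 2 - 1‖ ≤ ep p ^ 2 := by
  have hp0 : (p : ℚ_[p]) ≠ 0 := by exact_mod_cast hp.out.ne_zero
  -- a coefficient of maximal norm
  obtain ⟨i0, hi0, hmax⟩ := exists_max_image (range (p + 1)) (fun i => max ‖n.coeff i‖ ‖d.coeff i‖)
    ⟨0, by simp⟩
  obtain ⟨a, ha, hac⟩ : ∃ a : ℚ_[p], ‖a‖ = max ‖n.coeff i0‖ ‖d.coeff i0‖ ∧
      (a = n.coeff i0 ∨ a = d.coeff i0) := by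
    rcases le_total ‖n.coeff i0‖ ‖d.coeff i0‖ with h | h
    · exact ⟨d.coeff i0, (max_eq_right h).symm, Or.inr rfl⟩
    · exact ⟨n.coeff i0, (max_eq_left h).symm, Or.inl rfl⟩
  have hnb : ∀ i, ‖n.coeff i‖ ≤ ‖a‖ := by
    intro i
    rcases Nat.lt_or_ge i (p + 1) with h | h
    · rw [ha]; exact (le_max_left _ _).trans (hmax i (mem_range.mpr h))
    · rw [coeff_eq_zero_of_natDegree_lt (by omega), norm_zero]; exact norm_nonneg _
  have hdb : ∀ i, ‖d.coeff i‖ ≤ ‖a‖ := by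
    intro i
    rcases Nat.lt_or_ge i (p + 1) with h | h
    · rw [ha]; exact (le_max_right _ _).trans (hmax i (mem_range.mpr h))
    · rw [coeff_eq_zero_of_natDegree_lt (by omega), norm_zero]; exact norm_nonneg _
  have ha0 : a ≠ 0 := by
    intro h
    have := hdb 0
    rw [h, norm_zero] at this
    exact d0 (norm_le_zero_iff.mp this)
  have han : 0 < ‖a‖ := norm_pos_iff.mpr ha0
  obtain ⟨n1, hn1⟩ := lift_poly (C a⁻¹ * n) (by
    intro i
    rw [coeff_C_mul, norm_mul, norm_inv, inv_mul_le_iff₀ han, mul_one]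
    exact hnb i)
  obtain ⟨d1, hd1⟩ := lift_poly (C a⁻¹ * d) (by
    intro i
    rw [coeff_C_mul, norm_mul, norm_inv, inv_mul_le_iff₀ han, mul_one]
    exact hdb i)
  obtain ⟨κ, hκ⟩ : ∃ κ : ℤ_[p], (κ : ℚ_[p]) = π / p := by
    refine ⟨⟨π / p, ?_⟩, rfl⟩
    rw [norm_div, hπ, Padic.norm_p]
    unfold ep
    rw [div_self]
    have : (p : ℝ) ≠ 0 := by exact_mod_cast hp.out.ne_zero
    positivity
  have hκn : ‖κ‖ = 1 := by
    rw [PadicInt.norm_def, hκ, norm_div, hπ, Padic.norm_p]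
    unfold ep
    rw [div_self]
    have : (p : ℝ) ≠ 0 := by exact_mod_cast hp.out.ne_zero
    positivity
  have cn1 : ∀ i, ((n1.coeff i : ℤ_[p]) : ℚ_[p]) = a⁻¹ * n.coeff i := by
    intro i
    have := congrArg (fun q => q.coeff i) hn1
    simp only [coeff_map, coeff_C_mul] at this
    exact this
  have cd1 : ∀ i, ((d1.coeff i : ℤ_[p]) : ℚ_[p]) = a⁻¹ * d.coeff i := by
    intro i
    have := congrArg (fun q => q.coeff i) hd1
    simp only [coeff_map, coeff_C_mul] at this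
    exact this
  rw [← hκ]
  apply keyInt hp5 t κ ht hκn n1 d1
  · rw [← natDegree_map_eq_of_injective iota_inj n1, hn1]
    exact (natDegree_C_mul_le _ _).trans hnp
  · rw [← natDegree_map_eq_of_injective iota_inj d1, hd1]
    exact lt_of_le_of_lt (natDegree_C_mul_le _ _) hdd
  · apply PadicInt.ext
    rw [cn1, n0, mul_zero]
    rfl
  · rw [← PadicInt.coe_ne_zero, cd1]
    exact mul_ne_zero (inv_ne_zero ha0) d0
  · rcases hac with h | h
    · left
      refine ⟨i0, ?_⟩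
      rw [PadicInt.norm_def, cn1, ← h, inv_mul_cancel₀ ha0, norm_one]
    · right
      refine ⟨i0, ?_⟩
      rw [PadicInt.norm_def, cd1, ← h, inv_mul_cancel₀ ha0, norm_one]
  · apply map_injective _ iota_inj
    simp only [Polynomial.map_mul, Polynomial.map_pow, Polynomial.map_sub, Polynomial.map_C,
      Qe_map, ← derivative_map, hn1, hd1, Polynomial.map_ofNat, derivative_C_mul, map_natCast,
      Polynomial.map_natCast]
    have e1 : (algebraMap ℤ_[p] ℚ_[p]) κ = π / p := hκ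
    have e2 : (algebraMap ℤ_[p] ℚ_[p]) t = (t : ℚ_[p]) := rfl
    rw [e1, e2]
    have e3 : (C (p : ℚ_[p])) ^ 2 * C (π / p) ^ 2 = C π ^ 2 := by
      rw [← mul_pow, ← C_mul, mul_div_cancel₀ _ hp0]
    have e4 : ((C (p : ℚ_[p])) : ℚ_[p][X]) = (p : ℚ_[p][X]) := by simp
    rw [e4] at e3
    first
      | linear_combination (C a⁻¹ ^ 4) * ho - (C a⁻¹ ^ 4 *
          (d * (d * (d - n) ^ 2 - 4 * C (t : ℚ_[p]) * n ^ 3))) * e3

end

end Pool.Agent.U851.CM
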