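import Mathlib

set_option autoImplicit false

/-!
# The expansion of `((1 - z)^2 - 4 t z^3)^(-1/2)`
-/

namespace Pool.Agent.U851.CM

open Finset

/-- the coefficient of `t^j` in the coefficient of `z^m` -/
def cf (m j : ℕ) : ℕ := (2 * j).choose j * (m - j).choose (2 * j)

theorem cf_big (m j : ℕ) (h : m < j) : cf m j = 0 := by
  unfold cf
  have h2 : (0 : ℕ).choose (2 * j) = 0 := Nat.choose_eq_zero_of_lt (by omega)
  rw [Nat.sub_eq_zero_of_le h.le, h2, mul_zero]

theorem cf_zero (m : ℕ) : cf m 0 = 1 := by simp [cf]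

/-- the recurrence for the coefficients -/
theorem cf_rec (m j : ℕ) : ((m : ℤ) + 3) * cf (m + 3) (j + 1) + (m + 2) * cf (m + 1) (j + 1) =
    (2 * m + 5) * cf (m + 2) (j + 1) + (4 * m + 6) * cf m j := by
  rcases lt_or_ge m j with h | h
  · rw [cf_big m j h, cf_big (m + 1) (j + 1) (by omega)]
    rcases Nat.lt_or_ge (m + 1) j with h' | h'
    · rcases Nat.lt_or_ge (m + 2) j with h'' | h''
      · rw [cf_big (m + 3) (j + 1) (by omega), cf_big (m + 2) (j + 1) (by omega)]
        simp
      · rw [cf_big (m + 2) (j + 1) (by omega)]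
        have : cf (m + 3) (j + 1) = 0 := by
          unfold cf
          rw [Nat.choose_eq_zero_of_lt (show m + 3 - (j + 1) < 2 * (j + 1) by omega), mul_zero]
        rw [this]
        simp
    · have h1 : cf (m + 3) (j + 1) = 0 := by
        unfold cf
        rw [Nat.choose_eq_zero_of_lt (show m + 3 - (j + 1) < 2 * (j + 1) by omega), mul_zero]
      have h2 : cf (m + 2) (j + 1) = 0 := by
        unfold cf
        rw [Nat.choose_eq_zero_of_lt (show m + 2 - (j + 1) < 2 * (j + 1) by omega), mul_zero]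
      rw [h1, h2]
      simp
  · obtain ⟨n, rfl⟩ : ∃ n, m = n + j := ⟨m - j, by omega⟩
    unfold cf
    have e3 : n + j + 3 - (j + 1) = n + 2 := by omega
    have e1 : n + j + 1 - (j + 1) = n := by omega
    have e2 : n + j + 2 - (j + 1) = n + 1 := by omega
    have e0 : n + j - j = n := by omega
    rw [e3, e1, e2, e0]
    have k1 : (n + 1).choose (2 * (j + 1)) = n.choose (2 * j + 1) + n.choose (2 * (j + 1)) := by
      rw [show 2 * (j + 1) = (2 * j + 1) + 1 by ring, Nat.choose_succ_succ]
    have k2 : (n + 2).choose (2 * (j + 1)) =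
        n.choose (2 * j) + 2 * n.choose (2 * j + 1) + n.choose (2 * (j + 1)) := by
      rw [show 2 * (j + 1) = (2 * j + 1) + 1 by ring, Nat.choose_succ_succ, Nat.choose_succ_succ,
        Nat.choose_succ_succ]
      ring
    have k3 : ((n.choose (2 * j + 1) : ℕ) : ℤ) * (2 * j + 1) = (n.choose (2 * j) : ℕ) * (n - 2 * j) := by
      rcases le_or_gt (2 * j) n with h' | h'
      · have := Nat.choose_succ_right_eq n (2 * j)
        zify [h'] at this
        linarith
      · rw [Nat.choose_eq_zero_of_lt h', Nat.choose_eq_zero_of_lt (show n < 2 * j + 1 by omega)]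
        simp
    have k4 : (((2 * (j + 1)).choose (j + 1) : ℕ) : ℤ) * (j + 1) =
        (4 * j + 2) * ((2 * j).choose j : ℕ) := by
      have := Nat.succ_mul_centralBinom_succ j
      unfold Nat.centralBinom at this
      zify at this
      linear_combination this
    rw [k1, k2]
    push_cast
    have hj : ((j : ℤ) + 1) ≠ 0 := by positivity
    apply mul_left_cancel₀ hj
    push_cast at k3 k4 ⊢
    linear_combination ((n + j + 3 : ℤ) * ((n.choose (2 * j) : ℕ) + 2 * (n.choose (2 * j + 1) : ℕ) +
      (n.choose (2 * (j + 1)) : ℕ)) + (n + j + 2) * (n.choose (2 * (j + 1)) : ℕ) -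
      (2 * (n + j) + 5) * ((n.choose (2 * j + 1) : ℕ) + (n.choose (2 * (j + 1)) : ℕ))) * k4 +
      2 * ((2 * j).choose j : ℕ) * k3

section ring

variable {R : Type*} [CommRing R]

/-- the coefficients of the expansion -/
def bb (t : R) (m : ℕ) : R := ∑ j ∈ range (m + 1), (cf m j : R) * t ^ j

theorem bb_ext (t : R) (m M : ℕ) (h : m < M) : ∑ j ∈ range M, (cf m j : R) * t ^ j = bb t m := by
  unfold bb
  symm
  apply sum_subset
  · intro x hx
    rw [mem_range] at hx ⊢
    omega
  · intro x _ hx
    rw [mem_range] at hx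
    rw [cf_big m x (by omega)]
    simp

theorem bb_zero (t : R) : bb t 0 = 1 := by simp [bb, cf]

theorem bb_one (t : R) : bb t 1 = 1 := by simp [bb, cf, sum_range_succ]

theorem bb_two (t : R) : bb t 2 = 1 := by
  simp [bb, cf, sum_range_succ, Nat.choose]

theorem bb_rec (t : R) (m : ℕ) : ((m : R) + 3) * bb t (m + 3) + (m + 2) * bb t (m + 1) =
    (2 * m + 5) * bb t (m + 2) + (4 * m + 6) * (t * bb t m) := by
  rw [← bb_ext t (m + 3) (m + 3 + 1) (by omega), ← bb_ext t (m + 1) (m + 3 + 1) (by omega),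
    ← bb_ext t (m + 2) (m + 3 + 1) (by omega), ← bb_ext t m (m + 3) (by omega)]
  rw [sum_range_succ' _ (m + 3), sum_range_succ' _ (m + 3), sum_range_succ' _ (m + 3), cf_zero,
    cf_zero, cf_zero]
  have key : ((m : R) + 3) * (∑ j ∈ range (m + 3), (cf (m + 3) (j + 1) : R) * t ^ (j + 1)) +
      (m + 2) * (∑ j ∈ range (m + 3), (cf (m + 1) (j + 1) : R) * t ^ (j + 1)) =
      (2 * m + 5) * (∑ j ∈ range (m + 3), (cf (m + 2) (j + 1) : R) * t ^ (j + 1)) +
      (4 * m + 6) * (t * ∑ j ∈ range (m + 3), (cf m j : R) * t ^ j) := by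
    simp only [mul_sum, ← sum_add_distrib]
    refine sum_congr rfl fun j _ => ?_
    have h := congrArg (Int.cast (R := R)) (cf_rec m j)
    push_cast at h
    rw [pow_succ]
    linear_combination (t ^ j * t) * h
  linear_combination key

end ring

end Pool.Agent.U851.CM
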