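import Pool.Agent.Q267.MW.D8
import Pool.Agent.Q267.MW.Sgn
import Pool.Agent.U851.CM.Ser

set_option autoImplicit false

/-!
# The first coordinate of a point near a point of order three
-/

namespace Pool.Agent.U851.CM

open Polynomial WeierstrassCurve WeierstrassCurve.Affine WithZero Pool.Agent.Q267.MW

variable {F : Type*} [Field F]

noncomputable section

/-- the polynomial form of the differential equation -/
theorem point_ode {a b π : F} {x y : RatFunc F} (h : (TW a b).Nonsingular x y)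
    (hg : Good π (Point.some x y h)) {n d : F[X]} (hn : n = (x / io (fp a b)).num)
    (hd : d = (x / io (fp a b)).denom) :
    fp a b * (derivative n * d - n * derivative d) ^ 2 =
      C π ^ 2 * (d * (n ^ 3 + C a * n * d ^ 2 + C b * d ^ 3)) := by
  obtain ⟨-, hr⟩ := (good_some h).mp hg
  have he := tw_eqn h
  have hd0 : d ≠ 0 := by rw [hd]; exact RatFunc.denom_ne_zero _
  have hx : x / io (fp a b) = io n / io d := by rw [hn, hd]; exact (RatFunc.num_div_denom _).symm
  rw [hx] at hr he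
  rw [rd_div _ _ hd0] at hr
  have hdk := io_ne hd0
  apply io_inj
  simp only [map_mul, map_pow, map_sub, map_add]
  have h1 : io (derivative n) * io d - io n * io (derivative d) =
      io (C π) * (y / io (fp a b) ^ 2) * io d ^ 2 := by
    rw [← hr]
    field_simp
  rw [h1]
  have h2 : io (fp a b) * (io (C π) * (y / io (fp a b) ^ 2) * io d ^ 2) ^ 2 =
      io (C π) ^ 2 * io d ^ 4 * (io (fp a b) * (y / io (fp a b) ^ 2) ^ 2) := by ring
  rw [h2, he]
  field_simp

/-- the first coordinate takes at `e` the value `e` -/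
def Near {a b : F} (e : F) : (TW a b).Point → Prop
  | .zero => False
  | .some x _ _ => vx e (x / io (fp a b) - io X) < 1

theorem near_neg {a b e : F} {P : (TW a b).Point} (h : Near e P) : Near e (-P) := by
  cases P with
  | zero => exact h
  | some x y hxy => exact h

theorem near_quad (a b e : F) {X2 X3 : RatFunc F} (h1 : 1 < vx e X2)
    (h : (io X - X2) ^ 2 * X3 ^ 2 - (2 * ((io X + X2) * (io X * X2 + io (C a)) + 2 * io (C b))) * X3
      + ((io X * X2 - io (C a)) ^ 2 - 4 * io (C b) * (io X + X2)) = 0) :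
    vx e (X3 - io X) < 1 := by
  set v := vx e with hv
  have hX20 : X2 ≠ 0 := by
    rintro rfl
    rw [map_zero] at h1
    exact absurd h1 (not_lt.mpr zero_le_one)
  set u := X2⁻¹ with hu
  have hvu : v u < 1 := by
    rw [hu, map_inv₀]
    exact inv_lt_one_of_one_lt₀ h1
  have hvT : v (io X) ≤ 1 := vx_le e X
  have hva : v (io (C a)) ≤ 1 := vx_C_le e a
  have hvb : v (io (C b)) ≤ 1 := vx_C_le e b
  have hv2 : v (2 : RatFunc F) ≤ 1 := by
    have : (2 : RatFunc F) = io (C 2) := by rw [map_ofNat, map_ofNat]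
    rw [this]; exact vx_C_le e 2
  have hv4 : v (4 : RatFunc F) ≤ 1 := by
    have : (4 : RatFunc F) = io (C 4) := by rw [map_ofNat, map_ofNat]
    rw [this]; exact vx_C_le e 4
  set T := io (X : F[X]) with hT
  set A := io (C a) with hA
  set B := io (C b) with hB
  have hw : X2 * u = 1 := mul_inv_cancel₀ hX20
  have hquad : (1 - T * u) ^ 2 * X3 ^ 2 - 2 * ((T * u + 1) * (T + A * u) + 2 * B * u ^ 2) * X3
      + ((T - A * u) ^ 2 - 4 * B * u * (T * u + 1)) = 0 := by
    have : (1 - T * u) ^ 2 * X3 ^ 2 - 2 * ((T * u + 1) * (T + A * u) + 2 * B * u ^ 2) * X3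
      + ((T - A * u) ^ 2 - 4 * B * u * (T * u + 1)) = u ^ 2 *
      ((T - X2) ^ 2 * X3 ^ 2 - (2 * ((T + X2) * (T * X2 + A) + 2 * B)) * X3
      + ((T * X2 - A) ^ 2 - 4 * B * (T + X2))) := by
      have hX2 : X2 = u⁻¹ := by rw [hu, inv_inv]
      have hu0 : u ≠ 0 := inv_ne_zero hX20
      rw [hX2]
      field_simp
      ring
    rw [this, h, mul_zero]
  -- integrality of X3
  have m1 : ∀ {x y : RatFunc F}, v x ≤ 1 → v y ≤ 1 → v (x * y) ≤ 1 := by
    intro x y hx hy
    rw [map_mul]
    exact mul_le_one' hx hy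
  have s1 : ∀ {x y : RatFunc F}, v x ≤ 1 → v y ≤ 1 → v (x + y) ≤ 1 := fun hx hy => v.map_add_le hx hy
  have d1 : ∀ {x y : RatFunc F}, v x ≤ 1 → v y ≤ 1 → v (x - y) ≤ 1 := by
    intro x y hx hy
    exact (v.map_sub x y).trans (max_le hx hy)
  have p1 : ∀ {x : RatFunc F} (k : ℕ), v x ≤ 1 → v (x ^ k) ≤ 1 := by
    intro x k hx
    rw [map_pow]
    exact pow_le_one' hx k
  have v1 : v (1 : RatFunc F) ≤ 1 := by rw [map_one]
  have hvu' := hvu.le
  have hTu : v (T * u) < 1 := by
    rw [map_mul]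
    exact lt_of_le_of_lt (mul_le_of_le_one_left' hvT) hvu
  have hlead : v ((1 - T * u) ^ 2) = 1 := by
    rw [map_pow, v.map_sub_eq_of_lt_left (by rw [map_one]; exact hTu), map_one, one_pow]
  have hs : v (2 * ((T * u + 1) * (T + A * u) + 2 * B * u ^ 2)) ≤ 1 :=
    m1 hv2 (s1 (m1 (s1 hTu.le v1) (s1 hvT (m1 hva hvu'))) (m1 (m1 hv2 hvb) (p1 2 hvu')))
  have hc : v ((T - A * u) ^ 2 - 4 * B * u * (T * u + 1)) ≤ 1 :=
    d1 (p1 2 (d1 hvT (m1 hva hvu'))) (m1 (m1 (m1 hv4 hvb) hvu') (s1 hTu.le v1))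
  have hX3 : v X3 ≤ 1 := by
    by_contra hcon
    push Not at hcon
    have e1 : (1 - T * u) ^ 2 * X3 ^ 2 = 2 * ((T * u + 1) * (T + A * u) + 2 * B * u ^ 2) * X3
      - ((T - A * u) ^ 2 - 4 * B * u * (T * u + 1)) := by linear_combination hquad
    have e2 := congrArg v e1
    rw [map_mul, hlead, one_mul, map_pow] at e2
    have e3 : v (2 * ((T * u + 1) * (T + A * u) + 2 * B * u ^ 2) * X3
      - ((T - A * u) ^ 2 - 4 * B * u * (T * u + 1))) ≤ v X3 := by
      refine (v.map_sub _ _).trans (max_le ?_ (hc.trans hcon.le))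
      rw [map_mul]
      exact mul_le_of_le_one_left' hs
    rw [← e2] at e3
    have e4 : v X3 < v X3 ^ 2 := by
      rw [pow_two]
      exact lt_mul_of_one_lt_right (lt_trans zero_lt_one hcon) hcon
    exact absurd e3 (not_le.mpr e4)
  -- the difference
  have e5 : (X3 - T) ^ 2 = u * (-((T ^ 2 * u - 2 * T) * X3 ^ 2) +
      2 * (T * (T + A * u) + A + 2 * B * u) * X3 - (A ^ 2 * u - 2 * T * A - 4 * B * (T * u + 1))) := by
    linear_combination hquad
  have e6 : v ((X3 - T) ^ 2) < 1 := by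
    rw [e5, map_mul]
    refine mul_lt_one_of_lt_of_le hvu ?_
    refine d1 (s1 ?_ ?_) ?_
    · rw [Valuation.map_neg]
      exact m1 (d1 (m1 (p1 2 hvT) hvu') (m1 hv2 hvT)) (p1 2 hX3)
    · exact m1 (m1 hv2 (s1 (s1 (m1 hvT (s1 hvT (m1 hva hvu'))) hva) (m1 (m1 hv2 hvb) hvu'))) hX3
    · exact d1 (d1 (m1 (p1 2 hva) hvu') (m1 (m1 hv2 hvT) hva))
        (m1 (m1 hv4 hvb) (s1 hTu.le v1))
  rw [map_pow] at e6
  by_contra hcon
  push Not at hcon
  exact absurd e6 (not_lt.mpr (one_le_pow_of_one_le' hcon 2))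

open Classical in
theorem near_add {a b e : F} (h2 : (2 : F) ≠ 0) (hΔ : 4 * a ^ 3 + 27 * b ^ 2 ≠ 0)
    {K : (TW a b).Point} (hK : Ker (vx e) K) : Near e (pt h2 hΔ (P0_eq a b) + K) := by
  have hf := fk_ne a b
  cases K with
  | zero =>
    rw [show (Point.zero : (TW a b).Point) = 0 from rfl, add_zero]
    show vx e (io (fp a b) * io X / io (fp a b) - io X) < 1
    rw [pt_X, sub_self, map_zero]
    exact zero_lt_one
  | some x y hxy =>
    rw [ker_some] at hK
    have he := tw_eqn hxy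
    have hne : io (X : F[X]) ≠ x / io (fp a b) := by
      intro h
      rw [← h] at hK
      exact absurd (vx_le e X) (not_le.mpr hK)
    have hxx : io (fp a b) * io X ≠ x := by
      intro h
      apply hne
      rw [← h]
      field_simp
    unfold pt
    rw [Point.add_of_X_ne hxx]
    show vx e ((TW a b).addX (io (fp a b) * io X) x ((TW a b).slope (io (fp a b) * io X) x
      (io (fp a b) ^ 2 * 1) y) / io (fp a b) - io X) < 1
    have ex : x = io (fp a b) * (x / io (fp a b)) := by field_simp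
    have ey : y = io (fp a b) ^ 2 * (y / io (fp a b) ^ 2) := by field_simp
    have h3 := addX_eq (a := a) (b := b) (Y1 := 1) (Y2 := y / io (fp a b) ^ 2) hne
    rw [← ex, ← ey] at h3
    rw [h3]
    apply near_quad a b e hK
    exact add_quad _ _ _ _ _ _ _ _ (sub_ne_zero.mpr hne) (P0_eq a b) he rfl

/-- extraction of the value -/
theorem near_eval {a b e : F} {x y : RatFunc F} (h : (TW a b).Nonsingular x y)
    (hn : Near e (Point.some x y h)) :
    (x / io (fp a b)).num.eval e = e * (x / io (fp a b)).denom.eval e ∧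
      (x / io (fp a b)).denom.eval e ≠ 0 := by
  set n := (x / io (fp a b)).num with hnd
  set d := (x / io (fp a b)).denom with hdd
  have hd0 : d ≠ 0 := RatFunc.denom_ne_zero _
  have hx : x / io (fp a b) = io n / io d := (RatFunc.num_div_denom _).symm
  have hn' : vx e (x / io (fp a b) - io X) < 1 := hn
  have hdk := io_ne hd0
  have e1 : io (n - X * d) = (x / io (fp a b) - io X) * io d := by
    rw [hx, map_sub, map_mul]
    field_simp
  have e2 : vx e (io (n - X * d)) < 1 := by
    rw [e1, map_mul]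
    exact mul_lt_one_of_lt_of_le hn' (vx_le e d)
  rw [vx_lt, eval_sub, eval_mul, eval_X, sub_eq_zero] at e2
  refine ⟨e2, ?_⟩
  intro h0
  rw [h0, mul_zero] at e2
  have hc := RatFunc.isCoprime_num_denom (x / io (fp a b))
  obtain ⟨r, s, hrs⟩ := hc
  have := congrArg (eval e) hrs
  rw [eval_add, eval_mul, eval_mul, ← hnd, ← hdd, e2, h0, mul_zero, mul_zero, add_zero,
    eval_one] at this
  exact zero_ne_one this

end

end Pool.Agent.U851.CM
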