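import Pool.Agent.U851.CM.Ser

set_option autoImplicit false

/-!
# The power series `((1 - z)^2 - 4 t z^3)^(-1/2)` and pull-backs of the differential
-/

namespace Pool.Agent.U851.CM

open Finset PowerSeries

noncomputable section

section ring

variable {R : Type*} [CommRing R]

/-- the cubic, at an element of an algebra -/
def Qe {A : Type*} [CommRing A] (t z : A) : A := (1 - z) ^ 2 - 4 * t * z ^ 3

theorem coe_four : ((4 : Polynomial R) : PowerSeries R) = 4 := by
  have : (4 : Polynomial R) = Polynomial.C 4 := by rw [map_ofNat]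
  rw [this, Polynomial.coe_C, map_ofNat]

/-- the power series -/
def gs (t : R) : PowerSeries R := PowerSeries.mk (bb t)

theorem bb_map {S : Type*} [CommRing S] (f : R →+* S) (t : R) (m : ℕ) :
    f (bb t m) = bb (f t) m := by
  unfold bb
  rw [map_sum]
  refine sum_congr rfl fun j _ => ?_
  rw [map_mul, map_pow, map_natCast]

theorem gs_ode (t : R) : 2 * Qe (C t) X * d⁄dX R (gs t) +
    (-2 + 2 * X - 12 * C t * X ^ 2) * gs t = 0 := by
  have e1 : 2 * Qe (C t) X * d⁄dX R (gs t) + (-2 + 2 * X - 12 * C t * X ^ 2) * gs t =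
      C (2 : R) * d⁄dX R (gs t) - C (4 : R) * (X * d⁄dX R (gs t)) +
      C (2 : R) * (X ^ 2 * d⁄dX R (gs t)) -
      C (8 * t) * (X ^ 3 * d⁄dX R (gs t)) - C (2 : R) * gs t + C (2 : R) * (X * gs t) -
      C (12 * t) * (X ^ 2 * gs t) := by
    unfold Qe
    simp only [map_mul, map_ofNat]
    ring
  rw [e1]
  ext n
  simp only [map_add, map_sub, coeff_C_mul, map_zero]
  rcases n with _ | _ | n
  · have h0 : (coeff 0) (X * d⁄dX R (gs t)) = 0 := coeff_zero_X_mul _
    have h1 : (coeff 0) (X ^ 2 * d⁄dX R (gs t)) = 0 := by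
      rw [pow_two, mul_assoc]; exact coeff_zero_X_mul _
    have h2 : (coeff 0) (X ^ 3 * d⁄dX R (gs t)) = 0 := by
      rw [pow_succ', mul_assoc]; exact coeff_zero_X_mul _
    have h3 : (coeff 0) (X * gs t) = 0 := coeff_zero_X_mul _
    have h4 : (coeff 0) (X ^ 2 * gs t) = 0 := by
      rw [pow_two, mul_assoc]; exact coeff_zero_X_mul _
    rw [h0, h1, h2, h3, h4, coeff_derivative]
    unfold gs
    rw [coeff_mk, coeff_mk, bb_one, bb_zero]
    push_cast
    ring
  · have h0 : (coeff (0 + 1)) (X * d⁄dX R (gs t)) = coeff 0 (d⁄dX R (gs t)) := coeff_succ_X_mul _ _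
    have h1 : (coeff (0 + 1)) (X ^ 2 * d⁄dX R (gs t)) = 0 := by
      rw [pow_two, mul_assoc, coeff_succ_X_mul]; exact coeff_zero_X_mul _
    have h2 : (coeff (0 + 1)) (X ^ 3 * d⁄dX R (gs t)) = 0 := by
      rw [pow_succ', mul_assoc, coeff_succ_X_mul, pow_succ', mul_assoc]; exact coeff_zero_X_mul _
    have h3 : (coeff (0 + 1)) (X * gs t) = coeff 0 (gs t) := coeff_succ_X_mul _ _
    have h4 : (coeff (0 + 1)) (X ^ 2 * gs t) = 0 := by
      rw [pow_two, mul_assoc, coeff_succ_X_mul]; exact coeff_zero_X_mul _
    rw [h0, h1, h2, h3, h4, coeff_derivative, coeff_derivative]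
    unfold gs
    rw [coeff_mk, coeff_mk, coeff_mk, bb_one, bb_zero, bb_two]
    push_cast
    ring
  · have h0 : (coeff (n + 1 + 1)) (X * d⁄dX R (gs t)) = coeff (n + 1) (d⁄dX R (gs t)) :=
      coeff_succ_X_mul _ _
    have h1 : (coeff (n + 1 + 1)) (X ^ 2 * d⁄dX R (gs t)) = coeff n (d⁄dX R (gs t)) := by
      rw [pow_two, mul_assoc, coeff_succ_X_mul, coeff_succ_X_mul]
    have h3 : (coeff (n + 1 + 1)) (X * gs t) = coeff (n + 1) (gs t) := coeff_succ_X_mul _ _
    have h4 : (coeff (n + 1 + 1)) (X ^ 2 * gs t) = coeff n (gs t) := by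
      rw [pow_two, mul_assoc, coeff_succ_X_mul, coeff_succ_X_mul]
    have h2 : (coeff (n + 1 + 1)) (X ^ 3 * d⁄dX R (gs t)) = n * bb t n := by
      rw [pow_succ', mul_assoc, coeff_succ_X_mul, pow_two, mul_assoc, coeff_succ_X_mul]
      cases n with
      | zero => rw [coeff_zero_X_mul]; simp
      | succ k =>
        rw [coeff_succ_X_mul, coeff_derivative]
        unfold gs
        rw [coeff_mk]
        push_cast
        ring
    rw [h0, h1, h2, h3, h4, coeff_derivative, coeff_derivative, coeff_derivative]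
    unfold gs
    rw [coeff_mk, coeff_mk, coeff_mk, coeff_mk]
    have := bb_rec t n
    push_cast
    linear_combination 2 * this

theorem gs_sq_aux (t : R) [IsAddTorsionFree R] : gs t ^ 2 * Qe (C t) X = 1 := by
  apply PowerSeries.derivative.ext
  · rw [Derivation.leibniz, Derivation.leibniz_pow]
    have hQ : d⁄dX R (Qe (C t) X) = -2 + 2 * X - 12 * C t * X ^ 2 := by
      unfold Qe
      have e : ((1 - X) ^ 2 - 4 * C t * X ^ 3 : PowerSeries R) =
        ((1 - Polynomial.X) ^ 2 - Polynomial.C (4 * t) * Polynomial.X ^ 3 : Polynomial R) := by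
        simp [map_ofNat, coe_four]
      rw [e, derivative_coe]
      simp only [Polynomial.derivative_sub, Polynomial.derivative_pow, Polynomial.derivative_one,
        Polynomial.derivative_X, Polynomial.derivative_mul, Polynomial.derivative_C]
      push_cast
      simp only [map_mul, map_ofNat]
      ring
    rw [hQ, Derivation.map_one_eq_zero]
    have h := gs_ode t
    simp only [smul_eq_mul, nsmul_eq_mul]
    push_cast
    linear_combination gs t * h
  · unfold gs Qe
    rw [map_mul, map_pow, map_sub, map_pow, map_sub, map_mul, map_pow]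
    simp only [constantCoeff_X, map_one]
    rw [← coeff_zero_eq_constantCoeff_apply, coeff_mk, bb_zero]
    ring

theorem gs_sq (t : R) : gs t ^ 2 * Qe (C t) X = 1 := by
  have h := gs_sq_aux (Polynomial.X : Polynomial ℤ)
  have h' := congrArg (PowerSeries.map (Polynomial.eval₂RingHom (Int.castRingHom R) t)) h
  rw [map_mul, map_pow, map_one] at h'
  have e1 : PowerSeries.map (Polynomial.eval₂RingHom (Int.castRingHom R) t)
      (gs (Polynomial.X : Polynomial ℤ)) = gs t := by
    ext n
    unfold gs
    rw [coeff_map, coeff_mk, coeff_mk, bb_map]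
    congr 1
    simp
  have e2 : PowerSeries.map (Polynomial.eval₂RingHom (Int.castRingHom R) t)
      (Qe (C (Polynomial.X : Polynomial ℤ)) X) = Qe (C t) X := by
    unfold Qe
    rw [map_sub, map_mul, map_mul, map_ofNat]
    simp
  rw [e1, e2] at h'
  exact h'

/-- truncated series, as a polynomial -/
def gp (t : R) (N : ℕ) : Polynomial R := ∑ m ∈ range N, Polynomial.monomial m (bb t m)

theorem gp_coeff (t : R) (N m : ℕ) : (gp t N).coeff m = if m < N then bb t m else 0 := by
  unfold gp
  rw [Polynomial.finsetSum_coeff]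
  simp only [Polynomial.coeff_monomial]
  by_cases h : m < N
  · rw [if_pos h, sum_eq_single m]
    · simp
    · intro b _ hb
      rw [if_neg hb]
    · intro h'
      exact absurd (mem_range.mpr h) h'
  · rw [if_neg h]
    apply sum_eq_zero
    intro x hx
    rw [mem_range] at hx
    rw [if_neg (by omega)]

theorem gp_sq (t : R) (N : ℕ) : ∃ H : Polynomial R,
    gp t N ^ 2 * Qe (Polynomial.C t) Polynomial.X = 1 + Polynomial.X ^ N * H := by
  have h1 : (X : PowerSeries R) ^ N ∣ gs t - (gp t N : PowerSeries R) := by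
    rw [PowerSeries.X_pow_dvd_iff]
    intro m hm
    rw [map_sub, Polynomial.coeff_coe, gp_coeff, if_pos hm]
    unfold gs
    rw [coeff_mk, sub_self]
  have h2 : (X : PowerSeries R) ^ N ∣
      ((gp t N ^ 2 * Qe (Polynomial.C t) Polynomial.X - 1 : Polynomial R) : PowerSeries R) := by
    have e : ((gp t N ^ 2 * Qe (Polynomial.C t) Polynomial.X - 1 : Polynomial R) : PowerSeries R) =
        -((gs t - (gp t N : PowerSeries R)) * ((gs t + (gp t N : PowerSeries R)) *
          Qe (C t) X)) := by
      have h3 := gs_sq t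
      have e2 : ((Qe (Polynomial.C t) Polynomial.X : Polynomial R) : PowerSeries R) =
          Qe (C t) X := by
        unfold Qe
        simp [coe_four]
      rw [Polynomial.coe_sub, Polynomial.coe_mul, Polynomial.coe_pow, e2, Polynomial.coe_one]
      linear_combination h3
    rw [e]
    exact (h1.mul_right _).neg_right
  have h3 : (Polynomial.X : Polynomial R) ^ N ∣
      (gp t N ^ 2 * Qe (Polynomial.C t) Polynomial.X - 1 : Polynomial R) := by
    rw [Polynomial.X_pow_dvd_iff]
    intro d hd
    rw [PowerSeries.X_pow_dvd_iff] at h2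
    have := h2 d hd
    rwa [Polynomial.coeff_coe] at this
  obtain ⟨H, hH⟩ := h3
  exact ⟨H, by linear_combination hH⟩

end ring

section field

variable {K : Type*} [Field K]

/-- **Pull-back of the differential.** -/
theorem lemS (h2 : (2 : K) ≠ 0) (t ρ : K) (S : PowerSeries K) (h0 : constantCoeff S = 0)
    (h1 : coeff 1 S = ρ) (hρ : ρ ≠ 0)
    (ho : Qe (C t) X * (d⁄dX K S) ^ 2 = C ρ ^ 2 * Qe (C t) S) (N : ℕ) :
    (X : PowerSeries K) ^ N ∣ Polynomial.aeval S (gp t N) * d⁄dX K S - C ρ * gs t := by
  obtain ⟨H, hH⟩ := gp_sq t N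
  have hH' := congrArg (Polynomial.aeval S) hH
  have e2 : Polynomial.aeval S (Qe (Polynomial.C t) Polynomial.X : Polynomial K) =
      Qe (C t) S := by
    unfold Qe
    simp only [map_sub, map_mul, map_pow, Polynomial.aeval_X, map_one, map_ofNat,
      Polynomial.aeval_C]
    rfl
  rw [map_mul, map_pow, e2, map_add, map_one, map_mul, map_pow, Polynomial.aeval_X] at hH'
  have h3 := gs_sq t
  set G := Polynomial.aeval S (gp t N) with hG
  set D := d⁄dX K S with hD
  have hXS : (X : PowerSeries K) ∣ S := X_dvd_iff.mpr h0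
  have hdiv : (X : PowerSeries K) ^ N ∣ (G * D - C ρ * gs t) * (G * D + C ρ * gs t) := by
    have hu : (G * D - C ρ * gs t) * (G * D + C ρ * gs t) =
        S ^ N * (Polynomial.aeval S H * C ρ ^ 2 * gs t ^ 2) := by
      linear_combination (-(G ^ 2 * D ^ 2)) * h3 + (gs t ^ 2 * G ^ 2) * ho +
        (C ρ ^ 2 * gs t ^ 2) * hH'
    rw [hu]
    exact (pow_dvd_pow_of_dvd hXS N).mul_right _
  have hunit : IsUnit (G * D + C ρ * gs t) := by
    rw [PowerSeries.isUnit_iff_constantCoeff]
    rcases Nat.eq_zero_or_pos N with hN | hN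
    · -- N = 0 : trivial truncation
      have hG0 : G = 0 := by
        rw [hG, hN]; unfold gp; simp
      rw [hG0, zero_mul, zero_add, map_mul]
      unfold gs
      rw [← coeff_zero_eq_constantCoeff_apply (PowerSeries.mk _), coeff_mk, bb_zero, mul_one]
      simpa using hρ
    · rw [map_add, map_mul, map_mul]
      have c1 : constantCoeff G = 1 := by
        have e : gp t N = Polynomial.C 1 + Polynomial.X * (gp t N).divX := by
          conv_lhs => rw [← Polynomial.divX_mul_X_add (gp t N)]
          rw [gp_coeff, if_pos hN, bb_zero]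
          ring
        rw [hG, e, map_add, map_mul, Polynomial.aeval_X, map_add, map_mul, h0]
        simp
      have c2 : constantCoeff D = ρ := by
        rw [hD, ← coeff_zero_eq_constantCoeff_apply, coeff_derivative, zero_add, h1]
        simp
      have c3 : constantCoeff (gs t) = 1 := by
        unfold gs
        rw [← coeff_zero_eq_constantCoeff_apply, coeff_mk, bb_zero]
      rw [c1, c2, c3]
      have : (1 : K) * ρ + (constantCoeff (C ρ)) * 1 = 2 * ρ := by
        simp; ring
      rw [this]
      exact (mul_ne_zero h2 hρ).isUnit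
  exact (hunit.dvd_mul_right).mp hdiv

end field

end

end Pool.Agent.U851.CM
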