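import Pool.Agent.U851.CM.SplitMain

set_option autoImplicit false

/-!
# The split case for the discriminants `-11` and `-8`
-/

namespace Pool.Agent.U851.CM

open Polynomial WeierstrassCurve WeierstrassCurve.Affine WithZero Pool.Agent.Q267.MW

noncomputable section

variable {p : ℕ} [hp : Fact p.Prime]

theorem hensel_quad (u v a : ℤ) (h : (p : ℤ) ∣ a ^ 2 - u * a + v) (h' : ¬ (p : ℤ) ∣ 2 * a - u) :
    ∃ z : ℤ_[p], z ^ 2 = u * z - v ∧ ‖z - a‖ < 1 := by
  set Fq : ℤ_[p][X] := X ^ 2 - C (u : ℤ_[p]) * X + C (v : ℤ_[p]) with hF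
  have e1 : ∀ z : ℤ_[p], Fq.aeval z = z ^ 2 - u * z + v := by
    intro z
    rw [hF]
    simp
  have e2 : ∀ z : ℤ_[p], Fq.derivative.aeval z = 2 * z - u := by
    intro z
    rw [hF]
    simp only [derivative_X_pow, derivative_C_mul, derivative_X,
      derivative_C, map_add, map_sub, map_mul, map_pow, aeval_X, aeval_C, map_one, map_zero]
    norm_num
  have n1 : ‖Fq.aeval (a : ℤ_[p])‖ < 1 := by
    rw [e1]
    have : ((a : ℤ_[p]) ^ 2 - u * a + v) = ((a ^ 2 - u * a + v : ℤ) : ℤ_[p]) := by push_cast; ring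
    rw [this]
    exact (PadicInt.norm_intCast_lt_one_iff).mpr h
  have n2 : ‖Fq.derivative.aeval (a : ℤ_[p])‖ = 1 := by
    rw [e2]
    have : (2 * (a : ℤ_[p]) - u) = ((2 * a - u : ℤ) : ℤ_[p]) := by push_cast; ring
    rw [this]
    refine le_antisymm (PadicInt.norm_le_one _) (not_lt.mp fun hlt => h' ?_)
    exact (PadicInt.norm_intCast_lt_one_iff).mp hlt
  obtain ⟨z, hz, hza, -, -⟩ := hensels_lemma (F := Fq) (a := (a : ℤ_[p])) (by
    rw [n2, one_pow]; exact n1)
  refine ⟨z, ?_, ?_⟩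
  · rw [e1] at hz
    linear_combination hz
  · rw [n2] at hza
    exact hza

/-- the root and the valuation of the generator -/
theorem root_val (u v r s : ℤ) (hrs : (p : ℤ) = r ^ 2 + u * r * s + v * s ^ 2)
    (hd : ¬ (p : ℤ) ∣ 4 * v - u ^ 2) :
    ∃ z : ℤ_[p], z ^ 2 = u * z - v ∧ ‖(r : ℚ_[p]) + s * (z : ℚ_[p])‖ = ep p := by
  have hpp : Prime (p : ℤ) := Nat.prime_iff_prime_int.mp hp.out
  have hs0 : ¬ (p : ℤ) ∣ s := by
    intro hps
    have hr2 : (p : ℤ) ∣ r ^ 2 := by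
      have : r ^ 2 = p - s * (u * r + v * s) := by rw [hrs]; ring
      rw [this]
      exact dvd_sub (dvd_refl _) (hps.mul_right _)
    have hr : (p : ℤ) ∣ r := hpp.dvd_of_dvd_pow hr2
    have hpsq : (p : ℤ) ^ 2 ∣ p := by
      conv_rhs => rw [hrs]
      obtain ⟨x, hx⟩ := hr
      obtain ⟨y, hy⟩ := hps
      exact ⟨x ^ 2 + u * x * y + v * y ^ 2, by rw [hx, hy]; ring⟩
    have h1 : (p : ℤ) ∣ 1 := by
      rw [pow_two] at hpsq
      have hp0 : (p : ℤ) ≠ 0 := by exact_mod_cast hp.out.ne_zero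
      exact (mul_dvd_mul_iff_left hp0).mp (by rwa [mul_one])
    exact hpp.not_isUnit (isUnit_of_dvd_one h1)
  -- integer root modulo p
  obtain ⟨x, y, hxy⟩ : IsCoprime s (p : ℤ) := ((Prime.coprime_iff_not_dvd hpp).mpr hs0).symm
  have hsa : (p : ℤ) ∣ s * (-(r * x)) + r := ⟨r * y, by linear_combination (-r) * hxy⟩
  set a : ℤ := -(r * x) with ha
  obtain ⟨w, hw⟩ := hsa
  have hN : (p : ℤ) ∣ a ^ 2 - u * a + v := by
    have h1 : (p : ℤ) ∣ s ^ 2 * (a ^ 2 - u * a + v) := by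
      refine ⟨(s * a - r) * w - u * s * w + 1, ?_⟩
      linear_combination (s * a - r - u * s) * hw - hrs
    exact (hpp.dvd_or_dvd h1).resolve_left (fun h => hs0 (hpp.dvd_of_dvd_pow h))
  have hD : ¬ (p : ℤ) ∣ 2 * a - u := by
    intro h
    apply hd
    have : 4 * v - u ^ 2 = 4 * (a ^ 2 - u * a + v) - (2 * a - u) * (2 * a - u) := by ring
    rw [this]
    exact dvd_sub (hN.mul_left 4) (h.mul_right _)
  obtain ⟨z, hz, hza⟩ := hensel_quad u v a hN hD
  refine ⟨z, hz, ?_⟩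
  have hq : (z : ℚ_[p]) ^ 2 = u * z - v := by
    have := congrArg (algebraMap ℤ_[p] ℚ_[p]) hz
    simp only [map_pow, map_mul, map_sub, map_intCast] at this
    exact this
  have hprod : ((r : ℚ_[p]) + s * (z : ℚ_[p])) * (r + s * (u - (z : ℚ_[p]))) = p := by
    have : (p : ℚ_[p]) = r ^ 2 + u * r * s + v * s ^ 2 := by exact_mod_cast congrArg (Int.cast (R := ℚ_[p])) hrs
    rw [this]
    linear_combination (-(s : ℚ_[p]) ^ 2) * hq
  have h1 : ‖(r : ℤ_[p]) + s * z‖ < 1 := by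
    have e : (r : ℤ_[p]) + s * z = (p : ℤ_[p]) * (w : ℤ_[p]) + s * (z - a) := by
      have := congrArg (Int.cast (R := ℤ_[p])) hw
      push_cast at this
      linear_combination this
    rw [e]
    refine PadicInt.norm_lt_one_add ?_ ?_
    · rw [mul_comm]
      exact PadicInt.norm_lt_one_mul (by
        rw [PadicInt.norm_p]
        exact inv_lt_one_of_one_lt₀ (by exact_mod_cast hp.out.one_lt))
    · exact PadicInt.norm_lt_one_mul hza
  have h2 := lt_ep _ h1
  have h3 : ‖(r : ℚ_[p]) + s * (z : ℚ_[p])‖ ≤ ep p := h2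
  have h4 : ‖((r : ℚ_[p]) + s * (u - (z : ℚ_[p])))‖ ≤ 1 := by
    have : ((r : ℚ_[p]) + s * (u - (z : ℚ_[p]))) = (((r : ℤ_[p]) + s * (u - z) : ℤ_[p]) : ℚ_[p]) := by
      push_cast; rfl
    rw [this]
    exact PadicInt.norm_le_one _
  have h5 := congrArg norm hprod
  rw [norm_mul, Padic.norm_p] at h5
  refine le_antisymm h3 ?_
  have : ep p = ‖(r : ℚ_[p]) + s * (z : ℚ_[p])‖ * ‖((r : ℚ_[p]) + s * (u - (z : ℚ_[p])))‖ := h5.symm
  rw [this]
  exact mul_le_of_le_one_right (norm_nonneg _) h4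

theorem unit_nat (hp5 : 5 ≤ p) (i j : ℕ) : ∃ u : ℤ_[p], ((2 ^ i * 3 ^ j : ℕ) : ℤ_[p]) * u = 1 := by
  have h : ‖((2 ^ i * 3 ^ j : ℕ) : ℤ_[p])‖ = 1 := by
    rw [PadicInt.norm_natCast_eq_one_iff]
    apply Nat.Coprime.mul_right
    · exact Nat.Coprime.pow_right _ ((Nat.coprime_primes hp.out Nat.prime_two).mpr (by omega))
    · exact Nat.Coprime.pow_right _ ((Nat.coprime_primes hp.out Nat.prime_three).mpr (by omega))
  have := PadicInt.isUnit_iff.mpr h
  exact this.exists_right_inv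

theorem norm_unit {x y : ℤ_[p]} (h : x * y = 1) : ‖x‖ = 1 :=
  PadicInt.isUnit_iff.mp (IsUnit.of_mul_eq_one _ h)

open Classical in
theorem split11 (hp5 : 5 ≤ p) (hp11 : p ≠ 11) (r s : ℤ)
    (hrs : (p : ℤ) = r ^ 2 + r * s + 3 * s ^ 2) :
    ‖((Sm p 64 - (((2 * r + s) ^ 2 - 2 * (p : ℤ) : ℤ) : ℚ) : ℚ) : ℚ_[p])‖ ≤ ep p ^ 2 := by
  have hpp : Prime (p : ℤ) := Nat.prime_iff_prime_int.mp hp.out
  obtain ⟨z, hz, hπ⟩ := root_val (p := p) 1 3 r s (by rw [hrs]; ring) (by
    intro h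
    have h' : (p : ℤ) ∣ ((11 : ℕ) : ℤ) := by norm_num at h ⊢; exact h
    exact hp11 ((Nat.prime_dvd_prime_iff_eq hp.out (by norm_num)).mp (Int.natCast_dvd_natCast.mp h')))
  have h2 : (2 : ℚ_[p]) ≠ 0 := two_ne_zero
  have h3 : (3 : ℚ_[p]) ≠ 0 := three_ne_zero
  have h11 : (11 : ℚ_[p]) ≠ 0 := by norm_num
  set al : ℚ_[p] := (z : ℚ_[p]) with hald
  have hz' : z ^ 2 = z - 3 := by
    have := hz
    push_cast at this
    linear_combination this
  have hal : al ^ 2 = al - 3 := by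
    have := congrArg (algebraMap ℤ_[p] ℚ_[p]) hz'
    simp only [map_pow, map_sub, map_ofNat] at this
    exact this
  -- the parameter
  obtain ⟨u, hu⟩ := unit_nat hp5 3 3
  obtain ⟨w, hw⟩ := unit_nat hp5 0 3
  norm_num at hu hw
  set t : ℤ_[p] := (5 - 2 * z) * u with ht
  have ht1 : ‖t‖ = 1 := by
    apply norm_unit (y := (3 + 2 * z) * 216 * w)
    rw [ht]
    linear_combination ((5 - 2 * z) * (3 + 2 * z) * w) * hu - 4 * w * hz' + hw
  have htq : (t : ℚ_[p]) = (5 - 2 * al) / 216 := by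
    have h216 : (216 : ℚ_[p]) ≠ 0 := by norm_num
    rw [eq_div_iff h216]
    have h := congrArg (algebraMap ℤ_[p] ℚ_[p]) hu
    simp only [map_mul, map_ofNat, map_one] at h
    have h' := congrArg (algebraMap ℤ_[p] ℚ_[p]) ht
    simp only [map_mul, map_sub, map_ofNat] at h'
    have h'' : (t : ℚ_[p]) = (5 - 2 * al) * (algebraMap ℤ_[p] ℚ_[p] u) := h'
    rw [h'']
    linear_combination (5 - 2 * al) * h
  have hm : ((64 : ℕ) : ℤ_[p]) * (t * (1 - 27 * t)) = 1 := by
    rw [ht]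
    push_cast
    linear_combination (1 - 8 * (5 - 2 * z) ^ 2 * u) * hu + (-32 * u) * hz'
  have hΔ := hΔ11 (F := ℚ_[p]) h2 h3 h11
  have heqA := eqA11 (F := ℚ_[p]) hal h3
  set P := pt h2 hΔ (P0_eq (-264 : ℚ_[p]) 1694) with hP
  set A := pt h2 hΔ heqA with hA
  set S := r • P + s • A with hS
  have hgS : Good ((r : ℚ_[p]) * 1 + s * al) S :=
    good_add h2 (good_zsmul h2 (good_P0 h2 hΔ) r) (good_zsmul h2 (goodA11 hal h2 h3 h11) s)
  rw [mul_one] at hgS
  have hhS : hgt S = p := by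
    have hpar : ∀ P Q : (TW (-264 : ℚ_[p]) 1694).Point,
        ((hgt (P + Q) : ℕ) : ℤ) + ((hgt (P - Q) : ℕ) : ℤ) =
        2 * (((hgt P : ℕ) : ℤ) + ((hgt Q : ℕ) : ℤ)) := by
      intro P Q
      have := par h2 hΔ P Q
      exact_mod_cast this
    have hq := qf (fun R => (hgt R : ℤ)) hpar P A r s
    have q1 : hgt P = 1 := hgt_P0 h2 hΔ
    have q2 : hgt A = 3 := hgtA11 hal h2 h3 h11
    have q3 : hgt (P + A) = 5 := hgtS11 hal h2 h3 h11
    rw [q1, q2, q3] at hq
    have : ((hgt S : ℕ) : ℤ) = p := by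
      rw [hrs, hS, hq]
      push_cast
      ring
    exact_mod_cast this
  -- the point of order three
  have hfe' : (12 - 2 * al) ^ 3 + (-264) * (12 - 2 * al) + 1694 = -154 - 176 * al := by
    linear_combination (-8 * al + 136) * hal
  have hfe : (12 - 2 * al) ^ 3 + (-264) * (12 - 2 * al) + 1694 ≠ 0 := by
    rw [hfe']
    intro h
    have : (6534 : ℚ_[p]) = 0 := by
      linear_combination (-(15 - 8 * al)) * h + 1408 * hal
    norm_num at this
  have hK3 : Ker (vx (12 - 2 * al)) ((3 : ℤ) • P) := by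
    apply three_ker h2 h3 hΔ hfe
    linear_combination (-48 * al ^ 2 + 1104 * al - 2784) * hal
  have hKA : Ker (vx (12 - 2 * al)) A := by
    rw [hA, ker_pt]
    obtain ⟨h9, -⟩ := pow3_ne (K := ℚ_[p]) h3
    rw [← nd11, map_div₀]
    have hn : (n11 al).eval (12 - 2 * al) ≠ 0 := by
      unfold n11
      simp only [eval_mul, eval_add, eval_sub, eval_X, eval_C, sub_self, mul_zero, zero_add]
      exact mul_ne_zero (neg_ne_zero.mpr (al11_two hal h3)) (al11_u hal h2 h3 h11)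
    have hd : (d11 al).eval (12 - 2 * al) = 0 := by
      unfold d11
      simp
    rw [vx_eq _ hn, one_div]
    have hlt := (vx_lt _ _).mpr hd
    have hne : vx (12 - 2 * al) (io (d11 al)) ≠ 0 :=
      (Valuation.ne_zero_iff _).mpr (io_ne (d11_ne h9))
    exact (one_lt_inv₀ (zero_lt_iff.mpr hne)).mpr hlt
  have hnear : Near (12 - 2 * al) S := by
    apply near_of h2 hΔ hK3 S r
    · intro h3r
      have : (3 : ℤ) ∣ p := by
        rw [hrs]
        obtain ⟨k, hk⟩ := h3r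
        exact ⟨k * r + k * s + s ^ 2, by rw [hk]; ring⟩
      have h3p : 3 ∣ p := by exact_mod_cast this
      have := (Nat.prime_dvd_prime_iff_eq Nat.prime_three hp.out).mp h3p
      omega
    · have : S - r • P = s • A := by rw [hS]; abel
      rw [this]
      exact ker_zsmul _ (fun c => vx_C_le _ c) (fun c hc => vx_C _ hc) h2 hKA s
  have hmain := split_main (c := (5 * al - 8) / 3) hp5 t ht1 (by
      intro h
      have h' : 5 * al - 8 = 0 := by
        have := (div_eq_zero_iff.mp h).resolve_right h3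
        exact this
      have : (99 : ℚ_[p]) = 0 := by linear_combination (-(5 * al + 3)) * h' + 25 * hal
      norm_num at this) hfe
    (by linear_combination (20 + 4 * al) * hal)
    (by linear_combination (2 / 3 - 26 / 3 * al) * hal)
    (by rw [htq]; linear_combination (41 / 27 - 31 / 27 * al + 8 / 27 * al ^ 2) * hal) S hgS hhS
    hnear hπ
  exact split_fin hp5 t hm ((r : ℚ_[p]) + s * al) (r + s * (1 - al)) hπ (by
      have : (p : ℚ_[p]) = r ^ 2 + r * s + 3 * s ^ 2 := by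
        exact_mod_cast congrArg (Int.cast (R := ℚ_[p])) hrs
      rw [this]
      linear_combination (-(s : ℚ_[p]) ^ 2) * hal) (2 * r + s) (by push_cast; ring) hmain

end

end Pool.Agent.U851.CM
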