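import Pool.Agent.U851.CM.Three
import Pool.Agent.U851.CM.KeyE
import Pool.Agent.U851.CM.Clausen

set_option autoImplicit false

/-!
# The split case
-/

namespace Pool.Agent.U851.CM

open Polynomial WeierstrassCurve WeierstrassCurve.Affine WithZero Pool.Agent.Q267.MW

noncomputable section

section gen

theorem grp1 {G : Type*} [AddCommGroup G] (S P : G) (q : ℤ) :
    S = P + ((S - (3 * q + 1) • P) + q • ((3 : ℤ) • P)) := by
  rw [add_smul, one_smul, mul_comm (3 : ℤ) q, mul_smul]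
  abel

theorem grp2 {G : Type*} [AddCommGroup G] (S P : G) (q : ℤ) :
    S = -(P + -((S - (3 * q - 1) • P) + q • ((3 : ℤ) • P))) := by
  rw [sub_smul, one_smul, mul_comm (3 : ℤ) q, mul_smul]
  abel

variable {F : Type*} [Field F]

open Classical in
theorem near_of {a b e : F} (h2 : (2 : F) ≠ 0) (hΔ : 4 * a ^ 3 + 27 * b ^ 2 ≠ 0)
    (h3 : Ker (vx e) ((3 : ℤ) • pt h2 hΔ (P0_eq a b))) (S : (TW a b).Point) (m : ℤ)
    (hm : ¬ (3 : ℤ) ∣ m) (hK : Ker (vx e) (S - m • pt h2 hΔ (P0_eq a b))) : Near e S := by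
  have hv1 : ∀ c : F, vx e (io (C c)) ≤ 1 := fun c => vx_C_le e c
  have hv2 : ∀ c : F, c ≠ 0 → vx e (io (C c)) = 1 := fun c hc => vx_C e hc
  set P := pt h2 hΔ (P0_eq a b) with hP
  rcases (show m % 3 = 1 ∨ m % 3 = 2 by omega) with h | h
  · obtain ⟨q, hq⟩ : ∃ q : ℤ, m = 3 * q + 1 := ⟨m / 3, by omega⟩
    have e1 : S = P + ((S - m • P) + q • ((3 : ℤ) • P)) := by
      rw [hq]
      exact grp1 S P q
    rw [e1]
    exact near_add h2 hΔ (ker_add _ hv1 hv2 h2 hK (ker_zsmul _ hv1 hv2 h2 h3 q))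
  · obtain ⟨q, hq⟩ : ∃ q : ℤ, m = 3 * q - 1 := ⟨(m + 1) / 3, by omega⟩
    have e1 : S = -(P + -((S - m • P) + q • ((3 : ℤ) • P))) := by
      rw [hq]
      exact grp2 S P q
    rw [e1]
    exact near_neg (near_add h2 hΔ
      (ker_neg _ (ker_add _ hv1 hv2 h2 hK (ker_zsmul _ hv1 hv2 h2 h3 q))))

end gen

variable {p : ℕ} [hp : Fact p.Prime]

theorem split_main (hp5 : 5 ≤ p) {a b e c π : ℚ_[p]} (t : ℤ_[p]) (ht : ‖t‖ = 1) (hc : c ≠ 0)
    (hfe : e ^ 3 + a * e + b ≠ 0)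
    (h1 : (3 * e ^ 2 + a) * c = -2 * (e ^ 3 + a * e + b))
    (h2 : 3 * e * c ^ 2 = e ^ 3 + a * e + b)
    (h3 : c ^ 3 = -4 * (t : ℚ_[p]) * (e ^ 3 + a * e + b))
    (S : (TW a b).Point) (hg : Good π S) (hh : hgt S = p) (hn : Near e S) (hπ : ‖π‖ = ep p) :
    ‖(π / p * At p (t : ℚ_[p])) ^ 2 - 1‖ ≤ ep p ^ 2 := by
  cases S with
  | zero => exact absurd hn (fun h => h)
  | some x y h =>
    set N := (x / io (fp a b)).num with hN
    set D := (x / io (fp a b)).denom with hD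
    have ho := point_ode h hg hN hD
    obtain ⟨hv, -⟩ := (good_some h).mp hg
    have hlt : D.natDegree < N.natDegree := deg_of_vi hv
    have hmh : mh N D = p := hh
    have hNp : N.natDegree = p := by
      unfold mh at hmh
      rwa [max_eq_left hlt.le] at hmh
    obtain ⟨hev, hDe⟩ := near_eval h hn
    have hL : (Lc e c).natDegree ≤ 1 := by
      unfold Lc
      rw [add_comm]
      exact natDegree_linear_le
    have hcomp : ∀ q : ℚ_[p][X], (q.comp (Lc e c)).natDegree ≤ q.natDegree := by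
      intro q
      refine natDegree_comp_le.trans ?_
      calc q.natDegree * (Lc e c).natDegree ≤ q.natDegree * 1 := Nat.mul_le_mul_left _ hL
        _ = q.natDegree := mul_one _
    have hL0 : (Lc e c).eval 0 = e := by
      unfold Lc
      simp
    apply key hp5 t ht π hπ (C c⁻¹ * ((N - C e * D).comp (Lc e c))) (D.comp (Lc e c))
    · refine (natDegree_C_mul_le _ _).trans ((hcomp _).trans ?_)
      refine (natDegree_sub_le _ _).trans (max_le hNp.le ?_)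
      exact (natDegree_C_mul_le _ _).trans (by omega)
    · exact lt_of_le_of_lt (hcomp _) (by omega)
    · rw [coeff_zero_eq_eval_zero, eval_mul, eval_comp, hL0, eval_sub, eval_mul, eval_C, eval_C,
        ← hN, ← hD] at *
      rw [hev]
      ring
    · rw [coeff_zero_eq_eval_zero, eval_comp, hL0]
      exact hDe
    · exact ode_comp hc hfe h1 h2 h3 N D ho _ _ rfl rfl

/-- the sum in question -/
def Sm (p m : ℕ) : ℚ := ∑ k ∈ Finset.range p,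
  ((Nat.choose (2 * k) k : ℚ) ^ 2 * (Nat.choose (3 * k) k : ℚ)) / (m : ℚ) ^ k

/-- the sum and the value of the Clausen side -/
theorem Sm_eq {m : ℕ} (t : ℤ_[p]) (hm : (m : ℤ_[p]) * (t * (1 - 27 * t)) = 1) :
    ((Sm p m : ℚ) : ℚ_[p]) = ((∑ k ∈ Finset.range p, (cc k : ℤ_[p]) * (k.centralBinom : ℤ_[p]) *
      (t * (1 - 27 * t)) ^ k : ℤ_[p]) : ℚ_[p]) := by
  unfold Sm
  rw [PadicInt.coe_sum, Rat.cast_sum]
  refine Finset.sum_congr rfl fun k _ => ?_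
  have hm' : (m : ℚ_[p]) * ((t * (1 - 27 * t) : ℤ_[p]) : ℚ_[p]) = 1 := by
    rw [← PadicInt.coe_natCast, ← PadicInt.coe_mul, hm, PadicInt.coe_one]
  have hm0 : (m : ℚ_[p]) ≠ 0 := left_ne_zero_of_mul_eq_one hm'
  have e1 : ((t * (1 - 27 * t) : ℤ_[p]) : ℚ_[p]) = (m : ℚ_[p])⁻¹ := by
    exact eq_inv_of_mul_eq_one_right hm'
  rw [PadicInt.coe_mul, PadicInt.coe_mul, PadicInt.coe_pow, e1, PadicInt.coe_natCast,
    PadicInt.coe_natCast, Nat.centralBinom_eq_two_mul_choose]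
  unfold cc
  push_cast
  rw [inv_pow]
  ring

theorem split_fin (hp5 : 5 ≤ p) {m : ℕ} (t : ℤ_[p])
    (hm : (m : ℤ_[p]) * (t * (1 - 27 * t)) = 1) (π π' : ℚ_[p]) (hπ : ‖π‖ = ep p)
    (hpp : π * π' = p) (X : ℤ) (hX : (X : ℚ_[p]) = π + π')
    (hA : ‖(π / p * At p (t : ℚ_[p])) ^ 2 - 1‖ ≤ ep p ^ 2) :
    ‖((Sm p m - ((X ^ 2 - 2 * (p : ℤ) : ℤ) : ℚ) : ℚ) : ℚ_[p])‖ ≤ ep p ^ 2 := by
  have hp0 : (p : ℚ_[p]) ≠ 0 := by exact_mod_cast hp.out.ne_zero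
  have hπ0 : π ≠ 0 := by
    intro h
    rw [h, norm_zero] at hπ
    exact ep_pos.ne hπ
  have hpn : ‖(p : ℚ_[p])‖ = ep p := Padic.norm_p
  obtain ⟨w, hw⟩ := clausen p hp5 t
  have hcast : ((At p t : ℤ_[p]) : ℚ_[p]) = At p (t : ℚ_[p]) := by
    unfold At
    rw [PadicInt.coe_sum]
    refine Finset.sum_congr rfl fun k _ => ?_
    rw [PadicInt.coe_mul, PadicInt.coe_pow, PadicInt.coe_natCast]
  have hw' : (At p (t : ℚ_[p])) ^ 2 = ((Sm p m : ℚ) : ℚ_[p]) + (p : ℚ_[p]) ^ 2 * (w : ℚ_[p]) := by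
    rw [Sm_eq t hm, ← hcast, ← PadicInt.coe_pow, hw]
    rw [PadicInt.coe_add, PadicInt.coe_mul, PadicInt.coe_pow, PadicInt.coe_natCast]
  have hu : ‖π / p‖ = 1 := by
    rw [norm_div, hπ, hpn, div_self ep_pos.ne']
  have e1 : (π / p * At p (t : ℚ_[p])) ^ 2 - 1 = (π / p) ^ 2 * (At p (t : ℚ_[p]) ^ 2 - π' ^ 2) := by
    have : (π / p) ^ 2 * π' ^ 2 = 1 := by
      rw [div_pow, div_mul_eq_mul_div, ← mul_pow, hpp, div_self (pow_ne_zero 2 hp0)]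
    rw [mul_sub, this]
    ring
  rw [e1, norm_mul, norm_pow, hu, one_pow, one_mul] at hA
  have e2 : ((Sm p m - ((X ^ 2 - 2 * (p : ℤ) : ℤ) : ℚ) : ℚ) : ℚ_[p]) =
      (At p (t : ℚ_[p]) ^ 2 - π' ^ 2) - (p : ℚ_[p]) ^ 2 * (w : ℚ_[p]) - π ^ 2 := by
    rw [hw']
    push_cast
    rw [hX, ← hpp]
    ring
  rw [e2]
  refine nsub (nsub hA ?_) ?_
  · rw [norm_mul, norm_pow, hpn]
    calc ep p ^ 2 * ‖(w : ℚ_[p])‖ ≤ ep p ^ 2 * 1 :=
          mul_le_mul_of_nonneg_left (PadicInt.norm_le_one w) (pow_nonneg ep_nonneg 2)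
      _ = ep p ^ 2 := mul_one _
  · rw [norm_pow, hπ]

/-- from norms to numerators -/
theorem dvd_num_of_norm {q : ℚ} (h : ‖(q : ℚ_[p])‖ ≤ ep p ^ 2) : (p : ℤ) ^ 2 ∣ q.num := by
  have hd : ‖((q.den : ℕ) : ℚ_[p])‖ ≤ 1 := by
    exact_mod_cast Padic.norm_int_le_one ((q.den : ℕ) : ℤ)
  have e : ((q.num : ℤ) : ℚ_[p]) = (q : ℚ_[p]) * ((q.den : ℕ) : ℚ_[p]) := by
    have := Rat.mul_den_eq_num q
    have h2 := congrArg (Rat.cast (K := ℚ_[p])) this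
    push_cast at h2
    exact h2.symm
  have hn : ‖((q.num : ℤ) : ℚ_[p])‖ ≤ (p : ℝ) ^ (-(2 : ℕ) : ℤ) := by
    rw [e, norm_mul]
    have : (p : ℝ) ^ (-(2 : ℕ) : ℤ) = ep p ^ 2 := by
      unfold ep
      rw [zpow_neg, zpow_natCast, inv_pow]
    rw [this]
    calc ‖(q : ℚ_[p])‖ * ‖((q.den : ℕ) : ℚ_[p])‖ ≤ ep p ^ 2 * 1 :=
          mul_le_mul h hd (norm_nonneg _) (pow_nonneg ep_nonneg 2)
      _ = ep p ^ 2 := mul_one _
  have := (Padic.norm_int_le_pow_iff_dvd q.num 2).mp hn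
  exact_mod_cast this

theorem exists_of_norm {q : ℚ} (h : ‖(q : ℚ_[p])‖ ≤ ep p ^ 2) :
    ∃ r : ℚ, q = (p : ℚ) ^ 2 * r ∧ Nat.Coprime r.den p := by
  have hp0 : (p : ℚ) ≠ 0 := by exact_mod_cast hp.out.ne_zero
  refine ⟨q / p ^ 2, by field_simp, ?_⟩
  have hr : ‖((q / p ^ 2 : ℚ) : ℚ_[p])‖ ≤ 1 := by
    push_cast
    rw [norm_div, norm_pow, Padic.norm_p]
    have he : 0 < ep p ^ 2 := pow_pos ep_pos 2
    have : ((p : ℝ)⁻¹) ^ 2 = ep p ^ 2 := rfl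
    rw [this, div_le_one he]
    exact h
  have hu := PadicInt.isUnit_den _ hr
  rw [PadicInt.isUnit_iff] at hu
  have hu' : ‖((((q / p ^ 2 : ℚ).den : ℕ) : ℤ_[p]))‖ = 1 := hu
  rw [PadicInt.norm_natCast_eq_one_iff] at hu'
  exact hu'.symm

end

end Pool.Agent.U851.CM
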