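import Pool.Agent.U851.CM.Point
import Pool.Agent.U851.CM.SerOde

set_option autoImplicit false

/-!
# A point of order three, and the normal form of the curve there
-/

namespace Pool.Agent.U851.CM

open Polynomial WeierstrassCurve WeierstrassCurve.Affine WithZero Pool.Agent.Q267.MW

variable {F : Type*} [Field F]

noncomputable section

/-- first coordinate of the double of the generic point -/
def X2 (a b : F) : RatFunc F :=
  (3 * io X ^ 2 + io (C a)) ^ 2 / (4 * io (fp a b)) - 2 * io X

/-- second coordinate of the double of the generic point -/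
def Y2 (a b : F) : RatFunc F :=
  -(((3 * io X ^ 2 + io (C a)) / (2 * io (fp a b))) * (X2 a b - io X) + 1)

theorem two_eqn {a b : F} (h2 : (2 : F) ≠ 0) : io (fp a b) * (Y2 a b) ^ 2 =
    (X2 a b) ^ 3 + io (C a) * X2 a b + io (C b) := by
  have hf := fk_ne a b
  have h2K := two_ne_K h2
  have h4K : (4 : RatFunc F) ≠ 0 := by
    have : (4 : RatFunc F) = 2 ^ 2 := by norm_num
    rw [this]; exact pow_ne_zero _ h2K
  have hB : io (C b) = io (fp a b) - io X ^ 3 - io (C a) * io X := by
    have := P0_eq a b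
    linear_combination -this
  unfold Y2 X2
  rw [hB]
  have h4 : (4 : RatFunc F) = 2 * 2 := by norm_num
  rw [h4]
  field_simp
  ring

open Classical in
theorem two_pt {a b : F} (h2 : (2 : F) ≠ 0) (hΔ : 4 * a ^ 3 + 27 * b ^ 2 ≠ 0) :
    pt h2 hΔ (P0_eq a b) + pt h2 hΔ (P0_eq a b) = pt h2 hΔ (two_eqn (a := a) (b := b) h2) := by
  have hf := fk_ne a b
  have h2K := two_ne_K h2
  have hyy : io (fp a b) ^ 2 * 1 ≠ (TW a b).negY (io (fp a b) * io X) (io (fp a b) ^ 2 * 1) := by
    rw [negY_SW]
    intro h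
    have h0 : (2 : RatFunc F) * (io (fp a b) ^ 2 * 1) = 0 := by linear_combination h
    exact mul_ne_zero h2K (mul_ne_zero (pow_ne_zero 2 hf) one_ne_zero) h0
  unfold pt
  rw [Point.add_self_of_Y_ne hyy, Point.some.injEq]
  have hsl : (TW a b).slope (io (fp a b) * io X) (io (fp a b) * io X) (io (fp a b) ^ 2 * 1)
      (io (fp a b) ^ 2 * 1) =
      (3 * (io (fp a b) * io X) ^ 2 + io (C a) * io (fp a b) ^ 2) / (2 * (io (fp a b) ^ 2 * 1)) := by
    rw [slope_of_Y_ne rfl hyy, negY_SW]
    congr 1
    · simp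
    · ring
  have hsl2 : (TW a b).slope (io (fp a b) * io X) (io (fp a b) * io X) (io (fp a b) ^ 2 * 1)
      (io (fp a b) ^ 2 * 1) = (3 * io X ^ 2 + io (C a)) / 2 := by
    rw [hsl]
    field_simp
  rw [hsl2]
  have h4 : (4 : RatFunc F) = 2 * 2 := by norm_num
  constructor
  · simp only [addX, X2]
    rw [h4]
    field_simp
    ring
  · simp only [addY, negAddY, addX, negY, Y2, X2]
    rw [h4]
    field_simp
    ring

open Classical in
/-- three times the generic point reduces to zero at a point of order three -/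
theorem three_ker {a b e : F} (h2 : (2 : F) ≠ 0) (h3 : (3 : F) ≠ 0)
    (hΔ : 4 * a ^ 3 + 27 * b ^ 2 ≠ 0)
    (hfe : e ^ 3 + a * e + b ≠ 0) (he : (3 * e ^ 2 + a) ^ 2 = 12 * e * (e ^ 3 + a * e + b)) :
    Ker (vx e) ((3 : ℤ) • pt h2 hΔ (P0_eq a b)) := by
  have hf := fk_ne a b
  have h2K := two_ne_K h2
  have h4 : (4 : F) ≠ 0 := by
    have : (4 : F) = 2 ^ 2 := by norm_num
    rw [this]; exact pow_ne_zero _ h2
  have h4K : (4 : RatFunc F) ≠ 0 := by
    have : (4 : RatFunc F) = 2 ^ 2 := by norm_num
    rw [this]; exact pow_ne_zero _ h2K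
  have hev : (fp a b).eval e = e ^ 3 + a * e + b := by
    unfold fp
    simp
  have hfe' : (fp a b).eval e ≠ 0 := by rwa [hev]
  have e3 : (3 : ℤ) • pt h2 hΔ (P0_eq a b) =
      pt h2 hΔ (P0_eq a b) + pt h2 hΔ (two_eqn (a := a) (b := b) h2) := by
    rw [← two_pt h2 hΔ]
    abel
  rw [e3]
  -- the difference of the first coordinates
  have hd : X2 a b - io X = io ((C 3 * X ^ 2 + C a) ^ 2 - C 12 * X * fp a b) / io (C 4 * fp a b) := by
    unfold X2
    simp only [map_sub, map_mul, map_pow, map_add, map_ofNat]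
    field_simp
    ring
  have hden : (C 4 * fp a b).eval e ≠ 0 := by
    rw [eval_mul, eval_C]
    exact mul_ne_zero h4 hfe'
  have hnum : ((C 3 * X ^ 2 + C a) ^ 2 - C 12 * X * fp a b : F[X]).eval e = 0 := by
    simp only [eval_sub, eval_pow, eval_add, eval_mul, eval_C, eval_X, hev]
    linear_combination he
  have hvd : vx e (X2 a b - io X) < 1 := by
    rw [hd]
    exact vx_div_lt e hnum hden
  apply ker_sum
  · -- different
    intro h
    rw [← h, sub_self] at hd
    have hz : io ((C 3 * X ^ 2 + C a) ^ 2 - C 12 * X * fp a b : F[X]) = 0 := by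
      have := (div_eq_zero_iff.mp hd.symm).resolve_right
        (io_ne (mul_ne_zero (by rwa [Ne, C_eq_zero]) (fp_ne a b)))
      exact this
    rw [← map_zero (io (F := F))] at hz
    have hz' := io_inj hz
    have hc := congrArg (fun q => q.coeff 4) hz'
    have hexp : ((C 3 * X ^ 2 + C a) ^ 2 - C 12 * X * fp a b : F[X]) =
        C (-3) * X ^ 4 + C (-6 * a) * X ^ 2 + C (-12 * b) * X + C (a ^ 2) := by
      unfold fp
      simp only [map_neg, map_mul, map_ofNat, map_pow]
      ring
    rw [hexp] at hc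
    simp only [coeff_add, coeff_C_mul, coeff_X_pow, coeff_X, coeff_C, coeff_zero] at hc
    norm_num at hc
    exact h3 hc
  · exact vx_eq e hfe'
  · exact vx_le e X
  · have : X2 a b = (X2 a b - io X) + io X := by ring
    rw [this]
    exact (vx e).map_add_le hvd.le (vx_le e X)
  · rw [Valuation.map_sub_swap]
    exact hvd
  · have hs : vx e ((3 * io X ^ 2 + io (C a)) / (2 * io (fp a b))) ≤ 1 := by
      have : (3 * io X ^ 2 + io (C a)) / (2 * io (fp a b)) =
          io (C 3 * X ^ 2 + C a) / io (C 2 * fp a b) := by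
        simp only [map_mul, map_pow, map_add, map_ofNat]
      rw [this]
      apply vx_div_le
      rw [eval_mul, eval_C]
      exact mul_ne_zero h2 hfe'
    have hY : (1 : RatFunc F) - Y2 a b =
        io (C 2) + ((3 * io X ^ 2 + io (C a)) / (2 * io (fp a b))) * (X2 a b - io X) := by
      unfold Y2
      rw [map_ofNat, map_ofNat]
      ring
    rw [hY, (vx e).map_add_eq_of_lt_left]
    · exact vx_C e h2
    · rw [vx_C e h2, map_mul]
      exact lt_of_le_of_lt (mul_le_of_le_one_left' hs) hvd

/-- the linear substitution -/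
def Lc (e c : F) : F[X] := C e + C c * X

theorem fp_comp {a b e c t : F} (h1 : (3 * e ^ 2 + a) * c = -2 * (e ^ 3 + a * e + b))
    (h2 : 3 * e * c ^ 2 = e ^ 3 + a * e + b) (h3 : c ^ 3 = -4 * t * (e ^ 3 + a * e + b)) :
    (fp a b).comp (Lc e c) = C (e ^ 3 + a * e + b) * Qe (C t) X := by
  have k1 := congrArg (C : F → F[X]) h1
  have k2 := congrArg (C : F → F[X]) h2
  have k3 := congrArg (C : F → F[X]) h3
  simp only [map_mul, map_add, map_neg, map_pow, map_ofNat] at k1 k2 k3
  unfold fp Lc Qe
  simp only [add_comp, mul_comp, pow_comp, X_comp, C_comp, map_add, map_mul, map_pow]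
  linear_combination X * k1 + X ^ 2 * k2 + X ^ 3 * k3

/-- change of coordinates in the differential equation -/
theorem ode_comp {a b e c t π : F} (hc : c ≠ 0) (hfe : e ^ 3 + a * e + b ≠ 0)
    (h1 : (3 * e ^ 2 + a) * c = -2 * (e ^ 3 + a * e + b))
    (h2 : 3 * e * c ^ 2 = e ^ 3 + a * e + b) (h3 : c ^ 3 = -4 * t * (e ^ 3 + a * e + b))
    (N D : F[X]) (ho : fp a b * (derivative N * D - N * derivative D) ^ 2 =
      C π ^ 2 * (D * (N ^ 3 + C a * N * D ^ 2 + C b * D ^ 3))) (n d : F[X])
    (hn : n = C c⁻¹ * ((N - C e * D).comp (Lc e c))) (hd : d = D.comp (Lc e c)) :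
    Qe (C t) X * (derivative n * d - n * derivative d) ^ 2 =
      C π ^ 2 * (d * (d * (d - n) ^ 2 - 4 * C t * n ^ 3)) := by
  have hcc : (C c : F[X]) * C c⁻¹ = 1 := by rw [← C_mul, mul_inv_cancel₀ hc, C_1]
  have hN : N.comp (Lc e c) = C c * n + C e * d := by
    rw [hn, hd, sub_comp, mul_comp, C_comp]
    linear_combination (-(N.comp (Lc e c)) + C e * D.comp (Lc e c)) * hcc
  have hL : derivative (Lc e c) = C c := by
    unfold Lc
    simp
  have hD' : derivative d = C c * (derivative D).comp (Lc e c) := by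
    rw [hd, derivative_comp, hL]
  have hN' : C c * (derivative N).comp (Lc e c) = C c * derivative n + C e * derivative d := by
    have := congrArg derivative hN
    rw [derivative_comp, hL, derivative_add, derivative_C_mul, derivative_C_mul] at this
    linear_combination this
  have hW : C c * (derivative n * d - n * derivative d) =
      C c * ((derivative N * D - N * derivative D).comp (Lc e c)) := by
    rw [sub_comp, mul_comp, mul_comp, ← hd]
    have e1 : C c * ((derivative N).comp (Lc e c) * d - N.comp (Lc e c) *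
        (derivative D).comp (Lc e c)) =
        (C c * (derivative N).comp (Lc e c)) * d - N.comp (Lc e c) *
        (C c * (derivative D).comp (Lc e c)) := by ring
    rw [e1, hN', ← hD', hN]
    ring
  have hc0 : (C c : F[X]) ≠ 0 := by rwa [Ne, C_eq_zero]
  have hW' := mul_left_cancel₀ hc0 hW
  have hf0 : (C (e ^ 3 + a * e + b) : F[X]) ≠ 0 := by rwa [Ne, C_eq_zero]
  apply mul_left_cancel₀ hf0
  rw [hW']
  have ho' := congrArg (fun q : F[X] => q.comp (Lc e c)) ho
  simp only [mul_comp, pow_comp, add_comp, C_comp] at ho'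
  rw [fp_comp h1 h2 h3, ← hd, hN] at ho'
  have k1 := congrArg (C : F → F[X]) h1
  have k2 := congrArg (C : F → F[X]) h2
  have k3 := congrArg (C : F → F[X]) h3
  simp only [map_mul, map_add, map_neg, map_pow, map_ofNat] at k1 k2 k3
  simp only [map_add, map_mul, map_pow] at ho' ⊢
  linear_combination ho' + C π ^ 2 * d * (n * d ^ 2 * k1 + n ^ 2 * d * k2 + n ^ 3 * k3)

end

end Pool.Agent.U851.CM
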